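import Pool.Agent.Y881.SP.Four
import Pool.Agent.Helper112.Arith

set_option autoImplicit false
set_option linter.unusedSectionVars false

/-! # Few numbers are sent into a small set by many of the maps `s ↦ (s + w) / u`

The count of `(s, w, u)` with `(s + w) / u ∈ V` is bounded by Fourier analysis: the smoothed
indicator function of `S + [0, W)` has only frequencies of size at most `p / W`, these are
multiplied by `u ≤ U ≤ W` without a reduction modulo `p`, so each frequency arises from few pairs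
by the bound for the divisor function. -/

open Finset

namespace Pool.Agent.Y881.BI

open Pool.Agent.Y881.SP

variable {p : ℕ} [Fact p.Prime]

/-- exponential sum over a set -/
noncomputable def es (S : Finset (ZMod p)) (ξ : ZMod p) : ℂ :=
  ∑ s ∈ S, ZMod.stdAddChar (ξ * s)

theorem es_parseval (S : Finset (ZMod p)) : ∑ ξ, ‖es S ξ‖ ^ 2 = p * S.card := by
  classical
  have h1 := parseval (p := p) fun x => if x ∈ S then (1 : ℝ) else 0
  have h2 : ∀ ξ, ft (fun x : ZMod p => if x ∈ S then (1 : ℝ) else 0) ξ = es S ξ := by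
    intro ξ
    rw [ft, es]
    rw [← sum_filter_add_sum_filter_not univ (fun x => x ∈ S)]
    rw [filter_mem_eq_inter, univ_inter]
    rw [sum_congr rfl (g := fun s => ZMod.stdAddChar (ξ * s)) (fun x hx => by simp [hx])]
    rw [sum_eq_zero (s := univ.filter fun x => x ∉ S) (fun x hx => by
      simp [(mem_filter.1 hx).2])]
    rw [add_zero]
  simp only [h2] at h1
  rw [h1]
  congr 1
  have h3 : ∀ x : ZMod p, (if x ∈ S then (1 : ℝ) else 0) ^ 2 = if x ∈ S then 1 else 0 := by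
    intro x
    split_ifs <;> norm_num
  simp only [h3]
  rw [sum_boole, filter_mem_eq_inter, univ_inter]

theorem es_zero (S : Finset (ZMod p)) : es S 0 = S.card := by
  simp [es]

/-- the kernel -/
noncomputable def gk (K : ℕ) (x : ZMod p) : ℂ :=
  ∑ k ∈ range K, ZMod.stdAddChar ((k : ZMod p) * x)

theorem gk_sq (K : ℕ) (x : ZMod p) : ((‖gk K x‖ ^ 2 : ℝ) : ℂ) =
    ∑ y ∈ range K ×ˢ range K, ZMod.stdAddChar ((((y.1 : ℤ) - y.2 : ℤ) : ZMod p) * x) := by
  push_cast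
  rw [← Complex.mul_conj', gk, map_sum, sum_mul_sum, Finset.sum_product]
  refine sum_congr rfl fun k _ => sum_congr rfl fun k' _ => ?_
  rw [conj_std, ← AddChar.map_add_eq_mul]
  congr 1
  ring

theorem gk_lower (K W w : ℕ) (hw : w < W) (hKW : 6 * K * W ≤ p) :
    (K : ℝ) / 2 ≤ ‖gk K ((w : ℕ) : ZMod p)‖ := by
  have hp0 : (0 : ℝ) < p := by exact_mod_cast (Fact.out : p.Prime).pos
  refine le_trans ?_ (Complex.re_le_norm _)
  rw [gk, Complex.re_sum]
  have h1 : ∀ k ∈ range K, (1 : ℝ) / 2 ≤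
      (ZMod.stdAddChar ((k : ZMod p) * ((w : ℕ) : ZMod p))).re := by
    intro k hk
    have hk1 := mem_range.1 hk
    have e : (k : ZMod p) * ((w : ℕ) : ZMod p) = (((k * w : ℕ) : ℤ) : ZMod p) := by push_cast; ring
    rw [e, ZMod.stdAddChar_coe]
    have e2 : (2 * (Real.pi : ℂ) * Complex.I * (((k * w : ℕ) : ℤ) : ℂ) / (p : ℂ)) =
        ((2 * Real.pi * (k * w) / p : ℝ) : ℂ) * Complex.I := by
      push_cast
      ring
    rw [e2, Complex.exp_ofReal_mul_I_re, ← Real.cos_pi_div_three]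
    have h2 : 2 * Real.pi * (k * w) / p ≤ Real.pi / 3 := by
      rw [div_le_div_iff₀ hp0 (by norm_num)]
      have h3 : (6 : ℝ) * (k * w) ≤ p := by
        have h4 : 6 * (k * w) ≤ p := by
          calc 6 * (k * w) ≤ 6 * (K * W) :=
                Nat.mul_le_mul_left _ (Nat.mul_le_mul hk1.le hw.le)
            _ = 6 * K * W := by ring
            _ ≤ p := hKW
        exact_mod_cast h4
      nlinarith [Real.pi_pos]
    refine Real.cos_le_cos_of_nonneg_of_le_pi (by positivity) ?_ h2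
    have := Real.pi_pos
    linarith
  calc (K : ℝ) / 2 = ∑ _k ∈ range K, (1 : ℝ) / 2 := by
        rw [sum_const, card_range, nsmul_eq_mul]; ring
    _ ≤ _ := sum_le_sum h1

/-- one multiplier -/
theorem one_u (K : ℕ) (S V : Finset (ZMod p)) (u : ZMod p) :
    ∑ s ∈ S, ∑ v ∈ V, ‖gk K (u * v - s)‖ ^ 2 ≤
      ∑ y ∈ range K ×ˢ range K, ‖es V ((((y.1 : ℤ) - y.2 : ℤ) : ZMod p) * u)‖ *
        ‖es S (-(((y.1 : ℤ) - y.2 : ℤ) : ZMod p))‖ := by
  have h1 : ((∑ s ∈ S, ∑ v ∈ V, ‖gk K (u * v - s)‖ ^ 2 : ℝ) : ℂ) =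
      ∑ y ∈ range K ×ˢ range K, es V ((((y.1 : ℤ) - y.2 : ℤ) : ZMod p) * u) *
        es S (-(((y.1 : ℤ) - y.2 : ℤ) : ZMod p)) := by
    have e1 : ((∑ s ∈ S, ∑ v ∈ V, ‖gk K (u * v - s)‖ ^ 2 : ℝ) : ℂ) =
        ∑ s ∈ S, ∑ v ∈ V, ((‖gk K (u * v - s)‖ ^ 2 : ℝ) : ℂ) := by push_cast; rfl
    rw [e1]
    simp only [gk_sq]
    have e2 : ∀ s ∈ S, ∑ v ∈ V, ∑ y ∈ range K ×ˢ range K,
        (ZMod.stdAddChar ((((y.1 : ℤ) - y.2 : ℤ) : ZMod p) * (u * v - s)) : ℂ) =
        ∑ y ∈ range K ×ˢ range K, ∑ v ∈ V,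
        (ZMod.stdAddChar ((((y.1 : ℤ) - y.2 : ℤ) : ZMod p) * (u * v - s)) : ℂ) :=
      fun s _ => sum_comm
    rw [sum_congr rfl e2, sum_comm]
    refine sum_congr rfl fun y _ => ?_
    rw [es, es, sum_mul_sum, sum_comm]
    refine sum_congr rfl fun v _ => sum_congr rfl fun s _ => ?_
    rw [← AddChar.map_add_eq_mul]
    congr 1
    ring
  have h2 : ∑ s ∈ S, ∑ v ∈ V, ‖gk K (u * v - s)‖ ^ 2 =
      ‖((∑ s ∈ S, ∑ v ∈ V, ‖gk K (u * v - s)‖ ^ 2 : ℝ) : ℂ)‖ := by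
    rw [Complex.norm_real, Real.norm_of_nonneg]
    exact sum_nonneg fun _ _ => sum_nonneg fun _ _ => by positivity
  rw [h2, h1]
  refine (norm_sum_le _ _).trans (le_of_eq ?_)
  exact sum_congr rfl fun y _ => norm_mul _ _

/-- sums over differences -/
theorem diff_sum (K : ℕ) (F : ℤ → ℝ) (hF : ∀ d, 0 ≤ F d) :
    ∑ y ∈ range K ×ˢ range K, F ((y.1 : ℤ) - y.2) ≤ K * ∑ d ∈ Finset.Ioo (-(K : ℤ)) K, F d := by
  rw [Finset.sum_product]
  have h1 : ∀ k ∈ range K, ∑ k' ∈ range K, F ((k : ℤ) - k') ≤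
      ∑ d ∈ Finset.Ioo (-(K : ℤ)) K, F d := by
    intro k hk
    have hk1 := mem_range.1 hk
    have e : ∑ k' ∈ range K, F ((k : ℤ) - k') =
        ∑ d ∈ (range K).image (fun k' : ℕ => (k : ℤ) - k'), F d := by
      rw [sum_image]
      intro a _ b _ hab
      have : (k : ℤ) - a = (k : ℤ) - b := hab
      omega
    rw [e]
    refine sum_le_sum_of_subset_of_nonneg ?_ fun d _ _ => hF d
    intro d hd
    obtain ⟨k', hk', rfl⟩ := mem_image.1 hd
    have := mem_range.1 hk'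
    rw [mem_Ioo]
    constructor <;> omega
  calc _ ≤ ∑ _k ∈ range K, ∑ d ∈ Finset.Ioo (-(K : ℤ)) K, F d := sum_le_sum h1
    _ = _ := by rw [sum_const, card_range, nsmul_eq_mul]

theorem int_inj {a b : ℤ} (ha : 2 * |a| < p) (hb : 2 * |b| < p)
    (h : (a : ZMod p) = (b : ZMod p)) : a = b := by
  have h1 := (ZMod.intCast_eq_intCast_iff_dvd_sub a b p).1 h
  have h2 : |b - a| < p := by
    have := abs_sub b a
    linarith
  have h3 := Int.eq_zero_of_abs_lt_dvd h1 h2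
  linarith

/-- the frequencies off zero -/
theorem off_zero (K U T : ℕ) (hKU : 2 * (K * U) ≤ p) (hU : 1 ≤ U)
    (hT : ∀ n : ℕ, 1 ≤ n → n < p → n.divisors.card ≤ T) (S V : Finset (ZMod p)) :
    ∑ d ∈ (Finset.Ioo (-(K : ℤ)) K).erase 0, ∑ u ∈ Finset.Icc 1 U,
      ‖es V ((d : ZMod p) * ((u : ℕ) : ZMod p))‖ * ‖es S (-(d : ZMod p))‖ ≤
      p * Real.sqrt (T * U * V.card * S.card) := by
  classical
  set D := (Finset.Ioo (-(K : ℤ)) K).erase 0 with hD
  have hDm : ∀ d ∈ D, d ≠ 0 ∧ |d| < K := by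
    intro d hd
    obtain ⟨h1, h2⟩ := mem_erase.1 hd
    exact ⟨h1, abs_lt.2 (mem_Ioo.1 h2)⟩
  have hpos : (0 : ℤ) < p := by exact_mod_cast (Fact.out : p.Prime).pos
  rw [← Finset.sum_product']
  have hcs := Finset.sum_mul_sq_le_sq_mul_sq (D ×ˢ Finset.Icc 1 U)
    (fun x : ℤ × ℕ => ‖es V ((x.1 : ZMod p) * ((x.2 : ℕ) : ZMod p))‖)
    (fun x : ℤ × ℕ => ‖es S (-(x.1 : ZMod p))‖)
  have h1 : ∑ x ∈ D ×ˢ Finset.Icc 1 U, ‖es V ((x.1 : ZMod p) * ((x.2 : ℕ) : ZMod p))‖ ^ 2 ≤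
      T * (p * V.card) := by
    have e1 : ∑ x ∈ D ×ˢ Finset.Icc 1 U, ‖es V ((x.1 : ZMod p) * ((x.2 : ℕ) : ZMod p))‖ ^ 2 =
        ∑ η : ZMod p, (((D ×ˢ Finset.Icc 1 U).filter fun x : ℤ × ℕ =>
          (x.1 : ZMod p) * ((x.2 : ℕ) : ZMod p) = η).card : ℝ) * ‖es V η‖ ^ 2 := by
      rw [← sum_fiberwise_of_maps_to (t := (univ : Finset (ZMod p)))
        (g := fun x : ℤ × ℕ => (x.1 : ZMod p) * ((x.2 : ℕ) : ZMod p)) (fun _ _ => mem_univ _)]
      refine sum_congr rfl fun η _ => ?_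
      rw [sum_congr rfl (g := fun _ => ‖es V η‖ ^ 2) (fun x hx => by
        rw [(mem_filter.1 hx).2]), sum_const, nsmul_eq_mul]
    rw [e1]
    have h2 : ∀ η : ZMod p, ((D ×ˢ Finset.Icc 1 U).filter fun x : ℤ × ℕ =>
          (x.1 : ZMod p) * ((x.2 : ℕ) : ZMod p) = η).card ≤ T := by
      intro η
      set F := (D ×ˢ Finset.Icc 1 U).filter fun x : ℤ × ℕ =>
          (x.1 : ZMod p) * ((x.2 : ℕ) : ZMod p) = η with hF
      rcases F.eq_empty_or_nonempty with h | ⟨x₀, hx₀⟩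
      · rw [h, card_empty]; exact Nat.zero_le _
      · have hprop : ∀ x ∈ F, x.1 ≠ 0 ∧ |x.1| < K ∧ 1 ≤ x.2 ∧ x.2 ≤ U ∧
            (x.1 : ZMod p) * ((x.2 : ℕ) : ZMod p) = η := by
          intro x hx
          obtain ⟨h3, h4⟩ := mem_filter.1 hx
          obtain ⟨h5, h6⟩ := mem_product.1 h3
          obtain ⟨h7, h8⟩ := hDm _ h5
          obtain ⟨h9, h10⟩ := Finset.mem_Icc.1 h6
          exact ⟨h7, h8, h9, h10, h4⟩
        have hsz : ∀ x ∈ F, 2 * |x.1 * (x.2 : ℤ)| < p := by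
          intro x hx
          obtain ⟨h7, h8, h9, h10, h4⟩ := hprop x hx
          rw [abs_mul, Nat.abs_cast]
          have h11 : |x.1| * (x.2 : ℤ) < K * U := by
            have h12 : (x.2 : ℤ) ≤ U := by exact_mod_cast h10
            have h13 : (1 : ℤ) ≤ x.2 := by exact_mod_cast h9
            calc |x.1| * (x.2 : ℤ) < K * (x.2 : ℤ) := mul_lt_mul_of_pos_right h8 (by linarith)
              _ ≤ K * U := mul_le_mul_of_nonneg_left h12 (by positivity)
          have h14 : (2 : ℤ) * (K * U) ≤ p := by exact_mod_cast hKU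
          linarith
        have heq : ∀ x ∈ F, x.1 * (x.2 : ℤ) = x₀.1 * (x₀.2 : ℤ) := by
          intro x hx
          refine int_inj (hsz x hx) (hsz x₀ hx₀) ?_
          have h3 := (hprop x hx).2.2.2.2
          have h4 := (hprop x₀ hx₀).2.2.2.2
          push_cast
          rw [h3, h4]
        set n : ℕ := (x₀.1 * (x₀.2 : ℤ)).natAbs with hn
        have hn1 : 1 ≤ n := by
          obtain ⟨h7, h8, h9, h10, h4⟩ := hprop x₀ hx₀
          rw [hn, Nat.one_le_iff_ne_zero, Int.natAbs_ne_zero]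
          refine mul_ne_zero h7 ?_
          have : (1 : ℤ) ≤ x₀.2 := by exact_mod_cast h9
          omega
        have hnp : n < p := by
          have h3 := hsz x₀ hx₀
          have h4 : (n : ℤ) = |x₀.1 * (x₀.2 : ℤ)| := by rw [hn, Int.natCast_natAbs]
          omega
        refine le_trans ?_ (hT n hn1 hnp)
        refine card_le_card_of_injOn (fun x => x.2) ?_ ?_
        · intro x hx
          have h3 := heq x (mem_coe.1 hx)
          refine mem_coe.2 (Nat.mem_divisors.2 ⟨?_, by omega⟩)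
          show x.2 ∣ n
          rw [hn, ← h3, Int.natAbs_mul, Int.natAbs_natCast]
          exact Dvd.intro_left _ rfl
        · intro x hx y hy hxy
          have h3 := heq x (mem_coe.1 hx)
          have h4 := heq y (mem_coe.1 hy)
          have h5 : x.2 = y.2 := hxy
          have h6 := (hprop x (mem_coe.1 hx)).2.2.1
          rw [← h4, ← h5] at h3
          refine Prod.ext ?_ h5
          have h7 : (x.2 : ℤ) ≠ 0 := by
            have : (1 : ℤ) ≤ x.2 := by exact_mod_cast h6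
            omega
          exact mul_right_cancel₀ h7 h3
    calc _ ≤ ∑ η : ZMod p, (T : ℝ) * ‖es V η‖ ^ 2 := by
          refine sum_le_sum fun η _ => mul_le_mul_of_nonneg_right ?_ (by positivity)
          exact_mod_cast h2 η
      _ = _ := by rw [← mul_sum, es_parseval]
  have h2 : ∑ x ∈ D ×ˢ Finset.Icc 1 U, ‖es S (-(x.1 : ZMod p))‖ ^ 2 ≤ U * (p * S.card) := by
    rw [Finset.sum_product]
    have e1 : ∀ d ∈ D, ∑ _u ∈ Finset.Icc 1 U, ‖es S (-(d : ZMod p))‖ ^ 2 =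
        U * ‖es S (-(d : ZMod p))‖ ^ 2 := by
      intro d _
      rw [sum_const, Nat.card_Icc, Nat.add_sub_cancel, nsmul_eq_mul]
    rw [sum_congr rfl e1, ← mul_sum]
    refine mul_le_mul_of_nonneg_left ?_ (Nat.cast_nonneg _)
    rw [← es_parseval]
    have e2 : ∑ d ∈ D, ‖es S (-(d : ZMod p))‖ ^ 2 =
        ∑ ξ ∈ D.image (fun d : ℤ => -(d : ZMod p)), ‖es S ξ‖ ^ 2 := by
      rw [sum_image]
      intro a ha b hb hab
      have h3 := neg_inj.1 hab
      have hK : ∀ d ∈ D, 2 * |d| < p := by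
        intro d hd
        have h4 := (hDm d hd).2
        have h5 : 2 * (K * 1) ≤ 2 * (K * U) := by gcongr
        have h6 : (2 : ℤ) * K ≤ p := by
          have : 2 * K ≤ p := by omega
          exact_mod_cast this
        linarith
      exact int_inj (hK a (mem_coe.1 ha)) (hK b (mem_coe.1 hb)) h3
    rw [e2]
    exact sum_le_sum_of_subset_of_nonneg (subset_univ _) fun _ _ _ => by positivity
  have h3 : (∑ x ∈ D ×ˢ Finset.Icc 1 U, ‖es V ((x.1 : ZMod p) * ((x.2 : ℕ) : ZMod p))‖ *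
      ‖es S (-(x.1 : ZMod p))‖) ^ 2 ≤ (p : ℝ) ^ 2 * (T * U * V.card * S.card) := by
    refine hcs.trans ?_
    calc _ ≤ (T * (p * (V.card : ℝ))) * (U * (p * (S.card : ℝ))) :=
          mul_le_mul h1 h2 (sum_nonneg fun _ _ => by positivity) (by positivity)
      _ = _ := by ring
  have h4 := Real.sqrt_le_sqrt h3
  rw [Real.sqrt_sq (sum_nonneg fun _ _ => by positivity), Real.sqrt_mul (by positivity),
    Real.sqrt_sq (by positivity)] at h4
  exact h4

open Classical in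
/-- the main count -/
theorem rich_sum (W U K T : ℕ) (hK : 1 ≤ K) (hKW : 6 * K * W ≤ p) (hU : 1 ≤ U) (hUW : U ≤ W)
    (hT : ∀ n : ℕ, 1 ≤ n → n < p → n.divisors.card ≤ T) (S V : Finset (ZMod p)) :
    ∑ s ∈ S, (((range W ×ˢ Finset.Icc 1 U).filter fun r : ℕ × ℕ =>
      (s + (r.1 : ZMod p)) / (r.2 : ZMod p) ∈ V).card : ℝ) ≤
      4 / K * (U * V.card * S.card + p * Real.sqrt (T * U * V.card * S.card)) := by
  have hK0 : (0 : ℝ) < K := by exact_mod_cast hK
  have hWp : W < p := by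
    have h1 : 6 * 1 * W ≤ 6 * K * W := by gcongr
    omega
  have hKU : 2 * (K * U) ≤ p := by
    have h1 : K * U ≤ K * W := Nat.mul_le_mul_left _ hUW
    have h2 : 6 * K * W = 6 * (K * W) := by ring
    omega
  -- one element
  have h1 : ∀ s ∈ S, (((range W ×ˢ Finset.Icc 1 U).filter fun r : ℕ × ℕ =>
      (s + (r.1 : ZMod p)) / (r.2 : ZMod p) ∈ V).card : ℝ) ≤
      4 / (K : ℝ) ^ 2 * ∑ u ∈ Finset.Icc 1 U, ∑ v ∈ V, ‖gk K (((u : ℕ) : ZMod p) * v - s)‖ ^ 2 := by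
    intro s _
    set F := (range W ×ˢ Finset.Icc 1 U).filter fun r : ℕ × ℕ =>
      (s + (r.1 : ZMod p)) / (r.2 : ZMod p) ∈ V with hF
    have hprop : ∀ r ∈ F, r.1 < W ∧ 1 ≤ r.2 ∧ r.2 ≤ U ∧ (s + (r.1 : ZMod p)) / (r.2 : ZMod p) ∈ V ∧
        (r.2 : ZMod p) ≠ 0 := by
      intro r hr
      obtain ⟨h3, h4⟩ := mem_filter.1 hr
      obtain ⟨h5, h6⟩ := mem_product.1 h3
      obtain ⟨h9, h10⟩ := Finset.mem_Icc.1 h6
      refine ⟨mem_range.1 h5, h9, h10, h4, ?_⟩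
      intro h
      have h7 := (ZMod.natCast_eq_zero_iff r.2 p).1 h
      have h8 := Nat.le_of_dvd h9 h7
      omega
    have h2 : F.card ≤ ((Finset.Icc 1 U ×ˢ V).filter fun x : ℕ × ZMod p =>
        ∃ w : ℕ, w < W ∧ ((x.1 : ℕ) : ZMod p) * x.2 - s = (w : ZMod p)).card := by
      refine card_le_card_of_injOn
        (fun r => (r.2, (s + (r.1 : ZMod p)) / (r.2 : ZMod p))) ?_ ?_
      · intro r hr
        obtain ⟨g1, g2, g3, g4, g5⟩ := hprop r (mem_coe.1 hr)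
        refine mem_coe.2 (mem_filter.2 ⟨mem_product.2 ⟨Finset.mem_Icc.2 ⟨g2, g3⟩, g4⟩, r.1, g1, ?_⟩)
        show (r.2 : ZMod p) * ((s + (r.1 : ZMod p)) / (r.2 : ZMod p)) - s = (r.1 : ZMod p)
        field_simp
        ring
      · intro r hr r' hr' h
        obtain ⟨g1, g2, g3, g4, g5⟩ := hprop r (mem_coe.1 hr)
        obtain ⟨g1', g2', g3', g4', g5'⟩ := hprop r' (mem_coe.1 hr')
        have e1 : r.2 = r'.2 := (Prod.ext_iff.1 h).1
        have e2 : (s + (r.1 : ZMod p)) / (r.2 : ZMod p) = (s + (r'.1 : ZMod p)) / (r'.2 : ZMod p) :=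
          (Prod.ext_iff.1 h).2
        rw [← e1, div_left_inj' g5] at e2
        have e3 := add_left_cancel e2
        have e4 := (ZMod.natCast_eq_natCast_iff' r.1 r'.1 p).1 e3
        rw [Nat.mod_eq_of_lt (g1.trans hWp), Nat.mod_eq_of_lt (g1'.trans hWp)] at e4
        exact Prod.ext e4 e1
    have h3 : (F.card : ℝ) ≤ ∑ x ∈ Finset.Icc 1 U ×ˢ V,
        4 / (K : ℝ) ^ 2 * ‖gk K (((x.1 : ℕ) : ZMod p) * x.2 - s)‖ ^ 2 := by
      calc (F.card : ℝ) ≤ (((Finset.Icc 1 U ×ˢ V).filter fun x : ℕ × ZMod p =>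
            ∃ w : ℕ, w < W ∧ ((x.1 : ℕ) : ZMod p) * x.2 - s = (w : ZMod p)).card : ℝ) := by
            exact_mod_cast h2
        _ = ∑ x ∈ (Finset.Icc 1 U ×ˢ V).filter (fun x : ℕ × ZMod p =>
            ∃ w : ℕ, w < W ∧ ((x.1 : ℕ) : ZMod p) * x.2 - s = (w : ZMod p)), (1 : ℝ) := by
            rw [sum_const, nsmul_eq_mul, mul_one]
        _ ≤ ∑ x ∈ (Finset.Icc 1 U ×ˢ V).filter (fun x : ℕ × ZMod p =>
            ∃ w : ℕ, w < W ∧ ((x.1 : ℕ) : ZMod p) * x.2 - s = (w : ZMod p)),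
            4 / (K : ℝ) ^ 2 * ‖gk K (((x.1 : ℕ) : ZMod p) * x.2 - s)‖ ^ 2 := by
            refine sum_le_sum fun x hx => ?_
            obtain ⟨w, hw, e⟩ := (mem_filter.1 hx).2
            rw [e]
            have h4 := gk_lower K W w hw hKW
            have h5 : ((K : ℝ) / 2) ^ 2 ≤ ‖gk K ((w : ℕ) : ZMod p)‖ ^ 2 :=
              pow_le_pow_left₀ (by positivity) h4 2
            calc (1 : ℝ) = 4 / (K : ℝ) ^ 2 * ((K : ℝ) / 2) ^ 2 := by field_simp; ring
              _ ≤ _ := mul_le_mul_of_nonneg_left h5 (by positivity)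
        _ ≤ _ := sum_le_sum_of_subset_of_nonneg (filter_subset _ _) fun _ _ _ => by positivity
    refine h3.trans (le_of_eq ?_)
    rw [Finset.sum_product, mul_sum]
    refine sum_congr rfl fun u _ => ?_
    rw [mul_sum]
  have h2 : ∑ s ∈ S, (((range W ×ˢ Finset.Icc 1 U).filter fun r : ℕ × ℕ =>
      (s + (r.1 : ZMod p)) / (r.2 : ZMod p) ∈ V).card : ℝ) ≤
      4 / (K : ℝ) ^ 2 * ∑ u ∈ Finset.Icc 1 U, ∑ s ∈ S, ∑ v ∈ V,
        ‖gk K (((u : ℕ) : ZMod p) * v - s)‖ ^ 2 := by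
    refine (sum_le_sum h1).trans (le_of_eq ?_)
    rw [← mul_sum, sum_comm]
  have h3 : ∑ u ∈ Finset.Icc 1 U, ∑ s ∈ S, ∑ v ∈ V, ‖gk K (((u : ℕ) : ZMod p) * v - s)‖ ^ 2 ≤
      K * ∑ d ∈ Finset.Ioo (-(K : ℤ)) K, ∑ u ∈ Finset.Icc 1 U,
        ‖es V ((d : ZMod p) * ((u : ℕ) : ZMod p))‖ * ‖es S (-(d : ZMod p))‖ := by
    refine (sum_le_sum fun u _ => one_u K S V ((u : ℕ) : ZMod p)).trans ?_
    rw [sum_comm]
    exact diff_sum K (fun d : ℤ => ∑ u ∈ Finset.Icc 1 U,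
        ‖es V ((d : ZMod p) * ((u : ℕ) : ZMod p))‖ * ‖es S (-(d : ZMod p))‖)
      (fun d => sum_nonneg fun _ _ => by positivity)
  have h4 : ∑ d ∈ Finset.Ioo (-(K : ℤ)) K, ∑ u ∈ Finset.Icc 1 U,
        ‖es V ((d : ZMod p) * ((u : ℕ) : ZMod p))‖ * ‖es S (-(d : ZMod p))‖ ≤
      U * V.card * S.card + p * Real.sqrt (T * U * V.card * S.card) := by
    have h0 : (0 : ℤ) ∈ Finset.Ioo (-(K : ℤ)) K := by
      rw [mem_Ioo]
      constructor <;> omega
    rw [← add_sum_erase _ _ h0]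
    refine add_le_add (le_of_eq ?_) (off_zero K U T hKU hU hT S V)
    simp only [Int.cast_zero, zero_mul, neg_zero, es_zero, Complex.norm_natCast, sum_const,
      Nat.card_Icc, Nat.add_sub_cancel, nsmul_eq_mul]
    ring
  calc _ ≤ _ := h2
    _ ≤ 4 / (K : ℝ) ^ 2 * (K * (U * V.card * S.card +
        p * Real.sqrt (T * U * V.card * S.card))) :=
        mul_le_mul_of_nonneg_left (h3.trans (mul_le_mul_of_nonneg_left h4 hK0.le)) (by positivity)
    _ = _ := by field_simp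

end Pool.Agent.Y881.BI
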