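import Pool.Agent.Y881.DS.ThickFin
import Pool.Agent.Y881.BI.Rich

set_option autoImplicit false
set_option linter.unusedSectionVars false

/-! # Sets nearly invariant under progressions: general kernels, with the sharp size of the set of
exceptional sums -/

open Finset
open scoped Pointwise

namespace Pool.Agent.Y881.BI

open Pool.Agent.Y881.SP Pool.Agent.TH7.PG Pool.Agent.Y881.DS

open Classical in
/-- at most `C p^ε |V| / (θ² U)` numbers `s` are sent into `V` by more than `θ W U` of the maps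
`s ↦ (w + s) / u`, `0 ≤ w < W`, `1 ≤ u ≤ U ≤ W` -/
theorem rich_few2 (ε : ℝ) (hε : 0 < ε) : ∃ C : ℝ, 0 < C ∧ ∀ (p : ℕ) [Fact p.Prime] (W U : ℕ),
    1 ≤ U → U ≤ W → 6 * W ≤ p → ∀ (V : Finset (ZMod p)) (θ : ℝ), 0 < θ →
      96 * (V.card : ℝ) ≤ θ * p →
      (((univ : Finset (ZMod p)).filter fun s => θ * ((W : ℝ) * U) <
        (((((range W).image fun n : ℕ => (n : ZMod p)) ×ˢ
          ((Finset.Icc 1 U).image fun n : ℕ => (n : ZMod p))).filter
            fun r => (r.1 + s) / r.2 ∈ V).card : ℝ)).card : ℝ) ≤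
        C * (p : ℝ) ^ ε * V.card / (θ ^ 2 * U) := by
  obtain ⟨C, hC, hdiv⟩ := Pool.Agent.Helper112.divisor_bound ε hε
  refine ⟨9216 * C, by positivity, fun p _ W U hU hUW hWp V θ hθ hV => ?_⟩
  have hp0 : (0 : ℝ) < p := by exact_mod_cast (Fact.out : p.Prime).pos
  have hU0 : (0 : ℝ) < U := by exact_mod_cast hU
  have hW0 : (0 : ℝ) < W := by exact_mod_cast (lt_of_lt_of_le hU hUW)
  have hW1 : 0 < 6 * W := by omega
  set K : ℕ := p / (6 * W) with hK
  have hK1 : 1 ≤ K := (Nat.one_le_div_iff hW1).2 hWp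
  have hK0 : (0 : ℝ) < K := by exact_mod_cast hK1
  have hKW : 6 * K * W ≤ p := by
    calc 6 * K * W = p / (6 * W) * (6 * W) := by rw [hK]; ring
      _ ≤ p := Nat.div_mul_le_self _ _
  have hKp : 4 / (K : ℝ) ≤ 48 * W / p := by
    have h1 : p < 6 * W * (K + 1) := by
      have := Nat.lt_mul_div_succ p hW1
      rwa [hK]
    have h2 : p ≤ 12 * W * K := by
      have h3 : K + 1 ≤ 2 * K := by omega
      calc p ≤ 6 * W * (K + 1) := h1.le
        _ ≤ 6 * W * (2 * K) := Nat.mul_le_mul_left _ h3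
        _ = _ := by ring
    rw [div_le_div_iff₀ hK0 hp0]
    have h3 : (p : ℝ) ≤ 12 * W * K := by exact_mod_cast h2
    linarith
  set T : ℕ := ⌊C * (p : ℝ) ^ ε⌋₊ with hT
  have hT1 : ∀ n : ℕ, 1 ≤ n → n < p → n.divisors.card ≤ T := by
    intro n hn hnp
    rw [hT]
    refine Nat.le_floor ((hdiv n hn).trans (mul_le_mul_of_nonneg_left ?_ hC.le))
    exact Real.rpow_le_rpow (Nat.cast_nonneg _) (by exact_mod_cast hnp.le) hε.le
  have hT2 : (T : ℝ) ≤ C * (p : ℝ) ^ ε := Nat.floor_le (by positivity)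
  set S := (univ : Finset (ZMod p)).filter fun s => θ * ((W : ℝ) * U) <
        (((((range W).image fun n : ℕ => (n : ZMod p)) ×ˢ
          ((Finset.Icc 1 U).image fun n : ℕ => (n : ZMod p))).filter
            fun r => (r.1 + s) / r.2 ∈ V).card : ℝ) with hS
  have hmain := rich_sum W U K T hK1 hKW hU hUW hT1 S V
  have hlow : (S.card : ℝ) * (θ * (W * U)) ≤
      ∑ s ∈ S, (((range W ×ˢ Finset.Icc 1 U).filter fun r : ℕ × ℕ =>
        (s + (r.1 : ZMod p)) / (r.2 : ZMod p) ∈ V).card : ℝ) := by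
    rw [← nsmul_eq_mul, ← sum_const]
    refine sum_le_sum fun s hs => (mem_filter.1 hs).2.le.trans ?_
    have h1 : ((((range W).image fun n : ℕ => (n : ZMod p)) ×ˢ
          ((Finset.Icc 1 U).image fun n : ℕ => (n : ZMod p))).filter
            fun r => (r.1 + s) / r.2 ∈ V) ⊆
        ((range W ×ˢ Finset.Icc 1 U).filter fun r : ℕ × ℕ =>
        (s + (r.1 : ZMod p)) / (r.2 : ZMod p) ∈ V).image
          fun r : ℕ × ℕ => ((r.1 : ZMod p), (r.2 : ZMod p)) := by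
      intro r hr
      obtain ⟨h2, h3⟩ := mem_filter.1 hr
      obtain ⟨h4, h5⟩ := mem_product.1 h2
      obtain ⟨a, ha, ha2⟩ := mem_image.1 h4
      obtain ⟨b, hb, hb2⟩ := mem_image.1 h5
      refine mem_image.2 ⟨(a, b), mem_filter.2 ⟨mem_product.2 ⟨ha, hb⟩, ?_⟩, ?_⟩
      · show (s + (a : ZMod p)) / (b : ZMod p) ∈ V
        rw [ha2, hb2, add_comm]
        exact h3
      · exact Prod.ext ha2 hb2
    exact_mod_cast (card_le_card h1).trans card_image_le
  have h1 : (S.card : ℝ) * (θ * (W * U)) ≤ 48 * W / p * (U * V.card * S.card +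
      p * Real.sqrt (T * U * V.card * S.card)) :=
    hlow.trans (hmain.trans (mul_le_mul_of_nonneg_right hKp (by positivity)))
  -- cancel `W`
  have h2 : (S.card : ℝ) * (θ * U) ≤ 48 / p * (U * V.card * S.card) +
      48 * Real.sqrt (T * U * V.card * S.card) := by
    have e : 48 * W / p * (U * V.card * S.card + p * Real.sqrt (T * U * V.card * S.card)) =
        (48 / p * (U * V.card * S.card) + 48 * Real.sqrt (T * U * V.card * S.card)) * W := by
      field_simp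
    rw [e] at h1
    refine le_of_mul_le_mul_right ?_ hW0
    calc _ = (S.card : ℝ) * (θ * (W * U)) := by ring
      _ ≤ _ := h1
  have h3 : 48 / (p : ℝ) * (U * V.card * S.card) ≤ (S.card : ℝ) * (θ * U) / 2 := by
    rw [div_mul_eq_mul_div, div_le_iff₀ hp0]
    have h4 : 96 * (V.card : ℝ) * (U * S.card) ≤ θ * p * (U * S.card) :=
      mul_le_mul_of_nonneg_right hV (by positivity)
    nlinarith
  have h4 : (S.card : ℝ) * (θ * U) ≤ 96 * Real.sqrt (T * U * V.card * S.card) := by linarith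
  have h5 : ((S.card : ℝ) * (θ * U)) ^ 2 ≤ 9216 * (T * U * V.card * S.card) := by
    calc ((S.card : ℝ) * (θ * U)) ^ 2 ≤ (96 * Real.sqrt (T * U * V.card * S.card)) ^ 2 :=
          pow_le_pow_left₀ (by positivity) h4 2
      _ = _ := by
          rw [mul_pow, Real.sq_sqrt (by positivity)]
          norm_num
  rcases S.card.eq_zero_or_pos with h0 | h0
  · rw [h0, Nat.cast_zero]
    positivity
  · have hS0 : (0 : ℝ) < S.card := by exact_mod_cast h0
    rw [le_div_iff₀ (by positivity)]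
    have h6 : (S.card : ℝ) * (θ ^ 2 * U) * (S.card * U) ≤
        (9216 * C * (p : ℝ) ^ ε * V.card) * (S.card * U) := by
      calc (S.card : ℝ) * (θ ^ 2 * U) * (S.card * U) = ((S.card : ℝ) * (θ * U)) ^ 2 := by ring
        _ ≤ 9216 * ((T : ℝ) * U * V.card * S.card) := h5
        _ = (9216 : ℝ) * T * (V.card * (S.card * U)) := by ring
        _ ≤ 9216 * (C * (p : ℝ) ^ ε) * (V.card * (S.card * U)) :=
            mul_le_mul_of_nonneg_right (by linarith) (by positivity)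
        _ = _ := by ring
    exact le_of_mul_le_mul_right h6 (by positivity)

section
variable {p : ℕ} [Fact p.Prime]

/-- the bound for one shift -/
def KrBd (Kr : ZMod p → ZMod p → ℂ) (L : ℕ) (z z' : ZMod p) (X : Finset (ZMod p)) (R : ℝ) : Prop :=
  ∀ u : ZMod p, u ≠ 0 → ∀ A₁ B₁ U U' : Finset (ZMod p),
    (∀ a ∈ A₁, ∀ i : Fin L, a - ((i : ℕ) : ZMod p) * (u * z) ∈ U) →
    (∀ b ∈ B₁, ∀ j : Fin L, b - ((j : ℕ) : ZMod p) * (u * z') ∈ U') →
    ∀ f g : ZMod p → ℂ, (∀ x, ‖f x‖ ≤ 1) → (∀ x, ‖g x‖ ≤ 1) →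
      ‖∑ a ∈ A₁, ∑ b ∈ B₁, f a * g b * Kr a b‖ ≤
        R * ((U.card : ℝ) * U'.card) +
        (((U ×ˢ U').filter fun t => (t.1 + t.2) / (u * z) ∈ X).card : ℝ)

open Classical in
/-- the bilinear form after shifting by multiples of `z` and `z'` -/
theorem shifted_ker (Kr : ZMod p → ZMod p → ℂ) (L U W : ℕ) (z z' : ZMod p) (hz : z ≠ 0)
    (X : Finset (ZMod p)) (R : ℝ) (hR0 : 0 ≤ R) (hsb : KrBd Kr L z z' X R)
    (A₁ B₁ Aw T : Finset (ZMod p))
    (hAw : ∀ w ∈ Aw, ∃ n : ℕ, n < W ∧ (n : ZMod p) = w)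
    (hT : ∀ u ∈ T, u ≠ 0 ∧ ∃ n : ℕ, n ≤ U ∧ (n : ZMod p) = u)
    (hAw0 : Aw.Nonempty) (hT0 : T.Nonempty) (θ : ℝ) (hθ : 0 ≤ θ)
    (f g : ZMod p → ℂ) (hf : ∀ x, ‖f x‖ ≤ 1) (hg : ∀ x, ‖g x‖ ≤ 1) :
    ‖∑ a ∈ A₁, ∑ b ∈ B₁, f a * g b * Kr a b‖ ≤
      (R + θ) *
        (((dn A₁ (L * U + W) z).card : ℝ) * (dn B₁ (L * U + W) z').card) +
      ((((dn A₁ (L * U + W) z) ×ˢ (dn B₁ (L * U + W) z')).filter fun t => t.1 + t.2 ∈
        (((univ : Finset (ZMod p)).filter fun s => θ * (Aw.card * T.card) <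
          (((Aw ×ˢ T).filter fun r => (r.1 + s) / r.2 ∈ X).card : ℝ)).image
            fun s => s * z)).card : ℝ) := by
  set l := L * U + W with hl
  set DA := dn A₁ l z with hDA
  set DB := dn B₁ l z' with hDB
  set W₀ := (univ : Finset (ZMod p)).filter fun s => θ * (Aw.card * T.card) <
          (((Aw ×ˢ T).filter fun r => (r.1 + s) / r.2 ∈ X).card : ℝ) with hW₀
  set S := ‖∑ a ∈ A₁, ∑ b ∈ B₁, f a * g b * Kr a b‖ with hS
  have hAwc : (0 : ℝ) < Aw.card := by exact_mod_cast card_pos.2 hAw0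
  have hTc : (0 : ℝ) < T.card := by exact_mod_cast card_pos.2 hT0
  -- one shift
  have h1 : ∀ r ∈ Aw ×ˢ T, S ≤ R * ((DA.card : ℝ) * DB.card) +
      (((DA ×ˢ DB).filter fun t => (r.1 + (t.1 + t.2) / z) / r.2 ∈ X).card : ℝ) := by
    intro r hr
    obtain ⟨w, hwW, hw⟩ := hAw r.1 (mem_product.1 hr).1
    obtain ⟨hu0, u, huU, hu⟩ := hT r.2 (mem_product.1 hr).2
    have hu1 : 1 ≤ u := by
      rcases Nat.eq_zero_or_pos u with h | h
      · rw [h, Nat.cast_zero] at hu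
        exact absurd hu.symm hu0
      · exact h
    have hmem : ∀ (C : Finset (ZMod p)) (y : ZMod p), ∀ a ∈ C, ∀ i : Fin L,
        a - ((i : ℕ) : ZMod p) * (r.2 * y) ∈ dn C (L * U) y := by
      intro C y a ha i
      have e : ((i : ℕ) : ZMod p) * (r.2 * y) = (((i : ℕ) * u : ℕ) : ZMod p) * y := by
        rw [← hu]
        push_cast
        ring
      rw [e]
      refine mem_dn C _ y a ha _ ?_
      calc (i : ℕ) * u < L * u := Nat.mul_lt_mul_of_pos_right i.2 hu1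
        _ ≤ L * U := Nat.mul_le_mul_left _ huU
    have h2 := hsb r.2 hu0 A₁ B₁
      (dn A₁ (L * U) z) (dn B₁ (L * U) z') (hmem A₁ z) (hmem B₁ z') f g hf hg
    refine h2.trans (add_le_add ?_ ?_)
    · refine mul_le_mul_of_nonneg_left ?_ hR0
      refine mul_le_mul ?_ ?_ (Nat.cast_nonneg _) (Nat.cast_nonneg _)
      · exact_mod_cast card_le_card (dn_mono A₁ (by omega) z)
      · exact_mod_cast card_le_card (dn_mono B₁ (by omega) z')
    · have h3 : (((dn A₁ (L * U) z) ×ˢ (dn B₁ (L * U) z')).filter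
          fun t => (t.1 + t.2) / (r.2 * z) ∈ X).card ≤
          ((DA ×ˢ DB).filter fun t => (r.1 + (t.1 + t.2) / z) / r.2 ∈ X).card := by
        refine card_le_card_of_injOn (fun t => (t.1 - r.1 * z, t.2)) ?_ ?_
        · intro t ht
          have h4 := mem_filter.1 (mem_coe.1 ht)
          have h5 := mem_product.1 h4.1
          refine mem_coe.2 (mem_filter.2 ⟨mem_product.2 ⟨?_, dn_mono B₁ (by omega) z' h5.2⟩, ?_⟩)
          · obtain ⟨v, hv, hv2⟩ := mem_image.1 h5.1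
            show t.1 - r.1 * z ∈ DA
            have e : t.1 - r.1 * z = v.1 - (((v.2 : ℕ) + w : ℕ) : ZMod p) * z := by
              rw [← hv2, ← hw]
              push_cast
              ring
            rw [e]
            refine mem_dn A₁ _ z v.1 (mem_product.1 hv).1 _ ?_
            have := v.2.2
            omega
          · show (r.1 + (t.1 - r.1 * z + t.2) / z) / r.2 ∈ X
            have e : (r.1 + (t.1 - r.1 * z + t.2) / z) / r.2 = (t.1 + t.2) / (r.2 * z) := by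
              field_simp
              ring
            rw [e]
            exact h4.2
        · intro a _ b _ hab
          have h4 := Prod.ext_iff.1 hab
          exact Prod.ext (sub_left_inj.1 h4.1) h4.2
      exact_mod_cast h3
  -- sum over the shifts
  have h2 : ((Aw.card : ℝ) * T.card) * S ≤ ((Aw.card : ℝ) * T.card) *
      (R * ((DA.card : ℝ) * DB.card)) + ∑ r ∈ Aw ×ˢ T,
      (((DA ×ˢ DB).filter fun t => (r.1 + (t.1 + t.2) / z) / r.2 ∈ X).card : ℝ) := by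
    have e : ((Aw ×ˢ T).card : ℝ) = (Aw.card : ℝ) * T.card := by
      rw [card_product]; push_cast; rfl
    calc ((Aw.card : ℝ) * T.card) * S = ∑ _r ∈ Aw ×ˢ T, S := by
          rw [sum_const, nsmul_eq_mul, e]
      _ ≤ ∑ r ∈ Aw ×ˢ T, (R * ((DA.card : ℝ) * DB.card) +
          (((DA ×ˢ DB).filter fun t => (r.1 + (t.1 + t.2) / z) / r.2 ∈ X).card : ℝ)) :=
          sum_le_sum h1
      _ = _ := by rw [sum_add_distrib, sum_const, nsmul_eq_mul, e]
  have h3 : ∑ r ∈ Aw ×ˢ T,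
      (((DA ×ˢ DB).filter fun t => (r.1 + (t.1 + t.2) / z) / r.2 ∈ X).card : ℝ) =
      ∑ t ∈ DA ×ˢ DB,
        (((Aw ×ˢ T).filter fun r => (r.1 + (t.1 + t.2) / z) / r.2 ∈ X).card : ℝ) := by
    simp only [card_filter]
    push_cast
    rw [sum_comm]
  have h4 : ∀ t ∈ DA ×ˢ DB,
      (((Aw ×ˢ T).filter fun r => (r.1 + (t.1 + t.2) / z) / r.2 ∈ X).card : ℝ) ≤
      ((Aw.card : ℝ) * T.card) * (θ + if t.1 + t.2 ∈ W₀.image (fun s => s * z) then 1 else 0) := by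
    intro t _
    by_cases ht : t.1 + t.2 ∈ W₀.image (fun s => s * z)
    · rw [if_pos ht]
      have h5 : ((Aw ×ˢ T).filter fun r => (r.1 + (t.1 + t.2) / z) / r.2 ∈ X).card ≤
          (Aw ×ˢ T).card := card_filter_le _ _
      rw [card_product] at h5
      have h6 : (((Aw ×ˢ T).filter fun r => (r.1 + (t.1 + t.2) / z) / r.2 ∈ X).card : ℝ) ≤
          (Aw.card : ℝ) * T.card := by exact_mod_cast h5
      nlinarith [mul_pos hAwc hTc]
    · rw [if_neg ht, add_zero]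
      by_contra hcon
      have hcon := not_le.1 hcon
      refine ht (mem_image.2 ⟨(t.1 + t.2) / z, mem_filter.2 ⟨mem_univ _, ?_⟩,
        div_mul_cancel₀ _ hz⟩)
      linarith
  have h5 : ∑ t ∈ DA ×ˢ DB,
        (((Aw ×ˢ T).filter fun r => (r.1 + (t.1 + t.2) / z) / r.2 ∈ X).card : ℝ) ≤
      ((Aw.card : ℝ) * T.card) * (θ * ((DA.card : ℝ) * DB.card) +
        (((DA ×ˢ DB).filter fun t => t.1 + t.2 ∈ W₀.image fun s => s * z).card : ℝ)) := by
    refine (sum_le_sum h4).trans (le_of_eq ?_)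
    rw [← mul_sum, sum_add_distrib, sum_const, nsmul_eq_mul, sum_boole, card_product]
    push_cast
    ring
  rw [h3] at h2
  have h6 : ((Aw.card : ℝ) * T.card) * S ≤ ((Aw.card : ℝ) * T.card) *
      ((R + θ) * ((DA.card : ℝ) * DB.card) +
        (((DA ×ˢ DB).filter fun t => t.1 + t.2 ∈ W₀.image fun s => s * z).card : ℝ)) := by
    calc _ ≤ _ := h2
      _ ≤ _ := add_le_add le_rfl h5
      _ = _ := by ring
  exact le_of_mul_le_mul_left h6 (mul_pos hAwc hTc)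

open Classical in
/-- leaving out small parts of the two sets -/
theorem restrict_ker (Kr : ZMod p → ZMod p → ℂ) (hk : ∀ x y, ‖Kr x y‖ ≤ 1) (A B A₁ B₁ : Finset (ZMod p))
    (hA : A₁ ⊆ A) (hB : B₁ ⊆ B) (f g : ZMod p → ℂ) (hf : ∀ x, ‖f x‖ ≤ 1) (hg : ∀ x, ‖g x‖ ≤ 1) :
    ‖∑ a ∈ A, ∑ b ∈ B, f a * g b * Kr a b‖ ≤
      ‖∑ a ∈ A₁, ∑ b ∈ B₁, f a * g b * Kr a b‖ + ((A \ A₁).card : ℝ) * B.card +
        (A.card : ℝ) * (B \ B₁).card := by
  have hone : ∀ a b : ZMod p, ‖f a * g b * Kr a b‖ ≤ 1 := by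
    intro a b
    rw [norm_mul, norm_mul]
    exact mul_le_one₀ (mul_le_one₀ (hf a) (norm_nonneg _) (hg b)) (norm_nonneg _)
      (hk _ _)
  have hbd : ∀ X Y : Finset (ZMod p), ‖∑ a ∈ X, ∑ b ∈ Y, f a * g b * Kr a b‖ ≤
      (X.card : ℝ) * Y.card := by
    intro X Y
    refine (norm_sum_le _ _).trans ?_
    calc ∑ a ∈ X, ‖∑ b ∈ Y, f a * g b * Kr a b‖ ≤ ∑ _a ∈ X, (Y.card : ℝ) := by
          refine sum_le_sum fun a _ => (norm_sum_le _ _).trans ?_
          calc ∑ b ∈ Y, ‖f a * g b * Kr a b‖ ≤ ∑ _b ∈ Y, (1 : ℝ) :=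
                sum_le_sum fun b _ => hone a b
            _ = Y.card := by simp
      _ = _ := by rw [sum_const, nsmul_eq_mul]
  have e1 : ∑ a ∈ A, ∑ b ∈ B, f a * g b * Kr a b =
      ∑ a ∈ A \ A₁, ∑ b ∈ B, f a * g b * Kr a b +
        (∑ a ∈ A₁, ∑ b ∈ B \ B₁, f a * g b * Kr a b +
          ∑ a ∈ A₁, ∑ b ∈ B₁, f a * g b * Kr a b) := by
    rw [← sum_add_distrib, ← sum_sdiff hA]
    congr 1
    refine sum_congr rfl fun a _ => ?_
    rw [sum_sdiff hB]
  rw [e1]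
  have h1 := norm_add_le (∑ a ∈ A \ A₁, ∑ b ∈ B, f a * g b * Kr a b)
    (∑ a ∈ A₁, ∑ b ∈ B \ B₁, f a * g b * Kr a b +
          ∑ a ∈ A₁, ∑ b ∈ B₁, f a * g b * Kr a b)
  have h2 := norm_add_le (∑ a ∈ A₁, ∑ b ∈ B \ B₁, f a * g b * Kr a b)
    (∑ a ∈ A₁, ∑ b ∈ B₁, f a * g b * Kr a b)
  have h3 := hbd (A \ A₁) B
  have h4 := hbd A₁ (B \ B₁)
  have h5 : (A₁.card : ℝ) * (B \ B₁).card ≤ (A.card : ℝ) * (B \ B₁).card := by
    refine mul_le_mul_of_nonneg_right ?_ (Nat.cast_nonneg _)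
    exact_mod_cast card_le_card hA
  linarith

end

open Classical in
/-- power saving for bilinear forms with a general kernel over two sets nearly invariant under
progressions of length `N`, unless many of the sums belong to a set of `p^(β+ε) / N` elements -/
theorem thick_ker (ε β : ℝ) (hε : 0 < ε) (hβ : β ≤ 1 / 2) : ∃ e : ℝ, 0 < e ∧
    e ≤ 1 / 32 ∧ ∀ σ : ℝ, 0 < σ → ∃ τ : ℝ, 0 < τ ∧ ∃ p₀ : ℕ, ∀ (p : ℕ) [Fact p.Prime], p₀ ≤ p →
    ∀ (Kr : ZMod p → ZMod p → ℂ), (∀ x y, ‖Kr x y‖ ≤ 1) → ∀ (L : ℕ), 1 ≤ L →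
      (L : ℝ) ≤ (p : ℝ) ^ e → ∀ (z z' : ZMod p), z ≠ 0 → ∀ (X : Finset (ZMod p)) (R : ℝ), 0 ≤ R →
      R ≤ 2 * (p : ℝ) ^ (-σ) → (X.card : ℝ) ≤ (p : ℝ) ^ (β + e) →
      KrBd Kr L z z' X R → ∀ (A B : Finset (ZMod p)) (N : ℕ), (p : ℝ) ^ ε ≤ N → N ≤ p →
      ((A + (range N).image fun i : ℕ => (i : ZMod p) * z).card : ℝ) ≤ (p : ℝ) ^ τ * A.card →
      ((B + (range N).image fun i : ℕ => (i : ZMod p) * z').card : ℝ) ≤ (p : ℝ) ^ τ * B.card →
      (∀ Z : Finset (ZMod p), (Z.card : ℝ) * N ≤ (p : ℝ) ^ (β + ε) →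
        (((A ×ˢ B).filter fun t => t.1 + t.2 ∈ Z).card : ℝ) ≤
          (p : ℝ) ^ (-ε) * (A.card * B.card)) →
      ∀ f g : ZMod p → ℂ, ‖∑ a ∈ A, ∑ b ∈ B, f a * g b * Kr a b‖ ≤ (p : ℝ) ^ (-τ) *
        ((Real.sqrt A.card * Real.sqrt B.card) *
          (Real.sqrt (∑ a ∈ A, ‖f a‖ ^ 2) * Real.sqrt (∑ b ∈ B, ‖g b‖ ^ 2))) := by
  obtain ⟨ε₁, hε₁⟩ : ∃ e : ℝ, e = min ε (1 / 4) := ⟨_, rfl⟩
  have hε₁0 : 0 < ε₁ := by rw [hε₁]; exact lt_min hε (by norm_num)
  have hε₁ε : ε₁ ≤ ε := by rw [hε₁]; exact min_le_left _ _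
  have hε₁4 : ε₁ ≤ 1 / 4 := by rw [hε₁]; exact min_le_right _ _
  obtain ⟨e, he⟩ : ∃ e : ℝ, e = ε₁ / 8 := ⟨_, rfl⟩
  have he0 : 0 < e := by rw [he]; positivity
  have he32 : e ≤ 1 / 32 := by rw [he]; linarith
  obtain ⟨C, hC, hfew⟩ := rich_few2 e he0
  refine ⟨e, he0, he32, fun σ hσ => ?_⟩
  obtain ⟨τ, hτ⟩ : ∃ t : ℝ, t = min σ e / 8 := ⟨_, rfl⟩
  have hτ0 : 0 < τ := by
    rw [hτ]
    have : 0 < min σ e := lt_min hσ he0
    positivity
  have hτ1 : 4 * τ ≤ 2 * σ * 1 / 2 := by rw [hτ]; linarith [min_le_left σ e]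
  have hτ3 : 4 * τ ≤ e := by rw [hτ]; linarith [min_le_right σ e]
  have hτ2 : 8 * τ ≤ ε := by linarith
  obtain ⟨p₁, hp₁⟩ := large (24 * C) e he0
  obtain ⟨p₂, hp₂⟩ := large 96 (1 / 4) (by norm_num)
  obtain ⟨p₃, hp₃⟩ := large 14 τ hτ0
  obtain ⟨p₄, hp₄⟩ := large 3 (τ / 12) (by positivity)
  obtain ⟨p₅, hp₅⟩ := large 12 e he0
  refine ⟨τ / 4, by positivity, p₁ + p₂ + p₃ + p₄ + p₅, ?_⟩
  intro p hpf hp Kr hk L hL1 hLle z z' hz X R hR0 hR hX hsb A B N hN hNp hA hB hAB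
  have hpp := @hfew p _
  have hp1 := hp₁ p (by omega)
  have hp2 := hp₂ p (by omega)
  have hp3 := hp₃ p (by omega)
  have hp4 := hp₄ p (by omega)
  have hp5 := hp₅ p (by omega)
  clear hfew hp₁ hp₂ hp₃ hp₄ hp₅
  have hpR : (1 : ℝ) ≤ p := by exact_mod_cast (Fact.out : p.Prime).one_lt.le
  have hp0 : (0 : ℝ) < p := by linarith
  have hNe : (p : ℝ) ^ (8 * e) ≤ N := by
    refine le_trans (Real.rpow_le_rpow_of_exponent_le hpR ?_) hN
    rw [he]
    linarith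
  -- the length `U`
  have hL0 : (0 : ℝ) < L := by exact_mod_cast hL1
  have hLc : 0 < 6 * (L + 1) := by omega
  set U : ℕ := N / (6 * (L + 1)) with hU
  have hLp : ((6 * (L + 1) : ℕ) : ℝ) ≤ 12 * (p : ℝ) ^ e := by
    have h1 : (1 : ℝ) ≤ L := by exact_mod_cast hL1
    push_cast
    linarith
  have hU1 : 1 ≤ U := by
    rw [hU, Nat.one_le_div_iff hLc]
    have h1 : ((6 * (L + 1) : ℕ) : ℝ) ≤ N := by
      refine hLp.trans (le_trans ?_ hNe)
      calc 12 * (p : ℝ) ^ e ≤ (p : ℝ) ^ e * (p : ℝ) ^ e :=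
            mul_le_mul_of_nonneg_right hp5 (by positivity)
        _ = (p : ℝ) ^ (2 * e) := by rw [← Real.rpow_add hp0]; congr 1; ring
        _ ≤ _ := Real.rpow_le_rpow_of_exponent_le hpR (by linarith)
    exact_mod_cast h1
  have hU0 : (0 : ℝ) < U := by exact_mod_cast hU1
  have hUN : U * (6 * (L + 1)) ≤ N := Nat.div_mul_le_self _ _
  have h6U : 6 * U ≤ p := by
    have h1 : 6 * U ≤ U * (6 * (L + 1)) := by nlinarith
    omega
  have hUp : U < p := by omega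
  have hNU : (N : ℝ) ≤ 24 * (p : ℝ) ^ e * U := by
    have h1 : N < 6 * (L + 1) * (U + 1) := by
      have := Nat.lt_mul_div_succ N hLc
      rwa [hU]
    have h2 : N ≤ 6 * (L + 1) * (2 * U) := by
      refine h1.le.trans (Nat.mul_le_mul_left _ ?_)
      omega
    have h3 : (N : ℝ) ≤ ((6 * (L + 1) : ℕ) : ℝ) * (2 * U) := by exact_mod_cast h2
    refine h3.trans ?_
    calc ((6 * (L + 1) : ℕ) : ℝ) * (2 * U) ≤ (12 * (p : ℝ) ^ e) * (2 * U) :=
          mul_le_mul_of_nonneg_right hLp (by positivity)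
      _ = _ := by ring
  -- the total length
  set l : ℕ := L * U + U with hl
  have hl0 : 0 < l := by omega
  have hlN : l ≤ N := by
    have h1 : l ≤ U * (6 * (L + 1)) := by rw [hl]; nlinarith
    omega
  -- the sets of shifts
  set Aw : Finset (ZMod p) := (range U).image fun n : ℕ => (n : ZMod p) with hAw
  set T : Finset (ZMod p) := (Finset.Icc 1 U).image fun n : ℕ => (n : ZMod p) with hT
  have hinj : ∀ a b : ℕ, a < p → b < p → (a : ZMod p) = (b : ZMod p) → a = b := by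
    intro a b ha hb hab
    have h1 := (ZMod.natCast_eq_natCast_iff' a b p).1 hab
    rwa [Nat.mod_eq_of_lt ha, Nat.mod_eq_of_lt hb] at h1
  have hAwc : Aw.card = U := by
    rw [hAw, card_image_of_injOn, card_range]
    intro a ha b hb hab
    exact hinj a b ((mem_range.1 (mem_coe.1 ha)).trans hUp)
      ((mem_range.1 (mem_coe.1 hb)).trans hUp) hab
  have hTc : T.card = U := by
    rw [hT, card_image_of_injOn, Nat.card_Icc, Nat.add_sub_cancel]
    intro a ha b hb hab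
    exact hinj a b (lt_of_le_of_lt (Finset.mem_Icc.1 (mem_coe.1 ha)).2 hUp)
      (lt_of_le_of_lt (Finset.mem_Icc.1 (mem_coe.1 hb)).2 hUp) hab
  have hAw2 : ∀ w ∈ Aw, ∃ n : ℕ, n < U ∧ (n : ZMod p) = w := by
    intro w hw
    obtain ⟨n, hn, hn2⟩ := mem_image.1 hw
    exact ⟨n, mem_range.1 hn, hn2⟩
  have hT2 : ∀ u ∈ T, u ≠ 0 ∧ ∃ n : ℕ, n ≤ U ∧ (n : ZMod p) = u := by
    intro u hu
    obtain ⟨n, hn, hn2⟩ := mem_image.1 hu
    have hn3 := Finset.mem_Icc.1 hn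
    refine ⟨?_, n, hn3.2, hn2⟩
    rintro h0
    rw [h0] at hn2
    have h1 := hinj n 0 (lt_of_le_of_lt hn3.2 hUp) (Fact.out : p.Prime).pos
      (by rw [hn2, Nat.cast_zero])
    omega
  have hAwne : Aw.Nonempty := by rw [← card_pos, hAwc]; omega
  have hTne : T.Nonempty := by rw [← card_pos, hTc]; omega
  -- the exceptional set
  have hW₀ := hpp U U hU1 le_rfl h6U X ((p : ℝ) ^ (-e)) (by positivity) (by
    calc 96 * (X.card : ℝ) ≤ (p : ℝ) ^ (1 / 4 : ℝ) * (p : ℝ) ^ (β + e) :=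
          mul_le_mul hp2 hX (Nat.cast_nonneg _) (by positivity)
      _ = (p : ℝ) ^ (1 / 4 + (β + e)) := by rw [← Real.rpow_add hp0]
      _ ≤ (p : ℝ) ^ (-e + 1) := Real.rpow_le_rpow_of_exponent_le hpR (by linarith)
      _ = _ := by rw [Real.rpow_add hp0, Real.rpow_one])
  set W₀ := (univ : Finset (ZMod p)).filter fun s => (p : ℝ) ^ (-e) * ((U : ℝ) * U) <
      (((Aw ×ˢ T).filter fun r => (r.1 + s) / r.2 ∈ X).card : ℝ) with hW₀d
  have hW₀2 : (W₀.card : ℝ) * N ≤ (p : ℝ) ^ (β + ε₁) := by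
    have e1 : ((p : ℝ) ^ (-e)) ^ 2 = (p : ℝ) ^ (-(2 * e)) := by
      rw [← Real.rpow_natCast, ← Real.rpow_mul hp0.le]; congr 1; push_cast; ring
    have h1 : (W₀.card : ℝ) * U ≤ C * (p : ℝ) ^ (β + 4 * e) := by
      have h2 : (W₀.card : ℝ) * U ≤ C * (p : ℝ) ^ e * X.card / (((p : ℝ) ^ (-e)) ^ 2 * U) * U :=
        mul_le_mul_of_nonneg_right hW₀ hU0.le
      refine h2.trans ?_
      rw [e1]
      have e2 : C * (p : ℝ) ^ e * X.card / ((p : ℝ) ^ (-(2 * e)) * U) * U =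
          C * ((p : ℝ) ^ e * X.card * (p : ℝ) ^ (2 * e)) := by
        rw [Real.rpow_neg hp0.le]
        field_simp
      rw [e2]
      refine mul_le_mul_of_nonneg_left ?_ hC.le
      calc (p : ℝ) ^ e * X.card * (p : ℝ) ^ (2 * e) ≤
            (p : ℝ) ^ e * (p : ℝ) ^ (β + e) * (p : ℝ) ^ (2 * e) := by
            refine mul_le_mul_of_nonneg_right (mul_le_mul_of_nonneg_left hX ?_) ?_ <;> positivity
        _ = _ := by
            rw [← Real.rpow_add hp0, ← Real.rpow_add hp0]; congr 1; ring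
    calc (W₀.card : ℝ) * N ≤ W₀.card * (24 * (p : ℝ) ^ e * U) :=
          mul_le_mul_of_nonneg_left hNU (Nat.cast_nonneg _)
      _ = 24 * (p : ℝ) ^ e * (W₀.card * U) := by ring
      _ ≤ 24 * (p : ℝ) ^ e * (C * (p : ℝ) ^ (β + 4 * e)) :=
          mul_le_mul_of_nonneg_left h1 (by positivity)
      _ = (24 * C) * ((p : ℝ) ^ e * (p : ℝ) ^ (β + 4 * e)) := by ring
      _ ≤ (p : ℝ) ^ e * ((p : ℝ) ^ e * (p : ℝ) ^ (β + 4 * e)) :=
          mul_le_mul_of_nonneg_right hp1 (by positivity)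
      _ = (p : ℝ) ^ (β + 6 * e) := by
          rw [← Real.rpow_add hp0, ← Real.rpow_add hp0]; congr 1; ring
      _ ≤ _ := Real.rpow_le_rpow_of_exponent_le hpR (by rw [he]; linarith)
  have hW₀3 : (p : ℝ) ^ (β + ε₁) ≤ (p : ℝ) ^ (β + ε) :=
    Real.rpow_le_rpow_of_exponent_le hpR (by linarith)
  have hA' : ((A + (range N).image fun i : ℕ => (i : ZMod p) * z).card : ℝ) ≤
      (p : ℝ) ^ τ * A.card := by
    refine hA.trans (mul_le_mul_of_nonneg_right ?_ (Nat.cast_nonneg _))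
    exact Real.rpow_le_rpow_of_exponent_le hpR (by linarith)
  have hB' : ((B + (range N).image fun i : ℕ => (i : ZMod p) * z').card : ℝ) ≤
      (p : ℝ) ^ τ * B.card := by
    refine hB.trans (mul_le_mul_of_nonneg_right ?_ (Nat.cast_nonneg _))
    exact Real.rpow_le_rpow_of_exponent_le hpR (by linarith)
  have hDA : ((dn A l z).card : ℝ) ≤ (p : ℝ) ^ τ * A.card := by
    refine le_trans ?_ hA'
    exact_mod_cast dn_card A l N hlN z
  have hDB : ((dn B l z').card : ℝ) ≤ (p : ℝ) ^ τ * B.card := by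
    refine le_trans ?_ hB'
    exact_mod_cast dn_card B l N hlN z'
  -- the rich parts
  obtain ⟨ρ, hρ⟩ : ∃ ρ : ℝ, ρ = (p : ℝ) ^ (-(3 * τ)) := ⟨_, rfl⟩
  have hρ0 : 0 < ρ := by rw [hρ]; positivity
  set A₁ := A.filter fun a => ¬ ((nb A l z a : ℝ) < ρ * l) with hA₁
  set B₁ := B.filter fun b => ¬ ((nb B l z' b : ℝ) < ρ * l) with hB₁
  have hA₁s : A \ A₁ = A.filter fun a => (nb A l z a : ℝ) < ρ * l := by
    ext a
    simp only [hA₁, mem_sdiff, mem_filter]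
    tauto
  have hB₁s : B \ B₁ = B.filter fun b => (nb B l z' b : ℝ) < ρ * l := by
    ext a
    simp only [hB₁, mem_sdiff, mem_filter]
    tauto
  have hPA : ((A \ A₁).card : ℝ) ≤ ρ * (dn A l z).card := by
    rw [hA₁s]; exact poor_card A l hl0 z ρ hρ0.le
  have hPB : ((B \ B₁).card : ℝ) ≤ ρ * (dn B l z').card := by
    rw [hB₁s]; exact poor_card B l hl0 z' ρ hρ0.le
  have hbdd : ∀ f g : ZMod p → ℂ, (∀ x, ‖f x‖ ≤ 1) → (∀ x, ‖g x‖ ≤ 1) →
      ‖∑ a ∈ A, ∑ b ∈ B, f a * g b * Kr a b‖ ≤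
        (p : ℝ) ^ (-τ) * (A.card * B.card) := by
    intro f g hf hg
    have hsh := shifted_ker Kr L U U z z' hz X R hR0 hsb A₁ B₁ Aw T hAw2 hT2 hAwne hTne
      ((p : ℝ) ^ (-e)) (by positivity) f g hf hg
    rw [hAwc, hTc] at hsh
    set Z : Finset (ZMod p) := W₀.image fun s => s * z with hZ
    have hrc := rich_count A B A₁ B₁ l z z' ρ hρ0 hl0
      (fun a ha => not_lt.1 (mem_filter.1 ha).2) (fun b hb => not_lt.1 (mem_filter.1 hb).2)
      Z ((p : ℝ) ^ (-ε) * (A.card * B.card)) (by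
        intro Y hY
        refine hAB Y ?_
        refine le_trans ?_ (hW₀2.trans hW₀3)
        refine mul_le_mul_of_nonneg_right ?_ (Nat.cast_nonneg _)
        exact_mod_cast hY.trans card_image_le)
    have hres := restrict_ker Kr hk A B A₁ B₁ (filter_subset _ _) (filter_subset _ _) f g hf hg
    have hD1 : ((dn A₁ l z).card : ℝ) * (dn B₁ l z').card ≤
        ((dn A l z).card : ℝ) * (dn B l z').card := by
      refine mul_le_mul ?_ ?_ (Nat.cast_nonneg _) (Nat.cast_nonneg _)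
      · exact_mod_cast card_le_card (dn_sub A₁ A (filter_subset _ _) l z)
      · exact_mod_cast card_le_card (dn_sub B₁ B (filter_subset _ _) l z')
    have hsh2 := hsh.trans (add_le_add (mul_le_mul_of_nonneg_left hD1
      (add_nonneg hR0 (by positivity))) le_rfl)
    rw [hρ] at hrc hPA hPB
    have hR' : R ≤ 2 * (p : ℝ) ^ (-(2 * σ * 1 / 2)) := by
      have e : -(2 * σ * 1 / 2) = -σ := by ring
      rw [e]
      exact hR
    exact thick_num p τ (2 * σ) 1 e ε ((p : ℝ) ^ (-e)) R (dn A l z).card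
      (dn B l z').card A.card B.card (A \ A₁).card (B \ B₁).card _ _ _ hpR hτ1 hτ3 hτ2 hp3
      (Nat.cast_nonneg _) (Nat.cast_nonneg _) (Nat.cast_nonneg _) (Nat.cast_nonneg _) hR'
      le_rfl hDA hDB hrc hPA hPB hsh2 hres
  intro f g
  exact linf_to_l2_pow A B (fun a b => Kr a b) (fun a b => hk _ _) p τ
    hpR hp4 hbdd f g

end Pool.Agent.Y881.BI
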