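import Pool.Agent.Y881.BI.Main

set_option autoImplicit false
set_option linter.unusedSectionVars false

/-! # Thick sets: final forms -/

open Finset
open scoped Pointwise

namespace Pool.Agent.Y881.BI

open Pool.Agent.Y881.SP Pool.Agent.TH7.PG Pool.Agent.Y881.DS

/-- one set, one direction, non-concentration -/
theorem nonconc_gen (ε β : ℝ) (hε : 0 < ε) (hβ : β ≤ 1 / 2) : ∃ τ : ℝ, 0 < τ ∧ ∃ p₀ : ℕ,
    ∀ (p : ℕ) [Fact p.Prime], p₀ ≤ p → ∃ Ex : Finset (DirichletCharacter ℂ p),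
      (Ex.card : ℝ) ≤ (p : ℝ) ^ (1 - β) ∧ (β = 1 / 2 → ∀ χ ∈ Ex, χ = 1) ∧
      ∀ χ : DirichletCharacter ℂ p, χ ∉ Ex → ∀ (A : Finset (ZMod p)) (z : ZMod p)
      (N : ℕ), A.Nonempty → z ≠ 0 → (p : ℝ) ^ ε ≤ N → N ≤ p →
      ((A + (range N).image fun i : ℕ => (i : ZMod p) * z).card : ℝ) ≤ (p : ℝ) ^ τ * A.card →
      (∀ Z : Finset (ZMod p), (Z.card : ℝ) * N ≤ (p : ℝ) ^ (β + ε) →
        (((A ×ˢ A).filter fun t => t.1 - t.2 ∈ Z).card : ℝ) ≤
          (p : ℝ) ^ (-ε) * (A.card : ℝ) ^ 2) → Sav χ τ A := by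
  classical
  obtain ⟨τ, hτ, p₁, h⟩ := ker_gen ε β hε hβ
  obtain ⟨p₂, hp₂⟩ := large 3 (τ / 3) (by positivity)
  refine ⟨τ / 3, by positivity, p₁ + p₂, ?_⟩
  intro p _ hp
  have hp2 := hp₂ p (by omega)
  have hpR : (1 : ℝ) ≤ p := by exact_mod_cast (Fact.out : p.Prime).one_lt.le
  obtain ⟨Ex, hEx, hEx2, h⟩ := h p (by omega)
  refine ⟨Ex, hEx, hEx2, ?_⟩
  intro χ hχ A z N hA hz hN hNp hAN hE
  have hAN' : ((A + (range N).image fun i : ℕ => (i : ZMod p) * z).card : ℝ) ≤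
      (p : ℝ) ^ τ * A.card := by
    refine hAN.trans (mul_le_mul_of_nonneg_right ?_ (Nat.cast_nonneg _))
    exact Real.rpow_le_rpow_of_exponent_le hpR (by linarith)
  have hker := h χ hχ A A z N hz hN hNp hAN' hAN' (fun Z hZ => by
    have h1 := hE Z hZ
    rw [pow_two] at h1
    convert h1)
  exact Pool.Agent.TH920.QI.conclude (τ / 3) (by positivity) (by linarith) χ A hA (by
    intro η hη f g
    have h1 := hker f g η hη
    rw [Real.mul_self_sqrt (Nat.cast_nonneg _)] at h1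
    have e1 : ∑ a ∈ A, ∑ b ∈ A, f a * g b * (χ (a - b) * η (a + b)) =
        ∑ a ∈ A, ∑ b ∈ A, f a * g b * η (a + b) * χ (a - b) := by
      refine sum_congr rfl fun a _ => sum_congr rfl fun b _ => ?_
      ring
    rw [e1]
    refine h1.trans (le_of_eq ?_)
    have e2 : -(3 * (τ / 3)) = -τ := by ring
    rw [e2]
    ring)

theorem sav_mono' {p : ℕ} [Fact p.Prime] (χ : DirichletCharacter ℂ p) (τ τ' : ℝ) (hτ : τ' ≤ τ)
    (A : Finset (ZMod p)) (hA : A.Nonempty) (h : Sav χ τ A) : Sav χ τ' A := by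
  have hpR : (1 : ℝ) ≤ p := by exact_mod_cast (Fact.out : p.Prime).one_lt.le
  have hA1 : (1 : ℝ) ≤ A.card := by exact_mod_cast hA.card_pos
  refine ⟨fun f g hh hhb => ?_, fun A' hA' hAA' u v α β γ δ huv hdet hpole C hC => ?_⟩
  · refine (h.1 f g hh hhb).trans (mul_le_mul_of_nonneg_right ?_ (by positivity))
    exact Real.rpow_le_rpow_of_exponent_le hA1 (by linarith)
  · have hAA2 : (A.card : ℝ) ≤ (p : ℝ) ^ τ * A'.card := by
      refine hAA'.trans (mul_le_mul_of_nonneg_right ?_ (Nat.cast_nonneg _))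
      exact Real.rpow_le_rpow_of_exponent_le hpR hτ
    have h1 := h.2 A' hA' hAA2 u v α β γ δ huv hdet hpole C hC
    have hA'ne : A'.Nonempty := by
      rw [Finset.nonempty_iff_ne_empty]
      intro h0
      rw [h0, card_empty, Nat.cast_zero, mul_zero] at hAA'
      linarith
    have hDne : C.Nonempty := by
      rw [hC]
      exact hA'ne.image _
    have hD2 : (1 : ℝ) ≤ C.card := by exact_mod_cast hDne.card_pos
    exact lt_of_lt_of_le h1 (Real.rpow_le_rpow_of_exponent_le hD2 (by linarith))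

open Classical in
/-- sets nearly invariant under a set of bounded doubling, non-concentration -/
theorem doub_nonconc (ε K β : ℝ) (hε : 0 < ε) (hβ : β ≤ 1 / 2) : ∃ κ : ℝ, 0 < κ ∧
    ∀ ϑ : ℝ, 0 < ϑ → ∃ τ : ℝ, 0 < τ ∧
    ∃ p₀ : ℕ, ∀ (p : ℕ) [Fact p.Prime], p₀ ≤ p → ∃ Ex : Finset (DirichletCharacter ℂ p),
      (Ex.card : ℝ) ≤ (p : ℝ) ^ (1 - β) ∧ (β = 1 / 2 → ∀ χ ∈ Ex, χ = 1) ∧
      ∀ χ : DirichletCharacter ℂ p, χ ∉ Ex → ∀ A P : Finset (ZMod p), A.Nonempty →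
      (p : ℝ) ^ ε ≤ P.card → ((P + P).card : ℝ) ≤ K * P.card →
      ((A + P).card : ℝ) ≤ (p : ℝ) ^ τ * A.card →
      (∀ Z : Finset (ZMod p), (Z.card : ℝ) ≤ (p : ℝ) ^ (β - κ) →
        (((A ×ˢ A).filter fun t => t.1 - t.2 ∈ Z).card : ℝ) ≤
          (p : ℝ) ^ (-ϑ) * (A.card : ℝ) ^ 2) → Sav χ τ A := by
  obtain ⟨ε', hε', C, hC, p₁, hap⟩ := ap_inv ε K hε
  obtain ⟨ε₂, hε₂⟩ : ∃ x : ℝ, x = min ε' 1 / 2 := ⟨_, rfl⟩
  have hε₂0 : 0 < ε₂ := by
    rw [hε₂]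
    have : 0 < min ε' 1 := lt_min hε' one_pos
    positivity
  have hε₂1 : 2 * ε₂ ≤ ε' := by rw [hε₂]; linarith [min_le_left ε' 1]
  have hε₂2 : 2 * ε₂ ≤ 1 := by rw [hε₂]; linarith [min_le_right ε' 1]
  refine ⟨ε₂, hε₂0, fun ϑ hϑ => ?_⟩
  obtain ⟨ε₃, hε₃⟩ : ∃ x : ℝ, x = min ε₂ ϑ := ⟨_, rfl⟩
  have hε₃0 : 0 < ε₃ := by rw [hε₃]; exact lt_min hε₂0 hϑ
  have hε₃1 : ε₃ ≤ ε₂ := by rw [hε₃]; exact min_le_left _ _
  have hε₃2 : ε₃ ≤ ϑ := by rw [hε₃]; exact min_le_right _ _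
  obtain ⟨τ, hτ, p₂, h⟩ := nonconc_gen ε₃ β hε₃0 hβ
  obtain ⟨p₃, hp₃⟩ := large C (τ / 2) (by positivity)
  refine ⟨τ / 2, by positivity, p₁ + p₂ + p₃, ?_⟩
  intro p _ hp
  have hp3 := hp₃ p (by omega)
  have hpR : (1 : ℝ) ≤ p := by exact_mod_cast (Fact.out : p.Prime).one_lt.le
  have hp0 : (0 : ℝ) < p := by linarith
  obtain ⟨Ex, hEx, hEx2, h⟩ := h p (by omega)
  refine ⟨Ex, hEx, hEx2, ?_⟩
  intro χ hχ A P hA hP hPK hAP hE
  obtain ⟨z, N, hz, hN, hAN⟩ := hap p (by omega) A P hP hPK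
  have hmin : (p : ℝ) ^ (2 * ε₂) ≤ (min N p : ℕ) := by
    rw [Nat.cast_min]
    refine le_min ((Real.rpow_le_rpow_of_exponent_le hpR hε₂1).trans hN) ?_
    calc (p : ℝ) ^ (2 * ε₂) ≤ (p : ℝ) ^ (1 : ℝ) := Real.rpow_le_rpow_of_exponent_le hpR hε₂2
      _ = p := Real.rpow_one _
  have hsub : (A + (range (min N p)).image fun i : ℕ => (i : ZMod p) * z) ⊆
      (A + (range N).image fun i : ℕ => (i : ZMod p) * z) := by
    refine add_subset_add_left (image_subset_image ?_)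
    exact range_subset_range.2 (min_le_left _ _)
  have hinv : ((A + (range (min N p)).image fun i : ℕ => (i : ZMod p) * z).card : ℝ) ≤
      (p : ℝ) ^ τ * A.card := by
    have e : (p : ℝ) ^ τ = (p : ℝ) ^ (τ / 2) * (p : ℝ) ^ (τ / 2) := by
      rw [← Real.rpow_add hp0]; congr 1; ring
    calc _ ≤ ((A + (range N).image fun i : ℕ => (i : ZMod p) * z).card : ℝ) := by
          exact_mod_cast card_le_card hsub
      _ ≤ C * ((A + P).card : ℝ) := hAN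
      _ ≤ (p : ℝ) ^ (τ / 2) * ((p : ℝ) ^ (τ / 2) * A.card) :=
          mul_le_mul hp3 hAP (Nat.cast_nonneg _) (by positivity)
      _ = _ := by rw [e]; ring
  refine sav_mono' χ τ (τ / 2) (by linarith) A hA (h χ hχ A z (min N p) hA hz
    ((Real.rpow_le_rpow_of_exponent_le hpR (by linarith)).trans hmin) (min_le_right _ _) hinv ?_)
  intro Z hZ
  have hpos : 0 < (p : ℝ) ^ (2 * ε₂) := by positivity
  have h2 : (Z.card : ℝ) ≤ (p : ℝ) ^ (β - ε₂) := by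
    have h3 : (Z.card : ℝ) * (p : ℝ) ^ (2 * ε₂) ≤
        (p : ℝ) ^ (β - ε₂) * (p : ℝ) ^ (2 * ε₂) := by
      calc (Z.card : ℝ) * (p : ℝ) ^ (2 * ε₂) ≤ Z.card * (min N p : ℕ) :=
            mul_le_mul_of_nonneg_left hmin (Nat.cast_nonneg _)
        _ ≤ (p : ℝ) ^ (β + ε₃) := hZ
        _ ≤ (p : ℝ) ^ (β - ε₂ + 2 * ε₂) :=
            Real.rpow_le_rpow_of_exponent_le hpR (by linarith)
        _ = _ := by rw [Real.rpow_add hp0]
    exact le_of_mul_le_mul_right h3 hpos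
  refine (hE Z h2).trans (mul_le_mul_of_nonneg_right ?_ (by positivity))
  exact Real.rpow_le_rpow_of_exponent_le hpR (by linarith)

section
variable {p : ℕ} [Fact p.Prime]

/-- the difference sum over a Moebius image, from the bound for forms -/
theorem mob_sum (χ : DirichletCharacter ℂ p) (A' : Finset (ZMod p)) (M : ℝ) (hM0 : 0 ≤ M)
    (hM : ∀ f g : ZMod p → ℂ, ‖∑ a ∈ A', ∑ b ∈ A', f a * g b * χ (a - b)‖ ≤
      M * (Real.sqrt (∑ a ∈ A', ‖f a‖ ^ 2) * Real.sqrt (∑ b ∈ A', ‖g b‖ ^ 2)))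
    (α β γ δ : ZMod p) (hdet : α * δ - β * γ ≠ 0) (hpole : ∀ a ∈ A', γ * a + δ ≠ 0)
    (C : Finset (ZMod p)) (hC : C = (A'.image fun a => (α * a + β) * (γ * a + δ)⁻¹)) :
    C.card = A'.card ∧ ‖∑ x ∈ C, ∑ y ∈ C, χ (x - y)‖ ≤ M * A'.card := by
  classical
  have hinj : Set.InjOn (fun a => (α * a + β) * (γ * a + δ)⁻¹) (A' : Set (ZMod p)) := by
    intro a ha b hb hab
    have h1 := mob_sub α β γ δ a b (hpole a (mem_coe.1 ha)) (hpole b (mem_coe.1 hb))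
    have h2 : (α * a + β) * (γ * a + δ)⁻¹ - (α * b + β) * (γ * b + δ)⁻¹ = 0 :=
      sub_eq_zero.2 hab
    rw [h2] at h1
    rcases mul_eq_zero.1 h1.symm with h3 | h3
    · rcases mul_eq_zero.1 h3 with h4 | h4
      · exact absurd h4 hdet
      · exact sub_eq_zero.1 h4
    · rcases mul_eq_zero.1 h3 with h4 | h4
      · exact absurd (inv_eq_zero.1 h4) (hpole a (mem_coe.1 ha))
      · exact absurd (inv_eq_zero.1 h4) (hpole b (mem_coe.1 hb))
  have hCc : C.card = A'.card := by rw [hC, card_image_of_injOn hinj]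
  refine ⟨hCc, ?_⟩
  set f : ZMod p → ℂ := fun a => χ (α * δ - β * γ) * χ ((γ * a + δ)⁻¹) with hf
  set g : ZMod p → ℂ := fun a => χ ((γ * a + δ)⁻¹) with hg
  have hfn : ∀ a, ‖f a‖ ≤ 1 := by
    intro a
    rw [hf]
    simp only [norm_mul]
    exact mul_le_one₀ (χ.norm_le_one _) (norm_nonneg _) (χ.norm_le_one _)
  have hgn : ∀ a, ‖g a‖ ≤ 1 := fun a => χ.norm_le_one _
  have hnorm : ∀ F : ZMod p → ℂ, (∀ a, ‖F a‖ ≤ 1) →
      Real.sqrt (∑ a ∈ A', ‖F a‖ ^ 2) ≤ Real.sqrt A'.card := by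
    intro F hF
    refine Real.sqrt_le_sqrt ?_
    calc ∑ a ∈ A', ‖F a‖ ^ 2 ≤ ∑ _a ∈ A', (1 : ℝ) :=
          sum_le_sum fun a _ => pow_le_one₀ (norm_nonneg _) (hF a)
      _ = A'.card := by simp
  have hsum : ∑ x ∈ C, ∑ y ∈ C, χ (x - y) = ∑ a ∈ A', ∑ b ∈ A', f a * g b * χ (a - b) := by
    rw [hC, sum_image hinj]
    refine sum_congr rfl fun a ha => ?_
    rw [sum_image hinj]
    refine sum_congr rfl fun b hb => ?_
    rw [mob_sub α β γ δ a b (hpole a ha) (hpole b hb), map_mul, map_mul, map_mul]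
    simp only [hf, hg]
    ring
  rw [hsum]
  refine (hM f g).trans (mul_le_mul_of_nonneg_left ?_ hM0)
  calc _ ≤ Real.sqrt A'.card * Real.sqrt A'.card :=
        mul_le_mul (hnorm f hfn) (hnorm g hgn) (Real.sqrt_nonneg _) (Real.sqrt_nonneg _)
    _ = A'.card := Real.mul_self_sqrt (Nat.cast_nonneg _)

/-- forms over a subset -/
theorem form_sub (A B A' : Finset (ZMod p)) (hA : A' ⊆ A) (hB : A' ⊆ B) (k : ZMod p → ZMod p → ℂ)
    (M : ℝ) (hM : ∀ f g : ZMod p → ℂ, ‖∑ a ∈ A, ∑ b ∈ B, f a * g b * k a b‖ ≤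
      M * (Real.sqrt (∑ a ∈ A, ‖f a‖ ^ 2) * Real.sqrt (∑ b ∈ B, ‖g b‖ ^ 2)))
    (f g : ZMod p → ℂ) : ‖∑ a ∈ A', ∑ b ∈ A', f a * g b * k a b‖ ≤
      M * (Real.sqrt (∑ a ∈ A', ‖f a‖ ^ 2) * Real.sqrt (∑ b ∈ A', ‖g b‖ ^ 2)) := by
  classical
  have h1 := hM (fun a => if a ∈ A' then f a else 0) (fun a => if a ∈ A' then g a else 0)
  have hsC : ∀ (X : Finset (ZMod p)) (F : ZMod p → ℂ), A' ⊆ X →
      ∑ a ∈ X, (if a ∈ A' then F a else 0) = ∑ a ∈ A', F a := by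
    intro X F hX
    rw [← sum_filter, filter_mem_eq_inter, inter_eq_right.2 hX]
  have hsR : ∀ (X : Finset (ZMod p)) (F : ZMod p → ℂ), A' ⊆ X →
      ∑ a ∈ X, ‖(if a ∈ A' then F a else 0)‖ ^ 2 = ∑ a ∈ A', ‖F a‖ ^ 2 := by
    intro X F hX
    have e : ∀ a, ‖(if a ∈ A' then F a else 0)‖ ^ 2 = if a ∈ A' then ‖F a‖ ^ 2 else 0 := by
      intro a
      split_ifs <;> simp
    simp only [e]
    rw [← sum_filter, filter_mem_eq_inter, inter_eq_right.2 hX]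
  rw [hsR A f hA, hsR B g hB] at h1
  have e : ∑ a ∈ A, ∑ b ∈ B, (if a ∈ A' then f a else 0) * (if b ∈ A' then g b else 0) * k a b =
      ∑ a ∈ A', ∑ b ∈ A', f a * g b * k a b := by
    rw [← hsC A _ hA]
    refine sum_congr rfl fun a _ => ?_
    by_cases ha : a ∈ A'
    · rw [if_pos ha, if_pos ha, ← hsC B _ hB]
      refine sum_congr rfl fun b _ => ?_
      by_cases hb : b ∈ A'
      · rw [if_pos hb, if_pos hb]
      · rw [if_neg hb, if_neg hb, mul_zero, zero_mul]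
    · rw [if_neg ha, if_neg ha]
      refine sum_eq_zero fun b _ => ?_
      rw [zero_mul, zero_mul]
  rw [e] at h1
  exact h1

end

open Classical in
/-- unions of thick sets with different steps: pairs, non-concentration -/
theorem union_pairs (ε : ℝ) (hε : 0 < ε) : ∃ τ : ℝ, 0 < τ ∧ ∃ p₀ : ℕ, ∀ (p : ℕ) [Fact p.Prime],
    p₀ ≤ p → ∀ χ : DirichletCharacter ℂ p, χ ≠ 1 → ∀ (n m : ℕ) (A : Fin n → Finset (ZMod p))
      (B : Fin m → Finset (ZMod p)) (z : Fin n → ZMod p) (z' : Fin m → ZMod p) (N : Fin n → ℕ)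
      (N' : Fin m → ℕ), (∀ i, z i ≠ 0) → (∀ j, z' j ≠ 0) → (∀ i, (p : ℝ) ^ ε ≤ N i) →
      (∀ j, (p : ℝ) ^ ε ≤ N' j) → (∀ i, N i ≤ p) → (∀ j, N' j ≤ p) →
      (∀ i, ((A i + (range (N i)).image fun k : ℕ => (k : ZMod p) * z i).card : ℝ)
        ≤ (p : ℝ) ^ τ * (A i).card) →
      (∀ j, ((B j + (range (N' j)).image fun k : ℕ => (k : ZMod p) * z' j).card : ℝ)
        ≤ (p : ℝ) ^ τ * (B j).card) →
      (∀ i j, i ≠ j → Disjoint (A i) (A j)) → (∀ i j, i ≠ j → Disjoint (B i) (B j)) →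
      (∀ i j, ∀ Z : Finset (ZMod p),
        (Z.card : ℝ) * (min (N i) (N' j) : ℕ) ≤ (p : ℝ) ^ (1 / 2 + ε) →
        (((A i ×ˢ B j).filter fun t => t.1 - t.2 ∈ Z).card : ℝ) ≤
          (p : ℝ) ^ (-ε) * ((A i).card * (B j).card)) →
      ∀ D D' : Finset (ZMod p), D = univ.biUnion A → D' = univ.biUnion B →
      (∀ f g : ZMod p → ℂ, ‖∑ a ∈ D, ∑ b ∈ D', f a * g b * χ (a - b)‖ ≤
        (p : ℝ) ^ (-τ) * Real.sqrt (D.card * D'.card) *
          (Real.sqrt (∑ a ∈ D, ‖f a‖ ^ 2) * Real.sqrt (∑ b ∈ D', ‖g b‖ ^ 2))) ∧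
      ∀ A' : Finset (ZMod p), A'.Nonempty → A' ⊆ D → A' ⊆ D' →
        Real.sqrt (D.card * D'.card) ≤ (p : ℝ) ^ τ * A'.card →
        ∀ α β γ δ : ZMod p, α * δ - β * γ ≠ 0 → (∀ a ∈ A', γ * a + δ ≠ 0) →
          ∀ C : Finset (ZMod p), C = (A'.image fun a => (α * a + β) * (γ * a + δ)⁻¹) →
            ‖∑ x ∈ C, ∑ y ∈ C, χ (x - y)‖ < (C.card : ℝ) ^ (2 - τ) := by
  obtain ⟨τ, hτ, p₀, h⟩ := two_dir ε hε
  refine ⟨τ / 4, by positivity, p₀, ?_⟩
  intro p _ hp χ hχ n m A B z z' N N' hz hz' hN hN' hNp hNp' hA hB hdisj hdisj' hAB D D' hD hD'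
  have hp1 : (1 : ℝ) < p := by exact_mod_cast (Fact.out : p.Prime).one_lt
  have hpR : (1 : ℝ) ≤ p := hp1.le
  have hp0 : (0 : ℝ) < p := by linarith
  have hτ4 : (p : ℝ) ^ (τ / 4) ≤ (p : ℝ) ^ τ :=
    Real.rpow_le_rpow_of_exponent_le hpR (by linarith)
  have hshort : ∀ (X : Finset (ZMod p)) (y : ZMod p) (k l : ℕ), k ≤ l →
      ((X + (range l).image fun i : ℕ => (i : ZMod p) * y).card : ℝ) ≤
        (p : ℝ) ^ (τ / 4) * X.card →
      ((X + (range k).image fun i : ℕ => (i : ZMod p) * y).card : ℝ) ≤ (p : ℝ) ^ τ * X.card := by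
    intro X y k l hkl h1
    have h2 : (X + (range k).image fun i : ℕ => (i : ZMod p) * y) ⊆
        (X + (range l).image fun i : ℕ => (i : ZMod p) * y) :=
      add_subset_add_left (image_subset_image (range_subset_range.2 hkl))
    calc _ ≤ ((X + (range l).image fun i : ℕ => (i : ZMod p) * y).card : ℝ) := by
          exact_mod_cast card_le_card h2
      _ ≤ (p : ℝ) ^ (τ / 4) * X.card := h1
      _ ≤ _ := mul_le_mul_of_nonneg_right hτ4 (Nat.cast_nonneg _)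
  have hpair : ∀ i j, ∀ f g : ZMod p → ℂ, ‖∑ a ∈ A i, ∑ b ∈ B j, f a * g b * χ (a - b)‖ ≤
      (p : ℝ) ^ (-τ) * ((Real.sqrt (A i).card * Real.sqrt (B j).card) *
          (Real.sqrt (∑ a ∈ A i, ‖f a‖ ^ 2) * Real.sqrt (∑ b ∈ B j, ‖g b‖ ^ 2))) := by
    intro i j f g
    refine h p hp χ hχ (A i) (B j) (z i) (z' j) (min (N i) (N' j)) (hz i) (hz' j) ?_
      ((min_le_left _ _).trans (hNp i)) (hshort (A i) (z i) _ (N i) (min_le_left _ _) (hA i))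
      (hshort (B j) (z' j) _ (N' j) (min_le_right _ _) (hB j))
      (fun Z hZ => by convert hAB i j Z hZ) f g
    rw [Nat.cast_min]
    exact le_min (hN i) (hN' j)
  have hdis : Set.PairwiseDisjoint (univ : Finset (Fin n)) A := fun i _ j _ hij => hdisj i j hij
  have hdis' : Set.PairwiseDisjoint (univ : Finset (Fin m)) B := fun i _ j _ hij => hdisj' i j hij
  have hD1 : ∀ F : ZMod p → ℝ, ∑ a ∈ D, F a = ∑ i, ∑ a ∈ A i, F a := by
    intro F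
    rw [hD, sum_biUnion hdis]
  have hD2 : ∀ F : ZMod p → ℂ, ∑ a ∈ D, F a = ∑ i, ∑ a ∈ A i, F a := by
    intro F
    rw [hD, sum_biUnion hdis]
  have hD1' : ∀ F : ZMod p → ℝ, ∑ a ∈ D', F a = ∑ j, ∑ a ∈ B j, F a := by
    intro F
    rw [hD', sum_biUnion hdis']
  have hD2' : ∀ F : ZMod p → ℂ, ∑ a ∈ D', F a = ∑ j, ∑ a ∈ B j, F a := by
    intro F
    rw [hD', sum_biUnion hdis']
  have hcs : ∀ (k : ℕ) (X : Fin k → Finset (ZMod p)) (E : Finset (ZMod p)),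
      (∀ F : ZMod p → ℝ, ∑ a ∈ E, F a = ∑ i, ∑ a ∈ X i, F a) → ∀ F : ZMod p → ℂ,
      ∑ i, Real.sqrt (X i).card * Real.sqrt (∑ a ∈ X i, ‖F a‖ ^ 2) ≤
      Real.sqrt E.card * Real.sqrt (∑ a ∈ E, ‖F a‖ ^ 2) := by
    intro k X E hE F
    have h1 := Finset.sum_mul_sq_le_sq_mul_sq (univ : Finset (Fin k))
      (fun i => Real.sqrt (X i).card) (fun i => Real.sqrt (∑ a ∈ X i, ‖F a‖ ^ 2))
    have hEc : (E.card : ℝ) = ∑ i, ((X i).card : ℝ) := by
      have h1 := hE fun _ => (1 : ℝ)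
      simpa using h1
    have h2 : ∑ i, Real.sqrt ((X i).card : ℝ) ^ 2 = E.card := by
      rw [hEc]
      exact sum_congr rfl fun i _ => Real.sq_sqrt (Nat.cast_nonneg _)
    have h3 : ∑ i, Real.sqrt (∑ a ∈ X i, ‖F a‖ ^ 2) ^ 2 = ∑ a ∈ E, ‖F a‖ ^ 2 := by
      rw [hE]
      exact sum_congr rfl fun i _ => Real.sq_sqrt (sum_nonneg fun _ _ => by positivity)
    rw [h2, h3] at h1
    rw [← Real.sqrt_mul (Nat.cast_nonneg _)]
    exact Real.le_sqrt_of_sq_le h1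
  -- all pairs
  have hall : ∀ f g : ZMod p → ℂ, ‖∑ a ∈ D, ∑ b ∈ D', f a * g b * χ (a - b)‖ ≤
        (p : ℝ) ^ (-τ) * Real.sqrt (D.card * D'.card) *
          (Real.sqrt (∑ a ∈ D, ‖f a‖ ^ 2) * Real.sqrt (∑ b ∈ D', ‖g b‖ ^ 2)) := by
    intro f g
    have e1 : ∑ a ∈ D, ∑ b ∈ D', f a * g b * χ (a - b) =
        ∑ i, ∑ j, ∑ a ∈ A i, ∑ b ∈ B j, f a * g b * χ (a - b) := by
      rw [hD2]
      refine sum_congr rfl fun i _ => ?_
      symm
      rw [sum_comm]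
      refine sum_congr rfl fun a _ => ?_
      rw [hD2']
    rw [e1]
    calc ‖∑ i, ∑ j, ∑ a ∈ A i, ∑ b ∈ B j, f a * g b * χ (a - b)‖ ≤
          ∑ i, ∑ j, ‖∑ a ∈ A i, ∑ b ∈ B j, f a * g b * χ (a - b)‖ :=
          (norm_sum_le _ _).trans (sum_le_sum fun i _ => norm_sum_le _ _)
      _ ≤ ∑ i, ∑ j, (p : ℝ) ^ (-τ) *
          ((Real.sqrt (A i).card * Real.sqrt (B j).card) *
            (Real.sqrt (∑ a ∈ A i, ‖f a‖ ^ 2) * Real.sqrt (∑ b ∈ B j, ‖g b‖ ^ 2))) :=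
          sum_le_sum fun i _ => sum_le_sum fun j _ => hpair i j f g
      _ = (p : ℝ) ^ (-τ) * ((∑ i, Real.sqrt (A i).card * Real.sqrt (∑ a ∈ A i, ‖f a‖ ^ 2)) *
            (∑ j, Real.sqrt (B j).card * Real.sqrt (∑ a ∈ B j, ‖g a‖ ^ 2))) := by
          rw [sum_mul_sum, mul_sum]
          refine sum_congr rfl fun i _ => ?_
          rw [mul_sum]
          refine sum_congr rfl fun j _ => ?_
          ring
      _ ≤ (p : ℝ) ^ (-τ) * ((Real.sqrt D.card * Real.sqrt (∑ a ∈ D, ‖f a‖ ^ 2)) *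
            (Real.sqrt D'.card * Real.sqrt (∑ a ∈ D', ‖g a‖ ^ 2))) := by
          refine mul_le_mul_of_nonneg_left ?_ (by positivity)
          exact mul_le_mul (hcs n A D hD1 f) (hcs m B D' hD1' g)
            (sum_nonneg fun _ _ => mul_nonneg (Real.sqrt_nonneg _) (Real.sqrt_nonneg _))
            (mul_nonneg (Real.sqrt_nonneg _) (Real.sqrt_nonneg _))
      _ = _ := by
          rw [Real.sqrt_mul (Nat.cast_nonneg _)]
          ring
  refine ⟨fun f g => ?_, fun A' hne hA' hA'2 hdense α β γ δ hdet hpole C hC => ?_⟩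
  · refine (hall f g).trans (mul_le_mul_of_nonneg_right (mul_le_mul_of_nonneg_right ?_
      (Real.sqrt_nonneg _)) (by positivity))
    exact Real.rpow_le_rpow_of_exponent_le hpR (by linarith)
  · obtain ⟨h1, h2⟩ := mob_sum χ A' ((p : ℝ) ^ (-τ) * Real.sqrt (D.card * D'.card))
      (by positivity) (form_sub D D' A' hA' hA'2 (fun a b => χ (a - b)) _ hall) α β γ δ hdet
      hpole C hC
    have hA'c : (0 : ℝ) < A'.card := by exact_mod_cast hne.card_pos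
    have hA'p : (A'.card : ℝ) ≤ p := by
      have := card_le_univ A'
      rw [ZMod.card] at this
      exact_mod_cast this
    rw [h1]
    refine lt_of_le_of_lt h2 ?_
    have h3 : (A'.card : ℝ) ^ (τ / 4) ≤ (p : ℝ) ^ (τ / 4) :=
      Real.rpow_le_rpow hA'c.le hA'p (by positivity)
    have h4 : (A'.card : ℝ) ^ (2 - τ / 4) = (A'.card : ℝ) ^ 2 / (A'.card : ℝ) ^ (τ / 4) := by
      rw [Real.rpow_sub hA'c, Real.rpow_two]
    rw [h4, lt_div_iff₀ (by positivity)]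
    calc (p : ℝ) ^ (-τ) * Real.sqrt (D.card * D'.card) * A'.card * (A'.card : ℝ) ^ (τ / 4)
        ≤ (p : ℝ) ^ (-τ) * ((p : ℝ) ^ (τ / 4) * A'.card) * A'.card * (p : ℝ) ^ (τ / 4) := by
          refine mul_le_mul ?_ h3 (by positivity) (by positivity)
          refine mul_le_mul_of_nonneg_right ?_ hA'c.le
          exact mul_le_mul_of_nonneg_left hdense (by positivity)
      _ = (p : ℝ) ^ (-τ + τ / 4 + τ / 4) * (A'.card : ℝ) ^ 2 := by
          rw [Real.rpow_add hp0, Real.rpow_add hp0]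
          ring
      _ < 1 * (A'.card : ℝ) ^ 2 := by
          refine mul_lt_mul_of_pos_right ?_ (by positivity)
          exact Real.rpow_lt_one_of_one_lt_of_neg hp1 (by linarith)
      _ = _ := one_mul _

end Pool.Agent.Y881.BI
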