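import Pool.Agent.Y881.BI.Abs
import Pool.Agent.TH920.QI.Unif
import Pool.Agent.TH920.QI.Quarter

set_option autoImplicit false
set_option linter.unusedSectionVars false

/-! # Thick sets: difference form, and the two kinds of kernels -/

open Finset
open scoped Pointwise

namespace Pool.Agent.Y881.BI

open Pool.Agent.TH7.PG Pool.Agent.Y881.DS

section
variable {p : ℕ} [Fact p.Prime]

/-- the bound for one shift, difference form -/
def KrBdD (Kr : ZMod p → ZMod p → ℂ) (L : ℕ) (z z' : ZMod p) (X : Finset (ZMod p)) (R : ℝ) :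
    Prop :=
  ∀ u : ZMod p, u ≠ 0 → ∀ A₁ B₁ U U' : Finset (ZMod p),
    (∀ a ∈ A₁, ∀ i : Fin L, a - ((i : ℕ) : ZMod p) * (u * z) ∈ U) →
    (∀ b ∈ B₁, ∀ j : Fin L, b - ((j : ℕ) : ZMod p) * (u * z') ∈ U') →
    ∀ f g : ZMod p → ℂ, (∀ x, ‖f x‖ ≤ 1) → (∀ x, ‖g x‖ ≤ 1) →
      ‖∑ a ∈ A₁, ∑ b ∈ B₁, f a * g b * Kr a b‖ ≤
        R * ((U.card : ℝ) * U'.card) +
        (((U ×ˢ U').filter fun t => (t.1 - t.2) / (u * z) ∈ X).card : ℝ)

theorem sum_negC (B : Finset (ZMod p)) (F : ZMod p → ℂ) : ∑ b ∈ -B, F b = ∑ b ∈ B, F (-b) :=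
  sum_bij (fun b _ => -b) (fun b hb => by simpa using hb)
    (fun a _ b _ hab => neg_inj.1 hab) (fun b hb => ⟨-b, by simpa using hb, neg_neg b⟩)
    (fun b _ => by rw [neg_neg])

theorem sum_negR (B : Finset (ZMod p)) (F : ZMod p → ℝ) : ∑ b ∈ -B, F b = ∑ b ∈ B, F (-b) :=
  sum_bij (fun b _ => -b) (fun b hb => by simpa using hb)
    (fun a _ b _ hab => neg_inj.1 hab) (fun b hb => ⟨-b, by simpa using hb, neg_neg b⟩)
    (fun b _ => by rw [neg_neg])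

open Classical in
theorem filt_neg (A B X : Finset (ZMod p)) (y : ZMod p) :
    ((A ×ˢ (-B)).filter fun t => (t.1 - t.2) / y ∈ X).card ≤
      ((A ×ˢ B).filter fun t => (t.1 + t.2) / y ∈ X).card := by
  refine card_le_card_of_injOn (fun t => (t.1, -t.2)) ?_ ?_
  · intro t ht
    have h2 := mem_filter.1 (mem_coe.1 ht)
    have h3 := mem_product.1 h2.1
    refine mem_coe.2 (mem_filter.2 ⟨mem_product.2 ⟨h3.1, by simpa using h3.2⟩, ?_⟩)
    show (t.1 + -t.2) / y ∈ X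
    rw [← sub_eq_add_neg]
    exact h2.2
  · intro a _ b _ hab
    have h2 := Prod.ext_iff.1 hab
    exact Prod.ext h2.1 (neg_inj.1 h2.2)

theorem krD_to_kr (Kr : ZMod p → ZMod p → ℂ) (L : ℕ) (z z' : ZMod p) (X : Finset (ZMod p))
    (R : ℝ) (h : KrBdD Kr L z z' X R) : KrBd (fun a b => Kr a (-b)) L z (-z') X R := by
  classical
  intro u hu A₁ B₁ U U' hU hU' f g hf hg
  have h1 := h u hu A₁ (-B₁) U (-U') hU (by
    intro b hb j
    have hb' : -b ∈ B₁ := by simpa using hb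
    have h2 := hU' (-b) hb' j
    rw [mem_neg]
    refine ⟨_, h2, ?_⟩
    ring) f (fun b => g (-b)) hf (fun x => hg _)
  rw [Finset.card_neg] at h1
  have e1 : ∑ a ∈ A₁, ∑ b ∈ -B₁, f a * g (-b) * Kr a b =
      ∑ a ∈ A₁, ∑ b ∈ B₁, f a * g b * Kr a (-b) := by
    refine sum_congr rfl fun a _ => ?_
    rw [sum_negC]
    refine sum_congr rfl fun b _ => ?_
    rw [neg_neg]
  rw [e1] at h1
  refine h1.trans (add_le_add le_rfl ?_)
  have h2 := filt_neg U U' X (u * z)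
  exact_mod_cast h2

end

open Classical in
theorem thick_kerD (ε β : ℝ) (hε : 0 < ε) (hβ : β ≤ 1 / 2) : ∃ e : ℝ, 0 < e ∧
    e ≤ 1 / 32 ∧ ∀ σ : ℝ, 0 < σ → ∃ τ : ℝ, 0 < τ ∧ ∃ p₀ : ℕ, ∀ (p : ℕ) [Fact p.Prime], p₀ ≤ p →
    ∀ (Kr : ZMod p → ZMod p → ℂ), (∀ x y, ‖Kr x y‖ ≤ 1) → ∀ (L : ℕ), 1 ≤ L →
      (L : ℝ) ≤ (p : ℝ) ^ e → ∀ (z z' : ZMod p), z ≠ 0 → ∀ (X : Finset (ZMod p)) (R : ℝ), 0 ≤ R →
      R ≤ 2 * (p : ℝ) ^ (-σ) → (X.card : ℝ) ≤ (p : ℝ) ^ (β + e) →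
      KrBdD Kr L z z' X R → ∀ (A B : Finset (ZMod p)) (N : ℕ), (p : ℝ) ^ ε ≤ N → N ≤ p →
      ((A + (range N).image fun i : ℕ => (i : ZMod p) * z).card : ℝ) ≤ (p : ℝ) ^ τ * A.card →
      ((B + (range N).image fun i : ℕ => (i : ZMod p) * z').card : ℝ) ≤ (p : ℝ) ^ τ * B.card →
      (∀ Z : Finset (ZMod p), (Z.card : ℝ) * N ≤ (p : ℝ) ^ (β + ε) →
        (((A ×ˢ B).filter fun t => t.1 - t.2 ∈ Z).card : ℝ) ≤
          (p : ℝ) ^ (-ε) * (A.card * B.card)) →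
      ∀ f g : ZMod p → ℂ, ‖∑ a ∈ A, ∑ b ∈ B, f a * g b * Kr a b‖ ≤ (p : ℝ) ^ (-τ) *
        ((Real.sqrt A.card * Real.sqrt B.card) *
          (Real.sqrt (∑ a ∈ A, ‖f a‖ ^ 2) * Real.sqrt (∑ b ∈ B, ‖g b‖ ^ 2))) := by
  obtain ⟨e, he, he32, h⟩ := thick_ker ε β hε hβ
  refine ⟨e, he, he32, fun σ hσ => ?_⟩
  obtain ⟨τ, hτ, p₀, h⟩ := h σ hσ
  refine ⟨τ, hτ, p₀, ?_⟩
  intro p _ hp Kr hKr L hL1 hL z z' hz X R hR0 hR hX hsb A B N hN hNp hA hB hAB f g
  have hcard : (-B).card = B.card := Finset.card_neg B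
  have hB' : (((-B) + (range N).image fun i : ℕ => (i : ZMod p) * (-z')).card : ℝ) ≤
      (p : ℝ) ^ τ * (-B).card := by
    have e : (-B) + ((range N).image fun i : ℕ => (i : ZMod p) * (-z')) =
        -(B + (range N).image fun i : ℕ => (i : ZMod p) * z') := by
      rw [neg_add]
      congr 1
      ext x
      simp only [mem_image, mem_neg, mem_range]
      constructor
      · rintro ⟨i, hi, rfl⟩
        exact ⟨(i : ZMod p) * z', ⟨i, hi, rfl⟩, by ring⟩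
      · rintro ⟨y, ⟨i, hi, rfl⟩, rfl⟩
        exact ⟨i, hi, by ring⟩
    rw [e, Finset.card_neg, hcard]
    exact hB
  have hAB' : ∀ Z : Finset (ZMod p), (Z.card : ℝ) * N ≤ (p : ℝ) ^ (β + ε) →
        (((A ×ˢ (-B)).filter fun t => t.1 + t.2 ∈ Z).card : ℝ) ≤
          (p : ℝ) ^ (-ε) * (A.card * (-B).card) := by
    intro X hX
    rw [hcard]
    refine le_trans ?_ (hAB X hX)
    have h1 : ((A ×ˢ (-B)).filter fun t => t.1 + t.2 ∈ X).card ≤
        ((A ×ˢ B).filter fun t => t.1 - t.2 ∈ X).card := by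
      refine card_le_card_of_injOn (fun t => (t.1, -t.2)) ?_ ?_
      · intro t ht
        have h2 := mem_filter.1 (mem_coe.1 ht)
        have h3 := mem_product.1 h2.1
        refine mem_coe.2 (mem_filter.2 ⟨mem_product.2 ⟨h3.1, by simpa using h3.2⟩, ?_⟩)
        show t.1 - -t.2 ∈ X
        rw [sub_neg_eq_add]
        exact h2.2
      · intro a _ b _ hab
        have h2 := Prod.ext_iff.1 hab
        exact Prod.ext h2.1 (neg_inj.1 h2.2)
    exact_mod_cast h1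
  have h1 := h p hp (fun a b => Kr a (-b)) (fun x y => hKr _ _) L hL1 hL z (-z') hz X R hR0 hR hX
    (krD_to_kr Kr L z z' X R hsb) A (-B) N hN hNp hA hB' hAB' f (fun b => g (-b))
  have e1 : ∑ a ∈ A, ∑ b ∈ -B, f a * g (-b) * Kr a (-b) =
      ∑ a ∈ A, ∑ b ∈ B, f a * g b * Kr a b := by
    refine sum_congr rfl fun a _ => ?_
    rw [sum_negC]
    refine sum_congr rfl fun b _ => ?_
    rw [neg_neg]
  have e2 : ∑ b ∈ -B, ‖g (-b)‖ ^ 2 = ∑ b ∈ B, ‖g b‖ ^ 2 := by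
    rw [sum_negR]
    refine sum_congr rfl fun b _ => ?_
    rw [neg_neg]
  rw [e1, e2, hcard] at h1
  exact h1

section
variable {p : ℕ} [Fact p.Prime]

open Pool.Agent.TH920.QI in
open Classical in
theorem kerp_inf (L : ℕ) [NeZero (2 * L)] (X : Finset (ZMod p)) (Kr : ZMod p → ZMod p → ℂ)
    (hK1 : ∀ a b, ‖Kr a b‖ ≤ 1) (B : ℝ) (hB : 0 ≤ B) (hK : KerP L X B Kr)
    (z : ZMod p) (hz : z ≠ 0) (A₁ A₂ U₁ U₂ : Finset (ZMod p)) (f g : ZMod p → ℂ)
    (hf : ∀ x, ‖f x‖ ≤ 1) (hg : ∀ x, ‖g x‖ ≤ 1)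
    (h1 : ∀ a ∈ A₁, ∀ i : ℤ, 0 ≤ i → i < L → a - (i : ZMod p) * z ∈ U₁)
    (h2 : ∀ a ∈ A₂, ∀ i : ℤ, 0 ≤ i → i < L → a - (i : ZMod p) * z ∈ U₂) :
    ‖∑ a ∈ A₁, ∑ b ∈ A₂, f a * g b * Kr a b‖
      ≤ B / L * ((U₁.card : ℝ) * U₂.card) +
        (((U₁ ×ˢ U₂).filter fun t => (t.1 - t.2) * z⁻¹ ∈ X).card : ℝ) := by
  have hL0 : 0 < L := by
    rcases Nat.eq_zero_or_pos L with h | h
    · exfalso
      subst h
      exact NeZero.ne (2 * 0) rfl
    · exact h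
  have hLR : (0 : ℝ) < L := by exact_mod_cast hL0
  set I := Finset.Ico 0 (L : ℤ) with hI
  have hIcard : (I.card : ℝ) = L := by
    rw [hI, Int.card_Ico]; simp
  set F : ZMod p → ℂ := fun a => if a ∈ A₁ then f a else 0 with hF
  set G : ZMod p → ℂ := fun a => if a ∈ A₂ then g a else 0 with hG
  have hFn : ∀ x, ‖F x‖ ≤ 1 := by
    intro x
    rw [hF]
    by_cases hx : x ∈ A₁
    · simp only [if_pos hx]; exact hf x
    · simp only [if_neg hx, norm_zero]; norm_num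
  have hGn : ∀ x, ‖G x‖ ≤ 1 := by
    intro x
    rw [hG]
    by_cases hx : x ∈ A₂
    · simp only [if_pos hx]; exact hg x
    · simp only [if_neg hx, norm_zero]; norm_num
  have hsq : ∀ (H : ZMod p → ℂ), (∀ x, ‖H x‖ ≤ 1) → ∀ t : ZMod p,
      ∑ i ∈ I, ‖H (t + (i : ZMod p) * z)‖ ^ 2 ≤ L := by
    intro H hH t
    calc ∑ i ∈ I, ‖H (t + (i : ZMod p) * z)‖ ^ 2 ≤ ∑ _i ∈ I, (1 : ℝ) := by
          refine sum_le_sum fun i _ => ?_
          exact pow_le_one₀ (norm_nonneg _) (hH _)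
      _ = L := by rw [sum_const, nsmul_eq_mul, mul_one, hIcard]
  -- the averaged identity
  have key : (L : ℂ) ^ 2 * ∑ a ∈ A₁, ∑ b ∈ A₂, f a * g b * Kr a b
      = ∑ t ∈ U₁, ∑ t' ∈ U₂, ∑ i ∈ I, ∑ j ∈ I,
        F (t + (i : ZMod p) * z) * G (t' + (j : ZMod p) * z)
          * Kr (t + (i : ZMod p) * z) (t' + (j : ZMod p) * z) := by
    have e1 : ∀ i ∈ I, ∀ j ∈ I, ∑ a ∈ A₁, ∑ b ∈ A₂, f a * g b * Kr a b
        = ∑ t ∈ U₁, ∑ t' ∈ U₂, F (t + (i : ZMod p) * z) * G (t' + (j : ZMod p) * z)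
          * Kr (t + (i : ZMod p) * z) (t' + (j : ZMod p) * z) := by
      intro i hi j hj
      have hi' := Finset.mem_Ico.1 hi
      have hj' := Finset.mem_Ico.1 hj
      rw [Pool.Agent.W27.BG.sum_shift A₁ U₁ ((i : ZMod p) * z)
        (fun a ha => h1 a ha i hi'.1 hi'.2)]
      refine Finset.sum_congr rfl fun t _ => ?_
      by_cases ht : t + (i : ZMod p) * z ∈ A₁
      · rw [if_pos ht, Pool.Agent.W27.BG.sum_shift A₂ U₂ ((j : ZMod p) * z)
          (fun a ha => h2 a ha j hj'.1 hj'.2)]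
        refine Finset.sum_congr rfl fun t' _ => ?_
        simp only [hF, hG]
        rw [if_pos ht]
        by_cases ht' : t' + (j : ZMod p) * z ∈ A₂
        · rw [if_pos ht', if_pos ht']
        · rw [if_neg ht', if_neg ht', mul_zero, zero_mul]
      · rw [if_neg ht]
        symm
        refine Finset.sum_eq_zero fun t' _ => ?_
        simp only [hF]
        rw [if_neg ht, zero_mul, zero_mul]
    have e2 : (L : ℂ) ^ 2 * ∑ a ∈ A₁, ∑ b ∈ A₂, f a * g b * Kr a b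
        = ∑ i ∈ I, ∑ j ∈ I, ∑ a ∈ A₁, ∑ b ∈ A₂, f a * g b * Kr a b := by
      have hIc : (I.card : ℂ) = L := by exact_mod_cast hIcard
      rw [Finset.sum_const, Finset.sum_const, nsmul_eq_mul, nsmul_eq_mul, hIc]
      ring
    rw [e2, Finset.sum_congr rfl fun i hi => Finset.sum_congr rfl fun j hj => e1 i hi j hj]
    calc _ = ∑ i ∈ I, ∑ t ∈ U₁, ∑ j ∈ I, ∑ t' ∈ U₂,
          F (t + (i : ZMod p) * z) * G (t' + (j : ZMod p) * z)
          * Kr (t + (i : ZMod p) * z) (t' + (j : ZMod p) * z) :=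
            Finset.sum_congr rfl fun i _ => Finset.sum_comm
      _ = ∑ t ∈ U₁, ∑ i ∈ I, ∑ j ∈ I, ∑ t' ∈ U₂,
          F (t + (i : ZMod p) * z) * G (t' + (j : ZMod p) * z)
          * Kr (t + (i : ZMod p) * z) (t' + (j : ZMod p) * z) := Finset.sum_comm
      _ = ∑ t ∈ U₁, ∑ i ∈ I, ∑ t' ∈ U₂, ∑ j ∈ I,
          F (t + (i : ZMod p) * z) * G (t' + (j : ZMod p) * z)
          * Kr (t + (i : ZMod p) * z) (t' + (j : ZMod p) * z) :=
            Finset.sum_congr rfl fun t _ => Finset.sum_congr rfl fun i _ => Finset.sum_comm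
      _ = _ := Finset.sum_congr rfl fun t _ => Finset.sum_comm
  -- bound of one term
  have hterm : ∀ t t', ‖∑ i ∈ I, ∑ j ∈ I,
        F (t + (i : ZMod p) * z) * G (t' + (j : ZMod p) * z)
          * Kr (t + (i : ZMod p) * z) (t' + (j : ZMod p) * z)‖
      ≤ B * L + (if (t - t') * z⁻¹ ∈ X then (L : ℝ) ^ 2 else 0) := by
    intro t t'
    split_ifs with hb
    · have h3 : ‖∑ i ∈ I, ∑ j ∈ I, F (t + (i : ZMod p) * z) * G (t' + (j : ZMod p) * z)
          * Kr (t + (i : ZMod p) * z) (t' + (j : ZMod p) * z)‖ ≤ (L : ℝ) ^ 2 := by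
        refine (norm_sum_le _ _).trans ?_
        have h4 : ∀ i ∈ I, ‖∑ j ∈ I, F (t + (i : ZMod p) * z) * G (t' + (j : ZMod p) * z)
          * Kr (t + (i : ZMod p) * z) (t' + (j : ZMod p) * z)‖ ≤ L := by
          intro i _
          refine (norm_sum_le _ _).trans ?_
          calc _ ≤ ∑ _j ∈ I, (1 : ℝ) := by
                refine Finset.sum_le_sum fun j _ => ?_
                rw [norm_mul, norm_mul]
                exact mul_le_one₀ (mul_le_one₀ (hFn _) (norm_nonneg _) (hGn _)) (norm_nonneg _)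
                  (hK1 _ _)
            _ = L := by rw [sum_const, nsmul_eq_mul, mul_one, hIcard]
        refine (Finset.sum_le_sum h4).trans (le_of_eq ?_)
        rw [sum_const, nsmul_eq_mul, hIcard]
        ring
      have h6 : 0 ≤ B * L := by positivity
      linarith
    · rw [add_zero]
      have h7 := hK z hz t t' hb (fun i => F (t + (i : ZMod p) * z))
        (fun j => G (t' + (j : ZMod p) * z))
      refine h7.trans ?_
      refine mul_le_mul_of_nonneg_left ?_ hB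
      have h8 := hsq F hFn t
      have h9 := hsq G hGn t'
      rw [hI] at h8 h9
      linarith
  -- summation
  have hsum : (L : ℝ) ^ 2 * ‖∑ a ∈ A₁, ∑ b ∈ A₂, f a * g b * Kr a b‖
      ≤ (L : ℝ) ^ 2 * (B / L * ((U₁.card : ℝ) * U₂.card) +
        (((U₁ ×ˢ U₂).filter fun t => (t.1 - t.2) * z⁻¹ ∈ X).card : ℝ)) := by
    have h3 : (L : ℝ) ^ 2 * ‖∑ a ∈ A₁, ∑ b ∈ A₂, f a * g b * Kr a b‖
        = ‖(L : ℂ) ^ 2 * ∑ a ∈ A₁, ∑ b ∈ A₂, f a * g b * Kr a b‖ := by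
      rw [norm_mul, norm_pow, Complex.norm_natCast]
    rw [h3, key]
    refine (norm_sum_le _ _).trans ?_
    refine (Finset.sum_le_sum fun t _ => norm_sum_le _ _).trans ?_
    refine (Finset.sum_le_sum fun t _ => Finset.sum_le_sum fun t' _ => hterm t t').trans ?_
    rw [← Finset.sum_product' U₁ U₂ (fun t t' => B * L +
      (if (t - t') * z⁻¹ ∈ X then (L : ℝ) ^ 2 else 0)), sum_add_distrib, sum_const,
      nsmul_eq_mul, card_product, ← sum_filter, sum_const, nsmul_eq_mul]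
    push_cast
    have e : (L : ℝ) ^ 2 * (B / L * ((U₁.card : ℝ) * U₂.card) +
        (((U₁ ×ˢ U₂).filter fun t => (t.1 - t.2) * z⁻¹ ∈ X).card : ℝ)) =
        (U₁.card : ℝ) * U₂.card * (B * L) +
        (((U₁ ×ˢ U₂).filter fun t => (t.1 - t.2) * z⁻¹ ∈ X).card : ℝ) * (L : ℝ) ^ 2 := by
      field_simp
    rw [e]
  exact le_of_mul_le_mul_left hsum (by positivity)

theorem int_of_fin {L : ℕ} {z : ZMod p} {A U : Finset (ZMod p)}
    (h : ∀ a ∈ A, ∀ i : Fin L, a - ((i : ℕ) : ZMod p) * z ∈ U) :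
    ∀ a ∈ A, ∀ i : ℤ, 0 ≤ i → i < L → a - (i : ZMod p) * z ∈ U := by
  intro a ha i hi0 hiL
  have h2 := h a ha ⟨i.toNat, by omega⟩
  have e : ((i.toNat : ℕ) : ZMod p) = (i : ZMod p) := by
    have : ((i.toNat : ℤ)) = i := Int.toNat_of_nonneg hi0
    calc ((i.toNat : ℕ) : ZMod p) = (((i.toNat : ℕ) : ℤ) : ZMod p) := by push_cast; rfl
      _ = (i : ZMod p) := by rw [this]
  simpa [e] using h2

open Pool.Agent.TH920.QI in
theorem kerp_bdD (L : ℕ) [NeZero (2 * L)] (X : Finset (ZMod p)) (Kr : ZMod p → ZMod p → ℂ)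
    (hK1 : ∀ a b, ‖Kr a b‖ ≤ 1) (B : ℝ) (hB : 0 ≤ B) (hK : KerP L X B Kr)
    (z : ZMod p) (hz : z ≠ 0) : KrBdD Kr L z z X (B / L) := by
  classical
  intro u hu A₁ B₁ U U' hU hU' f g hf hg
  have h := kerp_inf L X Kr hK1 B hB hK (u * z) (mul_ne_zero hu hz) A₁ B₁ U U' f g hf hg
    (int_of_fin hU) (int_of_fin hU')
  simp only [← div_eq_mul_inv] at h
  convert h using 2

theorem two_bdD (χ : DirichletCharacter ℂ p) (L : ℕ) (hL : 1 ≤ L) (B : ℝ) (hB : 0 ≤ B)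
    (z z' : ZMod p) (hz : z ≠ 0) :
    KrBdD (fun a b => χ (a - b)) L z z' (Bad χ L B (-z' / z)) (Real.sqrt ((1 + B) / L)) := by
  classical
  intro u hu A₁ B₁ U U' hU hU' f g hf hg
  have h1 := shift_bound χ L hL B hB (u * z) (u * -z') (mul_ne_zero hu hz) A₁ (-B₁) U (-U') hU (by
    intro b hb j
    have hb' : -b ∈ B₁ := by simpa using hb
    have h2 := hU' (-b) hb' j
    rw [mem_neg]
    refine ⟨_, h2, ?_⟩
    ring) f (fun b => g (-b)) hf (fun x => hg _)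
  rw [Finset.card_neg] at h1
  have e1 : ∑ a ∈ A₁, ∑ b ∈ -B₁, f a * g (-b) * χ (a + b) =
      ∑ a ∈ A₁, ∑ b ∈ B₁, f a * g b * χ (a - b) := by
    refine sum_congr rfl fun a _ => ?_
    rw [sum_negC]
    refine sum_congr rfl fun b _ => ?_
    rw [neg_neg, sub_eq_add_neg]
  rw [e1, mul_div_mul_left _ _ hu] at h1
  refine h1.trans (add_le_add le_rfl ?_)
  have h2 : ((U ×ˢ (-U')).filter fun t => (t.1 + t.2) / (u * z) ∈ Bad χ L B (-z' / z)).card ≤
      ((U ×ˢ U').filter fun t => (t.1 - t.2) / (u * z) ∈ Bad χ L B (-z' / z)).card := by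
    refine card_le_card_of_injOn (fun t => (t.1, -t.2)) ?_ ?_
    · intro t ht
      have h2 := mem_filter.1 (mem_coe.1 ht)
      have h3 := mem_product.1 h2.1
      refine mem_coe.2 (mem_filter.2 ⟨mem_product.2 ⟨h3.1, by simpa using h3.2⟩, ?_⟩)
      show (t.1 - -t.2) / (u * z) ∈ Bad χ L B (-z' / z)
      rw [sub_neg_eq_add]
      exact h2.2
    · intro a _ b _ hab
      have h2 := Prod.ext_iff.1 hab
      exact Prod.ext h2.1 (neg_inj.1 h2.2)
  exact_mod_cast h2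

end

end Pool.Agent.Y881.BI
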