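import Pool.Agent.Y881.BI.Sizes
import Pool.Agent.Y881.DS.ApInv

set_option autoImplicit false
set_option linter.unusedSectionVars false

/-! # Thick sets: power saving above the size `p^(1/2+ε) / N` -/

open Finset
open scoped Pointwise

namespace Pool.Agent.Y881.BI

open Pool.Agent.Y881.SP Pool.Agent.TH7.PG Pool.Agent.Y881.DS

open Classical in
/-- two directions, all characters -/
theorem two_dir (ε : ℝ) (hε : 0 < ε) : ∃ τ : ℝ, 0 < τ ∧ ∃ p₀ : ℕ, ∀ (p : ℕ) [Fact p.Prime],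
    p₀ ≤ p → ∀ χ : DirichletCharacter ℂ p, χ ≠ 1 → ∀ (A B : Finset (ZMod p)) (z z' : ZMod p)
      (N : ℕ), z ≠ 0 → z' ≠ 0 → (p : ℝ) ^ ε ≤ N → N ≤ p →
      ((A + (range N).image fun i : ℕ => (i : ZMod p) * z).card : ℝ) ≤ (p : ℝ) ^ τ * A.card →
      ((B + (range N).image fun i : ℕ => (i : ZMod p) * z').card : ℝ) ≤ (p : ℝ) ^ τ * B.card →
      (∀ Z : Finset (ZMod p), (Z.card : ℝ) * N ≤ (p : ℝ) ^ (1 / 2 + ε) →
        (((A ×ˢ B).filter fun t => t.1 - t.2 ∈ Z).card : ℝ) ≤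
          (p : ℝ) ^ (-ε) * (A.card * B.card)) →
      ∀ f g : ZMod p → ℂ, ‖∑ a ∈ A, ∑ b ∈ B, f a * g b * χ (a - b)‖ ≤ (p : ℝ) ^ (-τ) *
        ((Real.sqrt A.card * Real.sqrt B.card) *
          (Real.sqrt (∑ a ∈ A, ‖f a‖ ^ 2) * Real.sqrt (∑ b ∈ B, ‖g b‖ ^ 2))) := by
  obtain ⟨e, he, he32, h⟩ := thick_kerD ε (1 / 2) hε le_rfl
  obtain ⟨σ, hσ, p₁, hs⟩ := sizes2 e he (by linarith)
  obtain ⟨τ, hτ, p₂, h⟩ := h σ hσ
  refine ⟨τ, hτ, p₁ + p₂, ?_⟩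
  intro p _ hp χ hχ A B z z' N hz hz' hN hNp hA hB hAB f g
  obtain ⟨L, Bd, hL1, hLe, hBd, hR, hbad⟩ := hs p (by omega) χ hχ
  exact h p (by omega) (fun a b => χ (a - b)) (fun _ _ => DirichletCharacter.norm_le_one χ _)
    L hL1 hLe z z' hz (Bad χ L Bd (-z' / z)) (Real.sqrt ((1 + Bd) / L)) (Real.sqrt_nonneg _) hR
    (hbad _ (div_ne_zero (neg_ne_zero.2 hz') hz)) (two_bdD χ L hL1 Bd hBd z z' hz) A B N hN hNp
    hA hB hAB f g

open Pool.Agent.TH920.QI in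
open Classical in
/-- one direction -/
theorem ker_gen (ε β : ℝ) (hε : 0 < ε) (hβ : β ≤ 1 / 2) : ∃ τ : ℝ, 0 < τ ∧ ∃ p₀ : ℕ,
    ∀ (p : ℕ) [Fact p.Prime], p₀ ≤ p → ∃ Ex : Finset (DirichletCharacter ℂ p),
      (Ex.card : ℝ) ≤ (p : ℝ) ^ (1 - β) ∧ (β = 1 / 2 → ∀ χ ∈ Ex, χ = 1) ∧
      ∀ χ : DirichletCharacter ℂ p, χ ∉ Ex → ∀ (A B : Finset (ZMod p)) (z : ZMod p)
      (N : ℕ), z ≠ 0 → (p : ℝ) ^ ε ≤ N → N ≤ p →
      ((A + (range N).image fun i : ℕ => (i : ZMod p) * z).card : ℝ) ≤ (p : ℝ) ^ τ * A.card →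
      ((B + (range N).image fun i : ℕ => (i : ZMod p) * z).card : ℝ) ≤ (p : ℝ) ^ τ * B.card →
      (∀ Z : Finset (ZMod p), (Z.card : ℝ) * N ≤ (p : ℝ) ^ (β + ε) →
        (((A ×ˢ B).filter fun t => t.1 - t.2 ∈ Z).card : ℝ) ≤
          (p : ℝ) ^ (-ε) * (A.card * B.card)) →
      ∀ f g h : ZMod p → ℂ, (∀ s, ‖h s‖ ≤ 1) →
        ‖∑ a ∈ A, ∑ b ∈ B, f a * g b * h (a + b) * χ (a - b)‖ ≤ (p : ℝ) ^ (-τ) *
        ((Real.sqrt A.card * Real.sqrt B.card) *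
          (Real.sqrt (∑ a ∈ A, ‖f a‖ ^ 2) * Real.sqrt (∑ b ∈ B, ‖g b‖ ^ 2))) := by
  obtain ⟨e, he, he32, h⟩ := thick_kerD ε β hε hβ
  obtain ⟨σ, hσ, p₁, hs⟩ := sizes3 e he (by linarith)
  obtain ⟨τ, hτ, p₂, h⟩ := h σ hσ
  refine ⟨τ, hτ, p₁ + p₂, ?_⟩
  intro p _ hp
  obtain ⟨L, hNZ, T, hL1, hLe, hT0, hR, hbad, hexc⟩ := hs p (by omega)
  have hfin : (Set.univ : Set (DirichletCharacter ℂ p)).Finite := Set.finite_univ
  set E₀ : Set (DirichletCharacter ℂ p) :=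
    {χ | (p : ℝ) ^ (β + e) < ((Bad3 L χ T).card : ℝ)} with hE₀
  have hE₀fin : E₀.Finite := hfin.subset (Set.subset_univ _)
  refine ⟨hE₀fin.toFinset, ?_, ?_, ?_⟩
  · rw [← Set.ncard_eq_toFinset_card E₀ hE₀fin]
    exact hexc β
  · intro hβ2 χ hχ
    by_contra hne
    have h1 : χ ∈ E₀ := hE₀fin.mem_toFinset.1 hχ
    have h2 := hbad χ hne
    rw [← hβ2] at h2
    exact absurd h1 (not_lt.2 h2)
  · intro χ hχ A B z N hz hN hNp hA hB hAB f g hh hhb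
    have hX : ((Bad3 L χ T).card : ℝ) ≤ (p : ℝ) ^ (β + e) := by
      by_contra hcon
      exact hχ (hE₀fin.mem_toFinset.2 (not_le.1 hcon))
    have hK1 : ∀ a b : ZMod p, ‖χ (a - b) * hh (a + b)‖ ≤ 1 := by
      intro a b
      rw [norm_mul]
      exact mul_le_one₀ (DirichletCharacter.norm_le_one χ _) (norm_nonneg _) (hhb _)
    have h1 := h p (by omega) (fun a b => χ (a - b) * hh (a + b)) hK1 L hL1 hLe z z hz
      (Bad3 L χ T) (Real.sqrt (2 * L * (1 + T)) / L) (by positivity) hR hX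
      (kerp_bdD L (Bad3 L χ T) _ hK1 _ (Real.sqrt_nonneg _) (kerP_of L χ T hT0 hh hhb) z hz)
      A B N hN hNp hA hB hAB f g
    refine le_trans (le_of_eq ?_) h1
    congr 1
    refine sum_congr rfl fun a _ => sum_congr rfl fun b _ => ?_
    ring

/-- power saving for the forms with kernel `h (a + b) χ (a - b)` over `A`, and for the difference
sums over the fractional quadratic images of the dense subsets of `A` -/
def Sav {p : ℕ} (χ : DirichletCharacter ℂ p) (τ : ℝ) (A : Finset (ZMod p)) : Prop :=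
  (∀ f g h : ZMod p → ℂ, (∀ s, ‖h s‖ ≤ 1) →
    ‖∑ a ∈ A, ∑ b ∈ A, f a * g b * h (a + b) * χ (a - b)‖ ≤ (A.card : ℝ) ^ (1 - τ) *
      (Real.sqrt (∑ a ∈ A, ‖f a‖ ^ 2) * Real.sqrt (∑ b ∈ A, ‖g b‖ ^ 2))) ∧
  (∀ A' : Finset (ZMod p), A' ⊆ A → (A.card : ℝ) ≤ (p : ℝ) ^ τ * A'.card →
    ∀ u v α β γ δ : ZMod p, (u ≠ 0 ∨ v ≠ 0) → α * δ - β * γ ≠ 0 →
      (∀ a ∈ A', γ * (u * a ^ 2 + v * a) + δ ≠ 0) → ∀ C : Finset (ZMod p),
      C = (A'.image fun a =>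
        (α * (u * a ^ 2 + v * a) + β) * (γ * (u * a ^ 2 + v * a) + δ)⁻¹) →
      ‖∑ x ∈ C, ∑ y ∈ C, χ (x - y)‖ < (C.card : ℝ) ^ (2 - τ))

theorem sav_mono {p : ℕ} [Fact p.Prime] (χ : DirichletCharacter ℂ p) (τ τ' : ℝ) (hτ : τ' ≤ τ)
    (hτ2 : τ < 2) (A : Finset (ZMod p)) (hA : A.Nonempty) (h : Sav χ τ A) : Sav χ τ' A := by
  have hpR : (1 : ℝ) ≤ p := by exact_mod_cast (Fact.out : p.Prime).one_lt.le
  have hA1 : (1 : ℝ) ≤ A.card := by exact_mod_cast hA.card_pos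
  refine ⟨fun f g hh hhb => ?_, fun A' hA' hAA' u v α β γ δ huv hdet hpole C hC => ?_⟩
  · refine (h.1 f g hh hhb).trans (mul_le_mul_of_nonneg_right ?_ (by positivity))
    exact Real.rpow_le_rpow_of_exponent_le hA1 (by linarith)
  · have hAA2 : (A.card : ℝ) ≤ (p : ℝ) ^ τ * A'.card := by
      refine hAA'.trans (mul_le_mul_of_nonneg_right ?_ (Nat.cast_nonneg _))
      exact Real.rpow_le_rpow_of_exponent_le hpR hτ
    have h1 := h.2 A' hA' hAA2 u v α β γ δ huv hdet hpole C hC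
    have hC1 : C.Nonempty := by
      rw [Finset.nonempty_iff_ne_empty]
      intro h0
      rw [h0] at h1
      simp only [sum_empty, norm_zero, card_empty, Nat.cast_zero] at h1
      rw [Real.zero_rpow (by linarith)] at h1
      exact absurd h1 (lt_irrefl _)
    have hC2 : (1 : ℝ) ≤ C.card := by exact_mod_cast hC1.card_pos
    exact lt_of_lt_of_le h1 (Real.rpow_le_rpow_of_exponent_le hC2 (by linarith))

open Classical in
/-- from small energy to the hypothesis of non-concentration -/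
theorem nonconc {p : ℕ} [Fact p.Prime] (A : Finset (ZMod p)) (hA : A.Nonempty) (N : ℕ)
    (hN : 0 < N) (β ε : ℝ) (hE : (Finset.addEnergy A A : ℝ) * (p : ℝ) ^ (β + ε) ≤
      N * (A.card : ℝ) ^ 4) :
    ∀ Z : Finset (ZMod p), (Z.card : ℝ) * N ≤ (p : ℝ) ^ (β + ε / 3) →
        (((A ×ˢ A).filter fun t => t.1 - t.2 ∈ Z).card : ℝ) ≤
          (p : ℝ) ^ (-(ε / 3)) * (A.card * A.card) := by
  intro Z hZ
  have hp0 : (0 : ℝ) < p := by exact_mod_cast (Fact.out : p.Prime).pos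
  have hA0 : (0 : ℝ) < A.card := by exact_mod_cast hA.card_pos
  have hN0 : (0 : ℝ) < N := by exact_mod_cast hN
  have h1 := pairs_sq A Z
  have h2 : (Z.card : ℝ) * (Finset.addEnergy A A : ℝ) ≤
      ((p : ℝ) ^ (-(ε / 3)) * (A.card * A.card)) ^ 2 := by
    have h3 : (Z.card : ℝ) * N * ((Finset.addEnergy A A : ℝ) * (p : ℝ) ^ (β + ε)) ≤
        (p : ℝ) ^ (β + ε / 3) * (N * (A.card : ℝ) ^ 4) :=
      mul_le_mul hZ hE (by positivity) (by positivity)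
    have e1 : (p : ℝ) ^ (β + ε / 3) = (p : ℝ) ^ (β + ε) * ((p : ℝ) ^ (-(ε / 3))) ^ 2 := by
      rw [← Real.rpow_natCast, ← Real.rpow_mul hp0.le, ← Real.rpow_add hp0]
      congr 1
      push_cast
      ring
    rw [e1] at h3
    have h4 : ((Z.card : ℝ) * (Finset.addEnergy A A : ℝ)) * (N * (p : ℝ) ^ (β + ε)) ≤
        (((p : ℝ) ^ (-(ε / 3)) * (A.card * A.card)) ^ 2) * (N * (p : ℝ) ^ (β + ε)) := by
      calc _ = (Z.card : ℝ) * N * ((Finset.addEnergy A A : ℝ) * (p : ℝ) ^ (β + ε)) := by ring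
        _ ≤ _ := h3
        _ = _ := by ring
    exact le_of_mul_le_mul_right h4 (by positivity)
  have h3 : (((A ×ˢ A).filter fun t => t.1 - t.2 ∈ Z).card : ℝ) ^ 2 ≤
      ((p : ℝ) ^ (-(ε / 3)) * (A.card * A.card)) ^ 2 := by
    refine le_trans (le_trans (le_of_eq ?_) h1) h2
    congr
  exact (sq_le_sq₀ (Nat.cast_nonneg _) (by positivity)).1 h3

/-- one set of small energy -/
theorem energy_gen (ε β : ℝ) (hε : 0 < ε) (hβ : β ≤ 1 / 2) : ∃ τ : ℝ, 0 < τ ∧ ∃ p₀ : ℕ,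
    ∀ (p : ℕ) [Fact p.Prime], p₀ ≤ p → ∃ Ex : Finset (DirichletCharacter ℂ p),
      (Ex.card : ℝ) ≤ (p : ℝ) ^ (1 - β) ∧ (β = 1 / 2 → ∀ χ ∈ Ex, χ = 1) ∧
      ∀ χ : DirichletCharacter ℂ p, χ ∉ Ex → ∀ (A : Finset (ZMod p)) (z : ZMod p)
      (N : ℕ), A.Nonempty → z ≠ 0 → (p : ℝ) ^ ε ≤ N → N ≤ p →
      ((A + (range N).image fun i : ℕ => (i : ZMod p) * z).card : ℝ) ≤ (p : ℝ) ^ τ * A.card →
      (Finset.addEnergy A A : ℝ) * (p : ℝ) ^ (β + ε) ≤ N * (A.card : ℝ) ^ 4 → Sav χ τ A := by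
  classical
  obtain ⟨τ, hτ, p₁, h⟩ := ker_gen (ε / 3) β (by positivity) hβ
  obtain ⟨p₂, hp₂⟩ := large 3 (τ / 3) (by positivity)
  refine ⟨τ / 3, by positivity, p₁ + p₂, ?_⟩
  intro p _ hp
  have hp2 := hp₂ p (by omega)
  have hpR : (1 : ℝ) ≤ p := by exact_mod_cast (Fact.out : p.Prime).one_lt.le
  obtain ⟨Ex, hEx, hEx2, h⟩ := h p (by omega)
  refine ⟨Ex, hEx, hEx2, ?_⟩
  intro χ hχ A z N hA hz hN hNp hAN hE
  have hN0 : 0 < N := by
    have h1 : (0 : ℝ) < N := lt_of_lt_of_le (by positivity) hN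
    exact_mod_cast h1
  have hAN' : ((A + (range N).image fun i : ℕ => (i : ZMod p) * z).card : ℝ) ≤
      (p : ℝ) ^ τ * A.card := by
    refine hAN.trans (mul_le_mul_of_nonneg_right ?_ (Nat.cast_nonneg _))
    exact Real.rpow_le_rpow_of_exponent_le hpR (by linarith)
  have hN' : (p : ℝ) ^ (ε / 3) ≤ N :=
    (Real.rpow_le_rpow_of_exponent_le hpR (by linarith)).trans hN
  have hker := h χ hχ A A z N hz hN' hNp hAN' hAN' (nonconc A hA N hN0 β ε hE)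
  exact Pool.Agent.TH920.QI.conclude (τ / 3) (by positivity) (by linarith) χ A hA (by
    intro η hη f g
    have h1 := hker f g η hη
    rw [Real.mul_self_sqrt (Nat.cast_nonneg _)] at h1
    have e1 : ∑ a ∈ A, ∑ b ∈ A, f a * g b * (χ (a - b) * η (a + b)) =
        ∑ a ∈ A, ∑ b ∈ A, f a * g b * η (a + b) * χ (a - b) := by
      refine sum_congr rfl fun a _ => sum_congr rfl fun b _ => ?_
      ring
    rw [e1]
    refine h1.trans (le_of_eq ?_)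
    have e2 : -(3 * (τ / 3)) = -τ := by ring
    rw [e2]
    ring)

/-- sets nearly invariant under a set of bounded doubling -/
theorem doub_gen (ε K β : ℝ) (hε : 0 < ε) (hβ : β ≤ 1 / 2) : ∃ κ : ℝ, 0 < κ ∧ ∃ τ : ℝ, 0 < τ ∧
    ∃ p₀ : ℕ, ∀ (p : ℕ) [Fact p.Prime], p₀ ≤ p → ∃ Ex : Finset (DirichletCharacter ℂ p),
      (Ex.card : ℝ) ≤ (p : ℝ) ^ (1 - β) ∧ (β = 1 / 2 → ∀ χ ∈ Ex, χ = 1) ∧
      ∀ χ : DirichletCharacter ℂ p, χ ∉ Ex → ∀ A P : Finset (ZMod p), A.Nonempty →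
      (p : ℝ) ^ ε ≤ P.card → ((P + P).card : ℝ) ≤ K * P.card →
      ((A + P).card : ℝ) ≤ (p : ℝ) ^ τ * A.card →
      (Finset.addEnergy A A : ℝ) ≤ (p : ℝ) ^ (-β + κ) * (A.card : ℝ) ^ 4 → Sav χ τ A := by
  classical
  obtain ⟨ε', hε', C, hC, p₁, hap⟩ := ap_inv ε K hε
  obtain ⟨ε₂, hε₂⟩ : ∃ x : ℝ, x = min ε' 1 / 2 := ⟨_, rfl⟩
  have hε₂0 : 0 < ε₂ := by
    rw [hε₂]
    have : 0 < min ε' 1 := lt_min hε' one_pos
    positivity
  have hε₂1 : 2 * ε₂ ≤ ε' := by rw [hε₂]; linarith [min_le_left ε' 1]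
  have hε₂2 : 2 * ε₂ ≤ 1 := by rw [hε₂]; linarith [min_le_right ε' 1]
  obtain ⟨τ, hτ, p₂, h⟩ := energy_gen ε₂ β hε₂0 hβ
  obtain ⟨τ', hτ'⟩ : ∃ x : ℝ, x = min τ 1 / 2 := ⟨_, rfl⟩
  have hτ'0 : 0 < τ' := by
    rw [hτ']
    have : 0 < min τ 1 := lt_min hτ one_pos
    positivity
  have hτ'1 : 2 * τ' ≤ τ := by rw [hτ']; linarith [min_le_left τ 1]
  have hτ'2 : 2 * τ' ≤ 1 := by rw [hτ']; linarith [min_le_right τ 1]
  obtain ⟨τ₁, hτ₁⟩ : ∃ x : ℝ, x = min τ 1 := ⟨_, rfl⟩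
  obtain ⟨p₃, hp₃⟩ := large C τ' hτ'0
  refine ⟨ε₂, hε₂0, τ', hτ'0, p₁ + p₂ + p₃, ?_⟩
  intro p _ hp
  have hp3 := hp₃ p (by omega)
  have hpR : (1 : ℝ) ≤ p := by exact_mod_cast (Fact.out : p.Prime).one_lt.le
  have hp0 : (0 : ℝ) < p := by linarith
  obtain ⟨Ex, hEx, hEx2, h⟩ := h p (by omega)
  refine ⟨Ex, hEx, hEx2, ?_⟩
  intro χ hχ A P hA hP hPK hAP hE
  obtain ⟨z, N, hz, hN, hAN⟩ := hap p (by omega) A P hP hPK
  have hmin : (p : ℝ) ^ (2 * ε₂) ≤ (min N p : ℕ) := by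
    rw [Nat.cast_min]
    refine le_min ((Real.rpow_le_rpow_of_exponent_le hpR hε₂1).trans hN) ?_
    calc (p : ℝ) ^ (2 * ε₂) ≤ (p : ℝ) ^ (1 : ℝ) := Real.rpow_le_rpow_of_exponent_le hpR hε₂2
      _ = p := Real.rpow_one _
  have hsub : (A + (range (min N p)).image fun i : ℕ => (i : ZMod p) * z) ⊆
      (A + (range N).image fun i : ℕ => (i : ZMod p) * z) := by
    refine add_subset_add_left (image_subset_image ?_)
    exact range_subset_range.2 (min_le_left _ _)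
  have hinv : ((A + (range (min N p)).image fun i : ℕ => (i : ZMod p) * z).card : ℝ) ≤
      (p : ℝ) ^ (2 * τ') * A.card := by
    calc _ ≤ ((A + (range N).image fun i : ℕ => (i : ZMod p) * z).card : ℝ) := by
          exact_mod_cast card_le_card hsub
      _ ≤ C * ((A + P).card : ℝ) := hAN
      _ ≤ (p : ℝ) ^ τ' * ((p : ℝ) ^ τ' * A.card) :=
          mul_le_mul hp3 hAP (Nat.cast_nonneg _) (by positivity)
      _ = _ := by
          rw [← mul_assoc, ← Real.rpow_add hp0]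
          congr 2
          ring
  have hinv2 : ((A + (range (min N p)).image fun i : ℕ => (i : ZMod p) * z).card : ℝ) ≤
      (p : ℝ) ^ τ * A.card := by
    refine hinv.trans (mul_le_mul_of_nonneg_right ?_ (Nat.cast_nonneg _))
    exact Real.rpow_le_rpow_of_exponent_le hpR hτ'1
  have hE2 : (Finset.addEnergy A A : ℝ) * (p : ℝ) ^ (β + ε₂) ≤
      (min N p : ℕ) * (A.card : ℝ) ^ 4 := by
    calc (Finset.addEnergy A A : ℝ) * (p : ℝ) ^ (β + ε₂) ≤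
          ((p : ℝ) ^ (-β + ε₂) * (A.card : ℝ) ^ 4) * (p : ℝ) ^ (β + ε₂) :=
          mul_le_mul_of_nonneg_right hE (by positivity)
      _ = (p : ℝ) ^ (2 * ε₂) * (A.card : ℝ) ^ 4 := by
          have e : (p : ℝ) ^ (2 * ε₂) = (p : ℝ) ^ (-β + ε₂) * (p : ℝ) ^ (β + ε₂) := by
            rw [← Real.rpow_add hp0]
            congr 1
            ring
          rw [e]
          ring
      _ ≤ _ := mul_le_mul_of_nonneg_right hmin (by positivity)
  have hsav := h χ hχ A z (min N p) hA hz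
    ((Real.rpow_le_rpow_of_exponent_le hpR (by linarith)).trans hmin) (min_le_right _ _) hinv2 hE2
  by_cases hτ2 : τ < 2
  · exact sav_mono χ τ τ' (by linarith) hτ2 A hA hsav
  · -- an excessive exponent is impossible unless the statement is trivial
    have hτ2 := not_lt.1 hτ2
    have hA1 : (1 : ℝ) ≤ A.card := by exact_mod_cast hA.card_pos
    refine ⟨fun f g hh hhb => ?_, fun A' hA' hAA' u v α β' γ δ huv hdet hpole D hD => ?_⟩
    · refine (hsav.1 f g hh hhb).trans (mul_le_mul_of_nonneg_right ?_ (by positivity))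
      exact Real.rpow_le_rpow_of_exponent_le hA1 (by linarith)
    · have hAA2 : (A.card : ℝ) ≤ (p : ℝ) ^ τ * A'.card := by
        refine hAA'.trans (mul_le_mul_of_nonneg_right ?_ (Nat.cast_nonneg _))
        exact Real.rpow_le_rpow_of_exponent_le hpR (by linarith)
      have h1 := hsav.2 A' hA' hAA2 u v α β' γ δ huv hdet hpole D hD
      have hA'ne : A'.Nonempty := by
        rw [Finset.nonempty_iff_ne_empty]
        intro h0
        rw [h0, card_empty, Nat.cast_zero, mul_zero] at hAA'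
        linarith
      have hDne : D.Nonempty := by
        rw [hD]
        exact hA'ne.image _
      have hD2 : (1 : ℝ) ≤ D.card := by exact_mod_cast hDne.card_pos
      exact lt_of_lt_of_le h1 (Real.rpow_le_rpow_of_exponent_le hD2 (by linarith))

end Pool.Agent.Y881.BI
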