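import Pool.Agent.Y881.BI.Inst

set_option autoImplicit false
set_option linter.unusedSectionVars false

/-! # Thick sets: the sizes of the exceptional sets -/

open Finset
open scoped Pointwise

namespace Pool.Agent.Y881.BI

open Pool.Agent.Y881.SP Pool.Agent.TH7.PG Pool.Agent.Y881.DS

/-- two directions -/
theorem sizes2 (e : ℝ) (he : 0 < e) (he1 : e ≤ 1) : ∃ σ : ℝ, 0 < σ ∧ ∃ p₀ : ℕ,
    ∀ (p : ℕ) [Fact p.Prime], p₀ ≤ p → ∀ χ : DirichletCharacter ℂ p, χ ≠ 1 →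
      ∃ (L : ℕ) (Bd : ℝ), 1 ≤ L ∧ (L : ℝ) ≤ (p : ℝ) ^ e ∧ 0 ≤ Bd ∧
        Real.sqrt ((1 + Bd) / L) ≤ 2 * (p : ℝ) ^ (-σ) ∧
        ∀ θ : ZMod p, θ ≠ 0 → ((Bad χ L Bd θ).card : ℝ) ≤ (p : ℝ) ^ (1 / 2 + e) := by
  classical
  obtain ⟨κ, hκ⟩ : ∃ x : ℝ, x = e / 8 := ⟨_, rfl⟩
  have hκ0 : 0 < κ := by rw [hκ]; positivity
  obtain ⟨d, hd⟩ : ∃ x : ℝ, x = e / 16 := ⟨_, rfl⟩
  have hd0 : 0 < d := by rw [hd]; positivity
  set k : ℕ := ⌈1 / κ⌉₊ with hk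
  have hκ1 : κ ≤ 1 := by linarith
  have hk1 : 1 ≤ κ * k := by
    have h1 : 1 / κ ≤ k := Nat.le_ceil _
    rw [div_le_iff₀ hκ0] at h1
    linarith
  have hk2 : κ * k ≤ 2 := by
    have h1 : (k : ℝ) < 1 / κ + 1 := Nat.ceil_lt_add_one (by positivity)
    have h2 : κ * k < κ * (1 / κ + 1) := mul_lt_mul_of_pos_left h1 hκ0
    have h3 : κ * (1 / κ + 1) = 1 + κ := by
      field_simp
    linarith
  set C₁ : ℝ := (4 * k : ℝ) ^ (2 * k) * 2 ^ k + 4 * k with hC₁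
  obtain ⟨p₁, hp₁⟩ := large 2 κ hκ0
  obtain ⟨p₂, hp₂⟩ := large C₁ (e / 4) (by positivity)
  refine ⟨κ * d / 2, by positivity, p₁ + p₂, ?_⟩
  intro p _ hp χ hχ
  have hp1 := hp₁ p (by omega)
  have hp2 := hp₂ p (by omega)
  have hpR : (1 : ℝ) ≤ p := by exact_mod_cast (Fact.out : p.Prime).one_lt.le
  have hp0 : (0 : ℝ) < p := by linarith
  set L : ℕ := ⌊(p : ℝ) ^ κ⌋₊ with hL
  have hLle : (L : ℝ) ≤ (p : ℝ) ^ κ := Nat.floor_le (by positivity)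
  have hLge : (p : ℝ) ^ κ / 2 ≤ L := by
    have := Nat.lt_floor_add_one ((p : ℝ) ^ κ)
    rw [← hL] at this
    linarith
  have hL1 : 1 ≤ L := by
    rw [hL]
    exact Nat.le_floor (by push_cast; linarith)
  have hL1' : (1 : ℝ) ≤ L := by exact_mod_cast hL1
  have hLp : L ≤ p := by
    have h1 : (L : ℝ) ≤ p := by
      refine hLle.trans ?_
      calc (p : ℝ) ^ κ ≤ (p : ℝ) ^ (1 : ℝ) := Real.rpow_le_rpow_of_exponent_le hpR hκ1
        _ = p := Real.rpow_one _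
    exact_mod_cast h1
  set Bd : ℝ := (L : ℝ) ^ (1 - d) with hBd
  have hLpos : (0 : ℝ) < L := by linarith
  have hBd0 : 0 < Bd := by positivity
  refine ⟨L, Bd, hL1, hLle.trans (Real.rpow_le_rpow_of_exponent_le hpR (by rw [hκ]; linarith)),
    hBd0.le, R_num p κ d L hpR hκ0 hd0 (by rw [hd]; linarith) hL1' hLge, fun θ hθ => ?_⟩
  set G : ℝ := ((4 * k : ℝ) ^ (2 * k) * (L : ℝ) ^ k * p +
    (4 * k) * (L : ℝ) ^ (2 * k) * Real.sqrt p) / Bd ^ (2 * k) with hG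
  have hG0 : 0 ≤ G := by positivity
  have hX : ((Bad χ L Bd θ).card : ℝ) ≤ (L : ℝ) ^ 2 * G :=
    bad_card χ L hLp Bd G hG0 (fun h hh => G_bound χ hχ k L hL1 hLp Bd hBd0 h hh) _ hθ
  have hMle : (L : ℝ) ^ 2 * G ≤ C₁ * (p : ℝ) ^ (1 / 2 + 4 * d + 2 * κ) :=
    M_num p κ d k L hpR hκ0 hd0 (by rw [hd]; linarith) hk1 hk2 hL1' hLge hLle
  refine hX.trans (hMle.trans ?_)
  calc C₁ * (p : ℝ) ^ (1 / 2 + 4 * d + 2 * κ) ≤
        (p : ℝ) ^ (e / 4) * (p : ℝ) ^ (1 / 2 + 4 * d + 2 * κ) :=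
        mul_le_mul_of_nonneg_right hp2 (by positivity)
    _ = (p : ℝ) ^ (e / 4 + (1 / 2 + 4 * d + 2 * κ)) := by rw [← Real.rpow_add hp0]
    _ ≤ (p : ℝ) ^ (1 / 2 + e) := by
        refine Real.rpow_le_rpow_of_exponent_le hpR ?_
        rw [hd, hκ]
        linarith

open Pool.Agent.TH920.QI in
/-- one direction -/
theorem sizes3 (e : ℝ) (he : 0 < e) (he1 : e ≤ 1) : ∃ σ : ℝ, 0 < σ ∧ ∃ p₀ : ℕ,
    ∀ (p : ℕ) [Fact p.Prime], p₀ ≤ p → ∃ (L : ℕ) (_ : NeZero (2 * L)) (T : ℝ), 1 ≤ L ∧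
      (L : ℝ) ≤ (p : ℝ) ^ e ∧ 0 ≤ T ∧ Real.sqrt (2 * L * (1 + T)) / L ≤ 2 * (p : ℝ) ^ (-σ) ∧
      (∀ χ : DirichletCharacter ℂ p, χ ≠ 1 →
        ((Bad3 L χ T).card : ℝ) ≤ (p : ℝ) ^ (1 / 2 + e)) ∧
      ∀ β : ℝ, ({χ : DirichletCharacter ℂ p |
        (p : ℝ) ^ (β + e) < ((Bad3 L χ T).card : ℝ)}.ncard : ℝ) ≤ (p : ℝ) ^ (1 - β) := by
  classical
  obtain ⟨κ, hκ⟩ : ∃ x : ℝ, x = e / 8 := ⟨_, rfl⟩
  have hκ0 : 0 < κ := by rw [hκ]; positivity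
  have hκ8 : κ ≤ 1 / 8 := by rw [hκ]; linarith
  set k : ℕ := ⌈2 / κ⌉₊ with hk
  have hkκ : 2 / κ ≤ k := Nat.le_ceil _
  have hk16 : (1 : ℝ) ≤ k := by
    refine le_trans ?_ hkκ
    rw [le_div_iff₀ hκ0]
    linarith
  have hk1 : 1 ≤ k := by exact_mod_cast hk16
  have hk0 : (0 : ℝ) < k := by linarith
  have hkκ2 : 1 ≤ κ / 2 * k := by
    rw [div_le_iff₀ hκ0] at hkκ
    linarith
  set C₁ : ℝ := 4 * (((12 * k : ℕ) : ℝ) ^ (2 * k) * 2 ^ k + 4 * k * 4 ^ k) with hC₁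
  set C₂ : ℝ := 4 * 4 ^ k * (((12 * k : ℕ) : ℝ) ^ (2 * k) + 2 * k) with hC₂
  obtain ⟨p₁, hp₁⟩ := large 2 (κ / 2) (by positivity)
  obtain ⟨p₂, hp₂⟩ := large C₁ (e / 2) (by positivity)
  obtain ⟨p₃, hp₃⟩ := large C₂ (e / 2) (by positivity)
  obtain ⟨p₄, hp₄⟩ := large 4 (κ / (8 * k)) (by positivity)
  obtain ⟨p₅, hp₅⟩ := large 6 (1 / 2) (by norm_num)
  refine ⟨κ / (16 * k), by positivity, p₁ + p₂ + p₃ + p₄ + p₅, ?_⟩
  intro p _ hp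
  have hp1 := hp₁ p (by omega)
  have hp2 := hp₂ p (by omega)
  have hp3 := hp₃ p (by omega)
  have hp4 := hp₄ p (by omega)
  have hp5 := hp₅ p (by omega)
  have hpR : (1 : ℝ) ≤ p := by exact_mod_cast (Fact.out : p.Prime).one_lt.le
  have hp0 : (0 : ℝ) < p := by linarith
  set L : ℕ := ⌊(p : ℝ) ^ κ⌋₊ with hL
  have hLle : (L : ℝ) ≤ (p : ℝ) ^ κ := Nat.floor_le (by positivity)
  have hhalf : (p : ℝ) ^ κ = (p : ℝ) ^ (κ / 2) * (p : ℝ) ^ (κ / 2) := by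
    rw [← Real.rpow_add hp0]; congr 1; ring
  have hLge : (p : ℝ) ^ (κ / 2) ≤ L := by
    have h1 := Nat.lt_floor_add_one ((p : ℝ) ^ κ)
    rw [← hL] at h1
    have h2 : 2 * (p : ℝ) ^ (κ / 2) ≤ (p : ℝ) ^ κ := by
      rw [hhalf]
      exact mul_le_mul_of_nonneg_right hp1 (by positivity)
    linarith
  have hL1' : (1 : ℝ) ≤ L := by linarith
  have hL1 : 1 ≤ L := by exact_mod_cast hL1'
  have hL0 : (0 : ℝ) < L := by linarith
  have hNZ : NeZero (2 * L) := ⟨by omega⟩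
  have h6L : 6 * L ≤ p := by
    have h1 : (6 : ℝ) * L ≤ p := by
      calc (6 : ℝ) * L ≤ (p : ℝ) ^ (1 / 2 : ℝ) * (p : ℝ) ^ κ :=
            mul_le_mul hp5 hLle hL0.le (by positivity)
        _ = (p : ℝ) ^ (1 / 2 + κ) := by rw [← Real.rpow_add hp0]
        _ ≤ (p : ℝ) ^ (1 : ℝ) := Real.rpow_le_rpow_of_exponent_le hpR (by linarith)
        _ = p := Real.rpow_one _
    exact_mod_cast h1
  have hpLk : (p : ℝ) ≤ (L : ℝ) ^ k := by
    calc (p : ℝ) = (p : ℝ) ^ (1 : ℝ) := (Real.rpow_one _).symm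
      _ ≤ (p : ℝ) ^ (κ / 2 * k) := Real.rpow_le_rpow_of_exponent_le hpR hkκ2
      _ = ((p : ℝ) ^ (κ / 2)) ^ k := by rw [Real.rpow_mul hp0.le, Real.rpow_natCast]
      _ ≤ (L : ℝ) ^ k := pow_le_pow_left₀ (by positivity) hLge k
  have hspLk : Real.sqrt p ≤ (L : ℝ) ^ k := by
    refine le_trans ?_ hpLk
    rw [Real.sqrt_le_left hp0.le]
    nlinarith
  have hL3 : (L : ℝ) ^ 3 ≤ (p : ℝ) ^ (3 * κ) := by
    calc (L : ℝ) ^ 3 ≤ ((p : ℝ) ^ κ) ^ 3 := pow_le_pow_left₀ hL0.le hLle 3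
      _ = _ := by
          rw [← Real.rpow_natCast, ← Real.rpow_mul hp0.le]; congr 1; push_cast; ring
  set T : ℝ := (L : ℝ) ^ (1 - 1 / (2 * (k : ℝ))) with hT
  have hT0 : 0 ≤ T := by positivity
  refine ⟨L, hNZ, T, hL1,
    hLle.trans (Real.rpow_le_rpow_of_exponent_le hpR (by rw [hκ]; linarith)), hT0, ?_, ?_, ?_⟩
  · have h4 : (4 : ℝ) ≤ (L : ℝ) ^ (1 / (4 * (k : ℝ))) := by
      refine hp4.trans ?_
      calc (p : ℝ) ^ (κ / (8 * k)) = ((p : ℝ) ^ (κ / 2)) ^ (1 / (4 * (k : ℝ))) := by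
            rw [← Real.rpow_mul hp0.le]
            congr 1
            field_simp
            ring
        _ ≤ _ := Real.rpow_le_rpow (by positivity) hLge (by positivity)
    have h5 := sqrt_size L k hL1 hk1 h4
    rw [← hT] at h5
    rw [div_le_iff₀ hL0]
    refine h5.trans ?_
    have e1 : (L : ℝ) ^ (1 - 1 / (2 * ((4 * k : ℕ) : ℝ))) =
        (L : ℝ) ^ (-(1 / (8 * (k : ℝ)))) * L := by
      have e2 : (L : ℝ) ^ (-(1 / (8 * (k : ℝ)))) * L = (L : ℝ) ^ (-(1 / (8 * (k : ℝ))) + 1) := by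
        rw [Real.rpow_add_one hL0.ne']
      rw [e2]
      congr 1
      push_cast
      ring
    rw [e1]
    refine mul_le_mul_of_nonneg_right ?_ hL0.le
    calc (L : ℝ) ^ (-(1 / (8 * (k : ℝ)))) ≤ ((p : ℝ) ^ (κ / 2)) ^ (-(1 / (8 * (k : ℝ)))) :=
          Real.rpow_le_rpow_of_nonpos (by positivity) hLge
            (by rw [Left.neg_nonpos_iff]; positivity)
      _ = (p : ℝ) ^ (-(κ / (16 * k))) := by
          rw [← Real.rpow_mul hp0.le]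
          congr 1
          field_simp
          ring
      _ ≤ 2 * (p : ℝ) ^ (-(κ / (16 * k))) := by
          have : 0 < (p : ℝ) ^ (-(κ / (16 * k))) := by positivity
          linarith
  · intro χ hχ
    have h1 := bad3_small L h6L hL1 k hk1 hspLk χ hχ
    rw [← hT, ← hC₁] at h1
    refine h1.trans ?_
    calc C₁ * ((L : ℝ) ^ 3 * Real.sqrt p) ≤
          (p : ℝ) ^ (e / 2) * ((p : ℝ) ^ (3 * κ) * (p : ℝ) ^ (1 / 2 : ℝ)) := by
          rw [Real.sqrt_eq_rpow]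
          exact mul_le_mul hp2 (mul_le_mul_of_nonneg_right hL3 (by positivity)) (by positivity)
            (by positivity)
      _ = (p : ℝ) ^ (e / 2 + (3 * κ + 1 / 2)) := by
          rw [← Real.rpow_add hp0, ← Real.rpow_add hp0]
      _ ≤ _ := Real.rpow_le_rpow_of_exponent_le hpR (by rw [hκ]; linarith)
  · intro β
    have hXpos : 0 < (p : ℝ) ^ (β + e) := by positivity
    have h1 := exc_card3 (p := p) L k h6L hL1 hk1 hpLk ((p : ℝ) ^ (β + e)) hXpos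
    rw [← hT, ← hC₂] at h1
    refine h1.trans ?_
    rw [div_le_iff₀ hXpos]
    calc C₂ * p * (L : ℝ) ^ 3 ≤ (p : ℝ) ^ (e / 2) * p * (p : ℝ) ^ (3 * κ) := by
          refine mul_le_mul (mul_le_mul_of_nonneg_right hp3 hp0.le) hL3 (by positivity)
            (by positivity)
      _ = (p : ℝ) ^ (e / 2 + 1 + 3 * κ) := by
          rw [Real.rpow_add hp0, Real.rpow_add hp0, Real.rpow_one]
      _ ≤ (p : ℝ) ^ ((1 - β) + (β + e)) :=
          Real.rpow_le_rpow_of_exponent_le hpR (by rw [hκ]; linarith)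
      _ = _ := by rw [Real.rpow_add hp0]

end Pool.Agent.Y881.BI
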