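import Pool.Agent.Y881.BI.Main

set_option autoImplicit false
set_option linter.unusedSectionVars false

/-! # Thick sets: unions of sets nearly invariant under progressions with different steps -/

open Finset
open scoped Pointwise

namespace Pool.Agent.Y881.BI

open Pool.Agent.Y881.SP Pool.Agent.TH7.PG Pool.Agent.Y881.DS

section
variable {p : ℕ} [Fact p.Prime]

theorem mob_of_norm (χ : DirichletCharacter ℂ p) (A : Finset (ZMod p)) (hne : A.Nonempty)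
    (τ₁ τ : ℝ) (hτ0 : 0 < τ) (hτ2 : τ ≤ τ₁ / 4)
    (h : ∀ f g : ZMod p → ℂ, ‖∑ a ∈ A, ∑ b ∈ A, f a * g b * χ (a - b)‖ ≤ (p : ℝ) ^ (-τ₁) *
        ((Real.sqrt A.card * Real.sqrt A.card) *
          (Real.sqrt (∑ a ∈ A, ‖f a‖ ^ 2) * Real.sqrt (∑ b ∈ A, ‖g b‖ ^ 2))))
    (A' : Finset (ZMod p)) (hA' : A' ⊆ A) (hAA' : (A.card : ℝ) ≤ (p : ℝ) ^ τ * A'.card)
    (α β γ δ : ZMod p) (hdet : α * δ - β * γ ≠ 0) (hpole : ∀ a ∈ A', γ * a + δ ≠ 0)
    (C : Finset (ZMod p)) (hC : C = (A'.image fun a => (α * a + β) * (γ * a + δ)⁻¹)) :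
    ‖∑ x ∈ C, ∑ y ∈ C, χ (x - y)‖ < (C.card : ℝ) ^ (2 - τ) := by
  classical
  have hp1 : (1 : ℝ) < p := by exact_mod_cast (Fact.out : p.Prime).one_lt
  have hp0 : (0 : ℝ) < p := by linarith
  have hAc : (0 : ℝ) < A.card := by exact_mod_cast hne.card_pos
  have hA'c : (0 : ℝ) < A'.card := by
    by_contra hcon
    have h1 : (A'.card : ℝ) = 0 := le_antisymm (not_lt.1 hcon) (Nat.cast_nonneg _)
    rw [h1, mul_zero] at hAA'
    linarith
  have hinj : Set.InjOn (fun a => (α * a + β) * (γ * a + δ)⁻¹) (A' : Set (ZMod p)) := by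
    intro a ha b hb hab
    have h1 := mob_sub α β γ δ a b (hpole a (mem_coe.1 ha)) (hpole b (mem_coe.1 hb))
    have h2 : (α * a + β) * (γ * a + δ)⁻¹ - (α * b + β) * (γ * b + δ)⁻¹ = 0 :=
      sub_eq_zero.2 hab
    rw [h2] at h1
    rcases mul_eq_zero.1 h1.symm with h3 | h3
    · rcases mul_eq_zero.1 h3 with h4 | h4
      · exact absurd h4 hdet
      · exact sub_eq_zero.1 h4
    · rcases mul_eq_zero.1 h3 with h4 | h4
      · exact absurd (inv_eq_zero.1 h4) (hpole a (mem_coe.1 ha))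
      · exact absurd (inv_eq_zero.1 h4) (hpole b (mem_coe.1 hb))
  have hCc : C.card = A'.card := by rw [hC, card_image_of_injOn hinj]
  set f : ZMod p → ℂ := fun a => if a ∈ A' then χ (α * δ - β * γ) * χ ((γ * a + δ)⁻¹) else 0
    with hf
  set g : ZMod p → ℂ := fun a => if a ∈ A' then χ ((γ * a + δ)⁻¹) else 0 with hg
  have hfn : ∀ a, ‖f a‖ ≤ if a ∈ A' then 1 else 0 := by
    intro a
    rw [hf]
    by_cases ha : a ∈ A'
    · simp only [if_pos ha, norm_mul]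
      exact mul_le_one₀ (χ.norm_le_one _) (norm_nonneg _) (χ.norm_le_one _)
    · simp only [if_neg ha, norm_zero, le_refl]
  have hgn : ∀ a, ‖g a‖ ≤ if a ∈ A' then 1 else 0 := by
    intro a
    rw [hg]
    by_cases ha : a ∈ A'
    · simp only [if_pos ha]
      exact χ.norm_le_one _
    · simp only [if_neg ha, norm_zero, le_refl]
  have hnorm : ∀ F : ZMod p → ℂ, (∀ a, ‖F a‖ ≤ if a ∈ A' then 1 else 0) →
      Real.sqrt (∑ a ∈ A, ‖F a‖ ^ 2) ≤ Real.sqrt A'.card := by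
    intro F hF
    refine Real.sqrt_le_sqrt ?_
    calc ∑ a ∈ A, ‖F a‖ ^ 2 ≤ ∑ a ∈ A, (if a ∈ A' then (1 : ℝ) else 0) := by
          refine sum_le_sum fun a _ => ?_
          have h1 := hF a
          by_cases ha : a ∈ A'
          · rw [if_pos ha] at h1 ⊢
            exact pow_le_one₀ (norm_nonneg _) h1
          · rw [if_neg ha] at h1 ⊢
            have : ‖F a‖ = 0 := le_antisymm h1 (norm_nonneg _)
            rw [this]
            norm_num
      _ = ((A.filter fun a => a ∈ A').card : ℝ) := by rw [sum_boole]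
      _ = A'.card := by
          congr 2
          rw [filter_mem_eq_inter]
          exact inter_eq_right.2 hA'
  have hsum : ∑ x ∈ C, ∑ y ∈ C, χ (x - y) = ∑ a ∈ A, ∑ b ∈ A, f a * g b * χ (a - b) := by
    rw [hC, sum_image hinj]
    have e1 : ∀ F : ZMod p → ℂ, ∑ a ∈ A, (if a ∈ A' then F a else 0) = ∑ a ∈ A', F a := by
      intro F
      rw [← sum_filter, filter_mem_eq_inter, inter_eq_right.2 hA']
    have e2 : ∑ a ∈ A, ∑ b ∈ A, f a * g b * χ (a - b) = ∑ a ∈ A, if a ∈ A' then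
        (∑ b ∈ A', χ (α * δ - β * γ) * χ ((γ * a + δ)⁻¹) * χ ((γ * b + δ)⁻¹) * χ (a - b))
          else 0 := by
      refine sum_congr rfl fun a _ => ?_
      by_cases ha : a ∈ A'
      · rw [if_pos ha, ← e1]
        refine sum_congr rfl fun b _ => ?_
        simp only [hf, hg, if_pos ha]
        by_cases hb : b ∈ A'
        · simp only [if_pos hb]
        · simp only [if_neg hb, mul_zero, zero_mul]
      · rw [if_neg ha]
        refine sum_eq_zero fun b _ => ?_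
        simp only [hf, if_neg ha, zero_mul]
    rw [e2, e1]
    refine sum_congr rfl fun a ha => ?_
    rw [sum_image hinj]
    refine sum_congr rfl fun b hb => ?_
    rw [mob_sub α β γ δ a b (hpole a ha) (hpole b hb), map_mul, map_mul, map_mul]
    ring
  have h1 := h f g
  have h2 : (p : ℝ) ^ (-τ₁) * ((Real.sqrt A.card * Real.sqrt A.card) *
      (Real.sqrt (∑ a ∈ A, ‖f a‖ ^ 2) * Real.sqrt (∑ b ∈ A, ‖g b‖ ^ 2))) ≤
      (p : ℝ) ^ (-τ₁) * (A.card * A'.card) := by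
    refine mul_le_mul_of_nonneg_left ?_ (by positivity)
    rw [Real.mul_self_sqrt (Nat.cast_nonneg _)]
    refine mul_le_mul_of_nonneg_left ?_ (Nat.cast_nonneg _)
    calc _ ≤ Real.sqrt A'.card * Real.sqrt A'.card :=
          mul_le_mul (hnorm f hfn) (hnorm g hgn) (Real.sqrt_nonneg _) (Real.sqrt_nonneg _)
      _ = A'.card := Real.mul_self_sqrt (Nat.cast_nonneg _)
  rw [hsum, hCc]
  refine lt_of_le_of_lt (h1.trans h2) ?_
  have hA'p : (A'.card : ℝ) ≤ p := by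
    have := card_le_univ A'
    rw [ZMod.card] at this
    exact_mod_cast this
  have h3 : (A'.card : ℝ) ^ τ ≤ (p : ℝ) ^ τ := Real.rpow_le_rpow hA'c.le hA'p hτ0.le
  have h4 : (A'.card : ℝ) ^ (2 - τ) = (A'.card : ℝ) ^ 2 / (A'.card : ℝ) ^ τ := by
    rw [Real.rpow_sub hA'c, Real.rpow_two]
  rw [h4, lt_div_iff₀ (by positivity)]
  calc (p : ℝ) ^ (-τ₁) * (A.card * A'.card) * (A'.card : ℝ) ^ τ
      ≤ (p : ℝ) ^ (-τ₁) * (((p : ℝ) ^ τ * A'.card) * A'.card) * (p : ℝ) ^ τ := by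
        refine mul_le_mul ?_ h3 (by positivity) (by positivity)
        refine mul_le_mul_of_nonneg_left ?_ (by positivity)
        exact mul_le_mul_of_nonneg_right hAA' hA'c.le
    _ = (p : ℝ) ^ (-τ₁ + τ + τ) * (A'.card : ℝ) ^ 2 := by
        rw [Real.rpow_add hp0, Real.rpow_add hp0]
        ring
    _ < 1 * (A'.card : ℝ) ^ 2 := by
        refine mul_lt_mul_of_pos_right ?_ (by positivity)
        exact Real.rpow_lt_one_of_one_lt_of_neg hp1 (by linarith)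
    _ = _ := one_mul _


end

/-- unions of thick sets with different steps -/
theorem union_sets (ε : ℝ) (hε : 0 < ε) : ∃ τ : ℝ, 0 < τ ∧ ∃ p₀ : ℕ, ∀ (p : ℕ) [Fact p.Prime],
    p₀ ≤ p → ∀ χ : DirichletCharacter ℂ p, χ ≠ 1 → ∀ (n : ℕ) (A : Fin n → Finset (ZMod p))
      (z : Fin n → ZMod p) (N : Fin n → ℕ), (∀ i, z i ≠ 0) → (∀ i, (p : ℝ) ^ ε ≤ N i) →
      (∀ i, N i ≤ p) → (∀ i, ((A i + (range (N i)).image fun j : ℕ => (j : ZMod p) * z i).card : ℝ)
        ≤ (p : ℝ) ^ τ * (A i).card) → (∀ i, (p : ℝ) ^ (1 / 2 + ε) ≤ (A i).card * N i) →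
      (∀ i j, i ≠ j → Disjoint (A i) (A j)) → ∀ D : Finset (ZMod p), D = univ.biUnion A →
      ∀ f g : ZMod p → ℂ, ‖∑ a ∈ D, ∑ b ∈ D, f a * g b * χ (a - b)‖ ≤ (p : ℝ) ^ (-τ) *
        ((Real.sqrt D.card * Real.sqrt D.card) *
          (Real.sqrt (∑ a ∈ D, ‖f a‖ ^ 2) * Real.sqrt (∑ b ∈ D, ‖g b‖ ^ 2))) := by
  classical
  obtain ⟨τ, hτ, p₀, h⟩ := two_dir (ε / 2) (by positivity)
  refine ⟨τ, hτ, p₀, ?_⟩
  intro p _ hp χ hχ n A z N hz hN hNp hA hAN hdisj D hD f g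
  have hpR : (1 : ℝ) ≤ p := by exact_mod_cast (Fact.out : p.Prime).one_lt.le
  have hp0 : (0 : ℝ) < p := by linarith
  -- one pair
  have hcount : ∀ (X Y Z : Finset (ZMod p)) (M : ℕ), (p : ℝ) ^ (1 / 2 + ε) ≤ (X.card : ℝ) * M →
      0 < M → (Z.card : ℝ) * M ≤ (p : ℝ) ^ (1 / 2 + ε / 2) →
      (Z.card : ℝ) * Y.card ≤ (p : ℝ) ^ (-(ε / 2)) * (X.card * Y.card) := by
    intro X Y Z M hX hM hZ
    have hM0 : (0 : ℝ) < M := by exact_mod_cast hM
    have h1 : (Z.card : ℝ) * M ≤ ((p : ℝ) ^ (-(ε / 2)) * X.card) * M := by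
      calc (Z.card : ℝ) * M ≤ (p : ℝ) ^ (1 / 2 + ε / 2) := hZ
        _ = (p : ℝ) ^ (-(ε / 2)) * (p : ℝ) ^ (1 / 2 + ε) := by
            rw [← Real.rpow_add hp0]; congr 1; ring
        _ ≤ (p : ℝ) ^ (-(ε / 2)) * (X.card * M) := mul_le_mul_of_nonneg_left hX (by positivity)
        _ = _ := by ring
    have h2 : (Z.card : ℝ) ≤ (p : ℝ) ^ (-(ε / 2)) * X.card := le_of_mul_le_mul_right h1 hM0
    calc (Z.card : ℝ) * Y.card ≤ ((p : ℝ) ^ (-(ε / 2)) * X.card) * Y.card :=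
          mul_le_mul_of_nonneg_right h2 (Nat.cast_nonneg _)
      _ = _ := by ring
  have hNpos : ∀ i, 0 < N i := by
    intro i
    have h1 : (0 : ℝ) < N i := lt_of_lt_of_le (by positivity) (hN i)
    exact_mod_cast h1
  have hpair : ∀ i j, ‖∑ a ∈ A i, ∑ b ∈ A j, f a * g b * χ (a - b)‖ ≤ (p : ℝ) ^ (-τ) *
        ((Real.sqrt (A i).card * Real.sqrt (A j).card) *
          (Real.sqrt (∑ a ∈ A i, ‖f a‖ ^ 2) * Real.sqrt (∑ b ∈ A j, ‖g b‖ ^ 2))) := by
    intro i j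
    have hsub : ∀ k, min (N i) (N j) ≤ N k →
        ((A k + (range (min (N i) (N j))).image fun l : ℕ => (l : ZMod p) * z k).card : ℝ) ≤
          (p : ℝ) ^ τ * (A k).card := by
      intro k hk
      refine le_trans ?_ (hA k)
      have h1 : (A k + (range (min (N i) (N j))).image fun l : ℕ => (l : ZMod p) * z k) ⊆
          (A k + (range (N k)).image fun l : ℕ => (l : ZMod p) * z k) :=
        add_subset_add_left (image_subset_image (range_subset_range.2 hk))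
      exact_mod_cast card_le_card h1
    refine h p hp χ hχ (A i) (A j) (z i) (z j) (min (N i) (N j)) (hz i) (hz j) ?_
      ((min_le_left _ _).trans (hNp i)) (hsub i (min_le_left _ _)) (hsub j (min_le_right _ _))
      ?_ f g
    · rw [Nat.cast_min]
      exact le_min ((Real.rpow_le_rpow_of_exponent_le hpR (by linarith)).trans (hN i))
        ((Real.rpow_le_rpow_of_exponent_le hpR (by linarith)).trans (hN j))
    · intro Z hZ
      have hc1 : ((A i ×ˢ A j).filter fun t => t.1 - t.2 ∈ Z).card ≤ Z.card * (A j).card := by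
        rw [← card_product]
        refine card_le_card_of_injOn (fun t => (t.1 - t.2, t.2)) ?_ ?_
        · intro t ht
          have h2 := mem_filter.1 (mem_coe.1 ht)
          exact mem_coe.2 (mem_product.2 ⟨h2.2, (mem_product.1 h2.1).2⟩)
        · intro a _ b _ hab
          have h2 := Prod.ext_iff.1 hab
          have h3 : a.2 = b.2 := h2.2
          have h4 : a.1 - a.2 = b.1 - b.2 := h2.1
          rw [h3] at h4
          exact Prod.ext (sub_left_inj.1 h4) h3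
      have hc2 : ((A i ×ˢ A j).filter fun t => t.1 - t.2 ∈ Z).card ≤ Z.card * (A i).card := by
        rw [← card_product]
        refine card_le_card_of_injOn (fun t => (t.1 - t.2, t.1)) ?_ ?_
        · intro t ht
          have h2 := mem_filter.1 (mem_coe.1 ht)
          exact mem_coe.2 (mem_product.2 ⟨h2.2, (mem_product.1 h2.1).1⟩)
        · intro a _ b _ hab
          have h2 := Prod.ext_iff.1 hab
          have h3 : a.1 = b.1 := h2.2
          have h4 : a.1 - a.2 = b.1 - b.2 := h2.1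
          rw [h3] at h4
          exact Prod.ext h3 (sub_right_inj.1 h4)
      rcases le_total (N i) (N j) with hij | hij
      · rw [min_eq_left hij] at hZ
        have h3 := hcount (A i) (A j) Z (N i) (hAN i) (hNpos i) hZ
        refine le_trans ?_ h3
        exact_mod_cast hc1
      · rw [min_eq_right hij] at hZ
        have h3 := hcount (A j) (A i) Z (N j) (hAN j) (hNpos j) hZ
        have h4 : (((A i ×ˢ A j).filter fun t => t.1 - t.2 ∈ Z).card : ℝ) ≤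
            (Z.card : ℝ) * (A i).card := by exact_mod_cast hc2
        refine h4.trans (h3.trans (le_of_eq ?_))
        ring
  -- all pairs
  have hdis : Set.PairwiseDisjoint (univ : Finset (Fin n)) A := by
    intro i _ j _ hij
    exact hdisj i j hij
  have hsplitR : ∀ F : ZMod p → ℝ, ∑ a ∈ D, F a = ∑ i, ∑ a ∈ A i, F a := by
    intro F
    rw [hD, sum_biUnion hdis]
  have hsplitC : ∀ F : ZMod p → ℂ, ∑ a ∈ D, F a = ∑ i, ∑ a ∈ A i, F a := by
    intro F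
    rw [hD, sum_biUnion hdis]
  have e1 : ∑ a ∈ D, ∑ b ∈ D, f a * g b * χ (a - b) =
      ∑ i, ∑ j, ∑ a ∈ A i, ∑ b ∈ A j, f a * g b * χ (a - b) := by
    rw [hsplitC]
    refine sum_congr rfl fun i _ => ?_
    symm
    rw [sum_comm]
    refine sum_congr rfl fun a _ => ?_
    rw [hsplitC]
  have hDc : (D.card : ℝ) = ∑ i, ((A i).card : ℝ) := by
    have h1 := hsplitR fun _ => (1 : ℝ)
    simpa using h1
  rw [e1]
  have hcs : ∀ F : ZMod p → ℂ, ∑ i, Real.sqrt (A i).card * Real.sqrt (∑ a ∈ A i, ‖F a‖ ^ 2) ≤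
      Real.sqrt D.card * Real.sqrt (∑ a ∈ D, ‖F a‖ ^ 2) := by
    intro F
    have h1 := Finset.sum_mul_sq_le_sq_mul_sq (univ : Finset (Fin n))
      (fun i => Real.sqrt (A i).card) (fun i => Real.sqrt (∑ a ∈ A i, ‖F a‖ ^ 2))
    have h2 : ∑ i, Real.sqrt ((A i).card : ℝ) ^ 2 = D.card := by
      rw [hDc]
      exact sum_congr rfl fun i _ => Real.sq_sqrt (Nat.cast_nonneg _)
    have h3 : ∑ i, Real.sqrt (∑ a ∈ A i, ‖F a‖ ^ 2) ^ 2 = ∑ a ∈ D, ‖F a‖ ^ 2 := by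
      rw [hsplitR]
      exact sum_congr rfl fun i _ => Real.sq_sqrt (sum_nonneg fun _ _ => by positivity)
    rw [h2, h3] at h1
    rw [← Real.sqrt_mul (Nat.cast_nonneg _)]
    exact Real.le_sqrt_of_sq_le h1
  calc ‖∑ i, ∑ j, ∑ a ∈ A i, ∑ b ∈ A j, f a * g b * χ (a - b)‖ ≤
        ∑ i, ∑ j, ‖∑ a ∈ A i, ∑ b ∈ A j, f a * g b * χ (a - b)‖ :=
        (norm_sum_le _ _).trans (sum_le_sum fun i _ => norm_sum_le _ _)
    _ ≤ ∑ i, ∑ j, (p : ℝ) ^ (-τ) *
        ((Real.sqrt (A i).card * Real.sqrt (A j).card) *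
          (Real.sqrt (∑ a ∈ A i, ‖f a‖ ^ 2) * Real.sqrt (∑ b ∈ A j, ‖g b‖ ^ 2))) :=
        sum_le_sum fun i _ => sum_le_sum fun j _ => hpair i j
    _ = (p : ℝ) ^ (-τ) * ((∑ i, Real.sqrt (A i).card * Real.sqrt (∑ a ∈ A i, ‖f a‖ ^ 2)) *
          (∑ j, Real.sqrt (A j).card * Real.sqrt (∑ a ∈ A j, ‖g a‖ ^ 2))) := by
        rw [sum_mul_sum, mul_sum]
        refine sum_congr rfl fun i _ => ?_
        rw [mul_sum]
        refine sum_congr rfl fun j _ => ?_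
        ring
    _ ≤ (p : ℝ) ^ (-τ) * ((Real.sqrt D.card * Real.sqrt (∑ a ∈ D, ‖f a‖ ^ 2)) *
          (Real.sqrt D.card * Real.sqrt (∑ a ∈ D, ‖g a‖ ^ 2))) := by
        refine mul_le_mul_of_nonneg_left ?_ (by positivity)
        exact mul_le_mul (hcs f) (hcs g)
          (sum_nonneg fun _ _ => mul_nonneg (Real.sqrt_nonneg _) (Real.sqrt_nonneg _))
          (mul_nonneg (Real.sqrt_nonneg _) (Real.sqrt_nonneg _))
    _ = _ := by ring

/-- Moebius images of dense subsets of unions of thick sets with different steps -/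
theorem union_q1 (ε : ℝ) (hε : 0 < ε) : ∃ τ : ℝ, 0 < τ ∧ ∃ p₀ : ℕ, ∀ (p : ℕ) [Fact p.Prime],
    p₀ ≤ p → ∀ χ : DirichletCharacter ℂ p, χ ≠ 1 → ∀ (n : ℕ) (A : Fin n → Finset (ZMod p))
      (z : Fin n → ZMod p) (N : Fin n → ℕ), (∀ i, z i ≠ 0) → (∀ i, (p : ℝ) ^ ε ≤ N i) →
      (∀ i, N i ≤ p) → (∀ i, ((A i + (range (N i)).image fun j : ℕ => (j : ZMod p) * z i).card : ℝ)
        ≤ (p : ℝ) ^ τ * (A i).card) → (∀ i, (p : ℝ) ^ (1 / 2 + ε) ≤ (A i).card * N i) →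
      (∀ i j, i ≠ j → Disjoint (A i) (A j)) → ∀ D : Finset (ZMod p), D = univ.biUnion A →
      D.Nonempty →
      (∀ f g : ZMod p → ℂ, ‖∑ a ∈ D, ∑ b ∈ D, f a * g b * χ (a - b)‖ ≤ (p : ℝ) ^ (-τ) *
        (D.card * Real.sqrt ((∑ a ∈ D, ‖f a‖ ^ 2) * ∑ b ∈ D, ‖g b‖ ^ 2))) ∧
      ∀ A' : Finset (ZMod p), A' ⊆ D → (D.card : ℝ) ≤ (p : ℝ) ^ τ * A'.card →
        ∀ α β γ δ : ZMod p, α * δ - β * γ ≠ 0 → (∀ a ∈ A', γ * a + δ ≠ 0) →
          ∀ C : Finset (ZMod p), C = (A'.image fun a => (α * a + β) * (γ * a + δ)⁻¹) →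
            ‖∑ x ∈ C, ∑ y ∈ C, χ (x - y)‖ < (C.card : ℝ) ^ (2 - τ) := by
  classical
  obtain ⟨τ₁, hτ₁, p₀, h⟩ := union_sets ε hε
  refine ⟨τ₁ / 4, by positivity, p₀, ?_⟩
  intro p _ hp χ hχ n A z N hz hN hNp hA hAN hdisj D hD hDne
  have hpR : (1 : ℝ) ≤ p := by exact_mod_cast (Fact.out : p.Prime).one_lt.le
  have hA2 : ∀ i, ((A i + (range (N i)).image fun j : ℕ => (j : ZMod p) * z i).card : ℝ)
        ≤ (p : ℝ) ^ τ₁ * (A i).card := by
    intro i
    refine (hA i).trans (mul_le_mul_of_nonneg_right ?_ (Nat.cast_nonneg _))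
    exact Real.rpow_le_rpow_of_exponent_le hpR (by linarith)
  have hnorm := h p hp χ hχ n A z N hz hN hNp hA2 hAN hdisj D hD
  refine ⟨fun f g => ?_, fun A' hA' hDA α β γ δ hdet hpole C hC => ?_⟩
  · have h1 := hnorm f g
    rw [Real.mul_self_sqrt (Nat.cast_nonneg _), ← Real.sqrt_mul
      (sum_nonneg fun a _ => by positivity)] at h1
    refine h1.trans (mul_le_mul_of_nonneg_right ?_ (by positivity))
    exact Real.rpow_le_rpow_of_exponent_le hpR (by linarith)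
  · exact mob_of_norm χ D hDne τ₁ (τ₁ / 4) (by positivity) le_rfl hnorm A' hA' hDA α β γ δ hdet
      hpole C hC

open Classical in
/-- pairs of sets nearly invariant under sets of bounded doubling -/
theorem doub_pairs (ε K : ℝ) (hε : 0 < ε) : ∃ κ : ℝ, 0 < κ ∧ ∀ ϑ : ℝ, 0 < ϑ →
    ∃ τ : ℝ, 0 < τ ∧ ∃ p₀ : ℕ, ∀ (p : ℕ) [Fact p.Prime], p₀ ≤ p →
    ∀ χ : DirichletCharacter ℂ p, χ ≠ 1 →
    ∀ A B P Q : Finset (ZMod p), (p : ℝ) ^ ε ≤ P.card → (p : ℝ) ^ ε ≤ Q.card →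
      ((P + P).card : ℝ) ≤ K * P.card → ((Q + Q).card : ℝ) ≤ K * Q.card →
      ((A + P).card : ℝ) ≤ (p : ℝ) ^ τ * A.card → ((B + Q).card : ℝ) ≤ (p : ℝ) ^ τ * B.card →
      (∀ X : Finset (ZMod p), (X.card : ℝ) ≤ (p : ℝ) ^ (1 / 2 - κ) →
        (((A ×ˢ B).filter fun t => t.1 - t.2 ∈ X).card : ℝ) ≤
          (p : ℝ) ^ (-ϑ) * (A.card * B.card)) →
      ∀ f g : ZMod p → ℂ, ‖∑ a ∈ A, ∑ b ∈ B, f a * g b * χ (a - b)‖ ≤ (p : ℝ) ^ (-τ) *
        ((Real.sqrt A.card * Real.sqrt B.card) *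
          (Real.sqrt (∑ a ∈ A, ‖f a‖ ^ 2) * Real.sqrt (∑ b ∈ B, ‖g b‖ ^ 2))) := by
  obtain ⟨ε', hε', C, hC, p₁, hap⟩ := ap_inv ε K hε
  obtain ⟨ε₂, hε₂⟩ : ∃ x : ℝ, x = min ε' 1 / 2 := ⟨_, rfl⟩
  have hε₂0 : 0 < ε₂ := by
    rw [hε₂]
    have : 0 < min ε' 1 := lt_min hε' one_pos
    positivity
  have hε₂1 : 2 * ε₂ ≤ ε' := by rw [hε₂]; linarith [min_le_left ε' 1]
  have hε₂2 : 2 * ε₂ ≤ 1 := by rw [hε₂]; linarith [min_le_right ε' 1]
  refine ⟨ε₂, hε₂0, fun ϑ hϑ => ?_⟩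
  obtain ⟨ε₃, hε₃⟩ : ∃ x : ℝ, x = min ε₂ ϑ := ⟨_, rfl⟩
  have hε₃0 : 0 < ε₃ := by rw [hε₃]; exact lt_min hε₂0 hϑ
  have hε₃1 : ε₃ ≤ ε₂ := by rw [hε₃]; exact min_le_left _ _
  have hε₃2 : ε₃ ≤ ϑ := by rw [hε₃]; exact min_le_right _ _
  obtain ⟨τ, hτ, p₂, h⟩ := two_dir ε₃ hε₃0
  obtain ⟨p₃, hp₃⟩ := large C (τ / 2) (by positivity)
  refine ⟨τ / 2, by positivity, p₁ + p₂ + p₃, ?_⟩
  intro p _ hp χ hχ A B P Q hP hQ hPK hQK hA hB hAB f g
  have hp3 := hp₃ p (by omega)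
  have hpR : (1 : ℝ) ≤ p := by exact_mod_cast (Fact.out : p.Prime).one_lt.le
  have hp0 : (0 : ℝ) < p := by linarith
  obtain ⟨z, N, hz, hN, hAN⟩ := hap p (by omega) A P hP hPK
  obtain ⟨z', N', hz', hN', hBN⟩ := hap p (by omega) B Q hQ hQK
  set M : ℕ := min (min N N') p with hM
  have hMge : (p : ℝ) ^ (2 * ε₂) ≤ (M : ℕ) := by
    rw [hM, Nat.cast_min, Nat.cast_min]
    refine le_min (le_min ((Real.rpow_le_rpow_of_exponent_le hpR hε₂1).trans hN)
      ((Real.rpow_le_rpow_of_exponent_le hpR hε₂1).trans hN')) ?_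
    calc (p : ℝ) ^ (2 * ε₂) ≤ (p : ℝ) ^ (1 : ℝ) := Real.rpow_le_rpow_of_exponent_le hpR hε₂2
      _ = p := Real.rpow_one _
  have hinv : ∀ (X Y : Finset (ZMod p)) (y : ZMod p) (m : ℕ), M ≤ m →
      ((X + (range m).image fun i : ℕ => (i : ZMod p) * y).card : ℝ) ≤ C * (X + Y).card →
      ((X + Y).card : ℝ) ≤ (p : ℝ) ^ (τ / 2) * X.card →
      ((X + (range M).image fun i : ℕ => (i : ZMod p) * y).card : ℝ) ≤
        (p : ℝ) ^ τ * X.card := by
    intro X Y y m hm h1 h2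
    have h3 : (X + (range M).image fun i : ℕ => (i : ZMod p) * y) ⊆
        (X + (range m).image fun i : ℕ => (i : ZMod p) * y) :=
      add_subset_add_left (image_subset_image (range_subset_range.2 hm))
    have e : (p : ℝ) ^ τ = (p : ℝ) ^ (τ / 2) * (p : ℝ) ^ (τ / 2) := by
      rw [← Real.rpow_add hp0]; congr 1; ring
    calc _ ≤ ((X + (range m).image fun i : ℕ => (i : ZMod p) * y).card : ℝ) := by
          exact_mod_cast card_le_card h3
      _ ≤ C * ((X + Y).card : ℝ) := h1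
      _ ≤ (p : ℝ) ^ (τ / 2) * ((p : ℝ) ^ (τ / 2) * X.card) :=
          mul_le_mul hp3 h2 (Nat.cast_nonneg _) (by positivity)
      _ = _ := by rw [e]; ring
  have h1 := h p (by omega) χ hχ A B z z' M hz hz'
    ((Real.rpow_le_rpow_of_exponent_le hpR (by linarith)).trans hMge) (min_le_right _ _)
    (hinv A P z N ((min_le_left _ _).trans (min_le_left _ _)) hAN hA)
    (hinv B Q z' N' ((min_le_left _ _).trans (min_le_right _ _)) hBN hB) (by
      intro Z hZ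
      have hpos : 0 < (p : ℝ) ^ (2 * ε₂) := by positivity
      have h2 : (Z.card : ℝ) ≤ (p : ℝ) ^ (1 / 2 - ε₂) := by
        have h3 : (Z.card : ℝ) * (p : ℝ) ^ (2 * ε₂) ≤
            (p : ℝ) ^ (1 / 2 - ε₂) * (p : ℝ) ^ (2 * ε₂) := by
          calc (Z.card : ℝ) * (p : ℝ) ^ (2 * ε₂) ≤ Z.card * M :=
                mul_le_mul_of_nonneg_left hMge (Nat.cast_nonneg _)
            _ ≤ (p : ℝ) ^ (1 / 2 + ε₃) := hZ
            _ ≤ (p : ℝ) ^ (1 / 2 - ε₂ + 2 * ε₂) :=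
                Real.rpow_le_rpow_of_exponent_le hpR (by linarith)
            _ = _ := by rw [Real.rpow_add hp0]
        exact le_of_mul_le_mul_right h3 hpos
      refine (hAB Z h2).trans (mul_le_mul_of_nonneg_right ?_ (by positivity))
      exact Real.rpow_le_rpow_of_exponent_le hpR (by linarith)) f g
  refine h1.trans (mul_le_mul_of_nonneg_right ?_ (by positivity))
  exact Real.rpow_le_rpow_of_exponent_le hpR (by linarith)

end Pool.Agent.Y881.BI
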